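import Pool.Agent.Lib.MP_b59c01_an.Defs

/-!
# Auxiliary definitions
-/

open Set Metric Filter Topology

namespace Pool.SiegelArc

/-- The closed curve `C` (on `[0, 1]`) has the same winding number about `a` and about `b`:
`(C - a) / (C - b)` has a closed continuous logarithm. -/
def SameWind (C : ℝ → ℂ) (a b : ℂ) : Prop :=
  (∀ t ∈ Icc (0 : ℝ) 1, C t ≠ a ∧ C t ≠ b) ∧ ∃ l : ℝ → ℂ, ContinuousOn l (Icc 0 1) ∧ l 0 = l 1 ∧
    ∀ t ∈ Icc (0 : ℝ) 1, Complex.exp (l t) * (C t - b) = C t - a

/-- the upper half plane as a set -/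
def UH : Set ℂ := {w | 0 < w.im}

/-- the point with polar coordinates `r`, `θ` -/
noncomputable def pol (r θ : ℝ) : ℂ := r * Complex.exp (θ * Complex.I)

/-- `x` is the limit of `φ` along the radius with angle `θ` -/
def RadLim (φ : ℂ → ℂ) (θ : ℝ) (x : ℂ) : Prop :=
  Tendsto (fun r : ℝ => φ (pol r θ)) (𝓝[<] 1) (𝓝 x)

/-- The closed curve: the image of the upper half circle of radius `r` from the right to the left,
then the path `A` (which starts at the left end `e₂ = A 0` and ends at the right end `e₁ = A 1`). -/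
noncomputable def semiLoop (ψ : ℂ → ℂ) (r : ℝ) (A : ℝ → ℂ) (t : ℝ) : ℂ :=
  if t ≤ 0 then A 1 else if t < 1 / 2 then ψ (pol r (2 * Real.pi * t)) else A (2 * t - 1)

/-- The closed curve: the image of the radius with angle `θ₂` inwards, of the radius with angle `θ₁`
outwards, then the path `A` (which starts at the limit `x₁ = A 0` along the radius `θ₁` and ends at
the limit `x₂ = A 1` along the radius `θ₂`). -/
noncomputable def radLoop (φ : ℂ → ℂ) (θ₁ θ₂ : ℝ) (A : ℝ → ℂ) (t : ℝ) : ℂ :=
  if t ≤ 0 then A 1 else if t ≤ 1 / 4 then φ (pol (1 - 4 * t) θ₂) else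
    if t < 1 / 2 then φ (pol (4 * t - 1) θ₁) else A (2 * t - 1)

/-- The topological situation: `S` is surrounded by `J`, every point of which is a limit of the
connected set `Ω`. -/
structure Surround (S J Ω : Set ℂ) : Prop where
  pre : IsPreconnected Ω
  oj : Disjoint Ω J
  os : Disjoint Ω S
  js : Disjoint J S
  cl : closure S ⊆ S ∪ J
  jo : J ⊆ closure Ω

/-- injective holomorphic maps -/
structure Conf (U : Set ℂ) (φ : ℂ → ℂ) : Prop where
  opn : IsOpen U
  diff : DifferentiableOn ℂ φ U
  inj : InjOn φ U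

end Pool.SiegelArc
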