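import Pool.Agent.Lib.MP_b59c01_an.W5

/-!
# MP_b59c01_an, row C1
-/

open Complex MeasureTheory Set Filter Topology Metric

namespace Pool.SiegelArc

/-- points near a crosscut -/
theorem C1_near {U : Set ℂ} {ψ : ℂ → ℂ} (h : Conf U ψ) {z0 v : ℂ} (hz : z0 ∈ U) (hv : v ≠ 0)
    (u : ℂ) : ∀ᶠ y : ℝ in 𝓝[>] 0, ∃ s : ℂ, z0 + s * v ∈ U ∧
      ψ (z0 + s * v) = ψ z0 + u * y * (deriv ψ z0 * v) ∧ ‖s - u * y‖ ≤ y / 3 := by
  obtain ⟨g, hg, hl, hr⟩ := univ_inverse h.opn h.diff h.inj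
  have hopen : IsOpen (ψ '' U) := univ_open h.opn Subset.rfl h.opn h.diff h.inj
  have hw0 : ψ z0 ∈ ψ '' U := ⟨z0, hz, rfl⟩
  have hne : deriv ψ z0 ≠ 0 := univ_deriv h.opn h.diff h.inj hz
  have hgd : HasDerivAt g (deriv ψ z0)⁻¹ (ψ z0) := by
    have h1 : HasDerivAt g (deriv g (ψ z0)) (ψ z0) :=
      (hg.differentiableAt (hopen.mem_nhds hw0)).hasDerivAt
    have h2 : HasDerivAt ψ (deriv ψ z0) z0 :=
      (h.diff.differentiableAt (h.opn.mem_nhds hz)).hasDerivAt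
    have h3 : HasDerivAt (g ∘ ψ) (deriv g (ψ z0) * deriv ψ z0) z0 := h1.comp z0 h2
    have h4 : HasDerivAt (g ∘ ψ) 1 z0 := by
      refine (hasDerivAt_id z0).congr_of_eventuallyEq ?_
      filter_upwards [h.opn.mem_nhds hz] with y hy
      exact hl y hy
    have h5 := h3.unique h4
    have h6 : deriv g (ψ z0) = (deriv ψ z0)⁻¹ := eq_inv_of_mul_eq_one_left h5
    rwa [h6] at h1
  set τ : ℂ := deriv ψ z0 * v with hτ
  set w : ℝ → ℂ := fun y => ψ z0 + u * y * τ with hw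
  have hwd : HasDerivAt w (u * τ) 0 := by
    have h1 : HasDerivAt (fun y : ℝ => (y : ℂ)) 1 0 := Complex.ofRealCLM.hasDerivAt
    have h2 := ((h1.const_mul u).mul_const τ).const_add (ψ z0)
    rwa [mul_one] at h2
  have hwz : w 0 = ψ z0 := by simp [hw]
  have hgw : HasDerivAt (fun y => (g (w y) - z0) / v) u 0 := by
    have h1 : HasDerivAt (g ∘ w) ((deriv ψ z0)⁻¹ * (u * τ)) 0 := by
      have h0 : HasDerivAt g (deriv ψ z0)⁻¹ (w 0) := by rwa [hwz]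
      exact h0.comp (0 : ℝ) hwd
    have h2 := (h1.sub_const z0).div_const v
    have h3 : (deriv ψ z0)⁻¹ * (u * τ) / v = u := by
      rw [hτ]
      field_simp
    rwa [h3] at h2
  have hlit := (hasDerivAt_iff_isLittleO.1 hgw).def (show (0 : ℝ) < 1 / 3 by norm_num)
  have hmem : ∀ᶠ y : ℝ in 𝓝 0, w y ∈ ψ '' U := by
    apply hwd.continuousAt.eventually_mem
    rw [hwz]
    exact hopen.mem_nhds hw0
  filter_upwards [hlit.filter_mono nhdsWithin_le_nhds, hmem.filter_mono nhdsWithin_le_nhds,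
    self_mem_nhdsWithin] with y hy1 hy2 hy3
  rw [mem_Ioi] at hy3
  obtain ⟨hr1, hr2⟩ := hr _ hy2
  have e1 : z0 + (g (w y) - z0) / v * v = g (w y) := by
    field_simp
    ring
  refine ⟨(g (w y) - z0) / v, ?_, ?_, ?_⟩
  · rw [e1]
    exact hr1
  · rw [e1]
    exact hr2
  · have h1 : (g (w 0) - z0) / v = 0 := by
      rw [hwz, hl z0 hz, sub_self, zero_div]
    rw [h1, sub_zero, sub_zero, Complex.real_smul, Real.norm_of_nonneg hy3.le] at hy1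
    rw [mul_comm u]
    linarith

/-- General crosscut lemma. `V₁` is on the left of the crosscut `γ` at `γ t0`, `V₂` on the right.
PROOF: `z0 = γ t0`, `τ = deriv ψ z0 * v ≠ 0` (`univ_deriv`) is the derivative of `C` at `t0` (chain rule and `hCγ`). Let `g` be
the inverse of `ψ` on `ψ '' U` (`univ_inverse`); `g` has derivative `(deriv ψ z0)⁻¹` at `ψ z0` (from `g (ψ z) = z`, or
`HasDerivAt.of_local_left_inverse`). So `g (ψ z0 + I y τ) = z0 + s y * v` with `s y = I y + o(y)`; for small `y > 0`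
`‖s y‖ < δ` and `|(s y).re| < (s y).im`, so this point is in `V₁` (`hc₁`), and `ψ` of it is `ψ z0 + I y τ`
(the point `ψ z0 + I y τ` is in the open set `ψ '' U`, `univ_open`). In the same way for `- I y τ` and `V₂`.
`ψ '' V₁` and `ψ '' V₂` are preconnected and disjoint from the curve, so `sameWind_of_preconnected` gives
`SameWind C (ψ a) (C t0 + I y τ)` and `SameWind C (ψ b) (C t0 - I y τ)`; with `SameWind C (ψ a) (ψ b)` and
`SameWind.equiv` this contradicts `jump` for small `y`. -/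
theorem crosscut {U : Set ℂ} {ψ : ℂ → ℂ} (h : Conf U ψ) {C : ℝ → ℂ}
    (hC : ContinuousOn C (Icc 0 1)) (h01 : C 0 = C 1) {t0 : ℝ} (ht0 : t0 ∈ Ioo (0 : ℝ) 1)
    {γ : ℝ → ℂ} (hγ0 : γ t0 ∈ U) {v : ℂ} (hv : v ≠ 0) (hγ : HasDerivAt γ v t0)
    (hCγ : ∀ᶠ t in 𝓝 t0, C t = ψ (γ t)) (hinj : ∀ t ∈ Icc (0 : ℝ) 1, t ≠ t0 → C t ≠ C t0)
    {V₁ V₂ : Set ℂ} (hV₁ : IsPreconnected V₁) (hV₂ : IsPreconnected V₂) (hs₁ : V₁ ⊆ U)
    (hs₂ : V₂ ⊆ U) (hd₁ : ∀ x ∈ V₁, ∀ t ∈ Icc (0 : ℝ) 1, C t ≠ ψ x)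
    (hd₂ : ∀ x ∈ V₂, ∀ t ∈ Icc (0 : ℝ) 1, C t ≠ ψ x)
    (hc₁ : ∃ δ > 0, ∀ s : ℂ, ‖s‖ < δ → |s.re| < s.im → γ t0 + s * v ∈ V₁)
    (hc₂ : ∃ δ > 0, ∀ s : ℂ, ‖s‖ < δ → |s.re| < -s.im → γ t0 + s * v ∈ V₂)
    {a b : ℂ} (ha : a ∈ V₁) (hb : b ∈ V₂) : ¬ SameWind C (ψ a) (ψ b) := by
  set z0 : ℂ := γ t0 with hz0
  have hw0 : C t0 = ψ z0 := hCγ.self_of_nhds
  have hne : deriv ψ z0 ≠ 0 := univ_deriv h.opn h.diff h.inj hγ0
  have hτ : deriv ψ z0 * v ≠ 0 := mul_ne_zero hne hv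
  have hCd : HasDerivAt C (deriv ψ z0 * v) t0 := by
    have h2 : HasDerivAt ψ (deriv ψ z0) (γ t0) :=
      (h.diff.differentiableAt (h.opn.mem_nhds hγ0)).hasDerivAt
    exact (h2.comp t0 hγ).congr_of_eventuallyEq hCγ
  obtain ⟨δ₁, hδ₁, hV1⟩ := hc₁
  obtain ⟨δ₂, hδ₂, hV2⟩ := hc₂
  have hsm : ∀ᶠ y : ℝ in 𝓝[>] 0, y < min δ₁ δ₂ / 2 :=
    (gt_mem_nhds (half_pos (lt_min hδ₁ hδ₂))).filter_mono nhdsWithin_le_nhds
  have hall := ((((jump hC h01 ht0 hτ hCd hinj).and (C1_near h hγ0 hv I)).and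
    (C1_near h hγ0 hv (-I))).and hsm).and self_mem_nhdsWithin
  obtain ⟨y, ⟨⟨⟨hj, s, hs1, hs2, hs3⟩, s', hs1', hs2', hs3'⟩, hys⟩, hy0⟩ := hall.exists
  have hm1 := min_le_left δ₁ δ₂
  have hm2 := min_le_right δ₁ δ₂
  have hIy : ‖I * (y : ℂ)‖ = y := by
    rw [norm_mul, norm_I, one_mul, norm_real, Real.norm_of_nonneg hy0.le]
  have hsn : ‖s‖ ≤ y + y / 3 := by
    have h1 := norm_add_le (s - I * y) (I * y)
    rw [sub_add_cancel] at h1
    linarith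
  have hsn' : ‖s'‖ ≤ y + y / 3 := by
    have h1 := norm_add_le (s' - (-I) * y) ((-I) * y)
    rw [sub_add_cancel, neg_mul, norm_neg, hIy] at h1
    rw [neg_mul] at hs3'
    linarith
  have hin1 : z0 + s * v ∈ V₁ := by
    apply hV1 s (by linarith)
    have h1 := (abs_re_le_norm _).trans hs3
    have h2 := (abs_im_le_norm _).trans hs3
    have e1 : (s - I * y).re = s.re := by simp
    have e2 : (s - I * y).im = s.im - y := by simp
    rw [e1] at h1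
    rw [e2] at h2
    have h3 := (abs_le.1 h2).1
    linarith
  have hin2 : z0 + s' * v ∈ V₂ := by
    apply hV2 s' (by linarith)
    have h1 := (abs_re_le_norm _).trans hs3'
    have h2 := (abs_im_le_norm _).trans hs3'
    have e1 : (s' - (-I) * y).re = s'.re := by simp
    have e2 : (s' - (-I) * y).im = s'.im + y := by simp
    rw [e1] at h1
    rw [e2] at h2
    have h3 := (abs_le.1 h2).2
    linarith
  intro hab
  obtain ⟨_, hsymm, htrans⟩ := SameWind.equiv C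
  have hp1 : IsPreconnected (ψ '' V₁) := hV₁.image ψ (h.diff.continuousOn.mono hs₁)
  have hp2 : IsPreconnected (ψ '' V₂) := hV₂.image ψ (h.diff.continuousOn.mono hs₂)
  have hA : SameWind C (ψ (z0 + s * v)) (ψ a) := by
    refine sameWind_of_preconnected hC h01 hp1 ?_ ⟨_, hin1, rfl⟩ ⟨_, ha, rfl⟩
    rintro t ht ⟨x, hx, hxt⟩
    exact hd₁ x hx t ht hxt.symm
  have hB : SameWind C (ψ b) (ψ (z0 + s' * v)) := by
    refine sameWind_of_preconnected hC h01 hp2 ?_ ⟨_, hb, rfl⟩ ⟨_, hin2, rfl⟩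
    rintro t ht ⟨x, hx, hxt⟩
    exact hd₂ x hx t ht hxt.symm
  apply hj
  have hfin := htrans _ _ _ (htrans _ _ _ hA hab) hB
  rw [hs2, hs2'] at hfin
  have e3 : ψ z0 + -I * ↑y * (deriv ψ z0 * v) = C t0 - I * y * (deriv ψ z0 * v) := by
    rw [hw0]
    ring
  rw [e3, ← hw0] at hfin
  exact hfin

end Pool.SiegelArc
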