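import Pool.Agent.Lib.MP_b59c01_an.C1

/-!
# MP_b59c01_an, row C2
-/

open Complex MeasureTheory Set Filter Topology Metric

namespace Pool.SiegelArc

theorem semiLoop_values (ψ : ℂ → ℂ) (r : ℝ) (A : ℝ → ℂ) {t : ℝ} (ht : t ∈ Icc (0 : ℝ) 1) :
    (∃ s ∈ Icc (0 : ℝ) 1, semiLoop ψ r A t = A s) ∨
      ∃ θ ∈ Ioo 0 Real.pi, semiLoop ψ r A t = ψ (pol r θ) := by
  unfold semiLoop
  by_cases h0 : t ≤ 0
  · rw [if_pos h0]
    exact Or.inl ⟨1, ⟨zero_le_one, le_rfl⟩, rfl⟩
  · rw [if_neg h0]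
    by_cases h1 : t < 1 / 2
    · rw [if_pos h1]
      have hpi := Real.pi_pos
      exact Or.inr ⟨2 * Real.pi * t, ⟨by nlinarith, by nlinarith⟩, rfl⟩
    · rw [if_neg h1]
      exact Or.inl ⟨2 * t - 1, ⟨by linarith, by linarith [ht.2]⟩, rfl⟩

theorem C2_norm_pol (ρ θ : ℝ) : ‖pol ρ θ‖ = |ρ| := by
  rw [pol, norm_mul, norm_exp_ofReal_mul_I, mul_one, norm_real, Real.norm_eq_abs]

theorem C2_continuous_pol : Continuous fun p : ℝ × ℝ => pol p.1 p.2 := by
  unfold pol
  fun_prop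

theorem C2_pol_re (ρ θ : ℝ) : (pol ρ θ).re = ρ * Real.cos θ := by
  rw [pol, re_ofReal_mul, exp_ofReal_mul_I_re]

theorem C2_pol_im (ρ θ : ℝ) : (pol ρ θ).im = ρ * Real.sin θ := by
  rw [pol, im_ofReal_mul, exp_ofReal_mul_I_im]

theorem C2_pol_mem {ρ θ : ℝ} (hρ : 0 < ρ) (hθ : θ ∈ Ioo 0 Real.pi) : pol ρ θ ∈ UH := by
  change 0 < (pol ρ θ).im
  rw [C2_pol_im]
  exact mul_pos hρ (Real.sin_pos_of_pos_of_lt_pi hθ.1 hθ.2)

theorem C2_pol_half (r : ℝ) : pol r (2 * Real.pi * (1 / 4)) = r * I := by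
  apply Complex.ext
  · rw [C2_pol_re, show 2 * Real.pi * (1 / 4) = Real.pi / 2 by ring, Real.cos_pi_div_two]
    simp
  · rw [C2_pol_im, show 2 * Real.pi * (1 / 4) = Real.pi / 2 by ring, Real.sin_pi_div_two]
    simp

/-- PROOF: by cases (`θ = 2 π t` tends to `0+` as `t → 0+` and to `π-` as `t → 1/2-`). -/
theorem semiLoop_continuousOn {ψ : ℂ → ℂ} (h : Conf UH ψ) {r : ℝ} (hr : 0 < r) {A : ℝ → ℂ}
    (hA : ContinuousOn A (Icc 0 1))
    (h₁ : Tendsto (fun θ : ℝ => ψ (pol r θ)) (𝓝[>] 0) (𝓝 (A 1)))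
    (h₂ : Tendsto (fun θ : ℝ => ψ (pol r θ)) (𝓝[<] Real.pi) (𝓝 (A 0))) :
    ContinuousOn (semiLoop ψ r A) (Icc 0 1) := by
  have hpi := Real.pi_pos
  have hψ : ∀ {θ : ℝ}, θ ∈ Ioo 0 Real.pi → ContinuousAt ψ (pol r θ) := fun hθ =>
    (h.diff.continuousOn).continuousAt (h.opn.mem_nhds (C2_pol_mem hr hθ))
  have hp : Continuous fun t : ℝ => pol r (2 * Real.pi * t) :=
    C2_continuous_pol.comp (continuous_const.prodMk (by fun_prop))
  have e1 : ∀ t : ℝ, 0 < t → t < 1 / 2 → semiLoop ψ r A t = ψ (pol r (2 * Real.pi * t)) := by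
    intro t h0 h1
    rw [semiLoop, if_neg (not_le.2 h0), if_pos h1]
  have e3 : ∀ t : ℝ, 1 / 2 ≤ t → semiLoop ψ r A t = A (2 * t - 1) := by
    intro t h0
    rw [semiLoop, if_neg (by linarith), if_neg (by linarith)]
  have c1 : ContinuousOn (semiLoop ψ r A) (Icc 0 (1 / 4)) := by
    intro t ht
    rcases ht.1.eq_or_lt with h0 | h0
    · rw [← h0, ← Ioc_insert_left (by norm_num : (0 : ℝ) ≤ 1 / 4), continuousWithinAt_insert_self]
      have h3 : semiLoop ψ r A 0 = A 1 := by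
        rw [semiLoop, if_pos le_rfl]
      rw [ContinuousWithinAt, h3]
      have h4 : Tendsto (fun t : ℝ => 2 * Real.pi * t) (𝓝[Ioc 0 (1 / 4)] 0) (𝓝[>] 0) := by
        apply tendsto_nhdsWithin_of_tendsto_nhds_of_eventually_within
        · have h5 : Continuous fun t : ℝ => 2 * Real.pi * t := by fun_prop
          have h6 := h5.tendsto 0
          rw [mul_zero] at h6
          exact h6.mono_left nhdsWithin_le_nhds
        · filter_upwards [self_mem_nhdsWithin] with x hx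
          rw [mem_Ioi]
          have := hx.1
          positivity
      refine (h₁.comp h4).congr' ?_
      filter_upwards [self_mem_nhdsWithin] with x hx
      exact (e1 x hx.1 (by linarith [hx.2])).symm
    · have h3 : ContinuousWithinAt (fun t => ψ (pol r (2 * Real.pi * t))) (Icc 0 (1 / 4)) t := by
        have h4 : ContinuousAt (fun t : ℝ => pol r (2 * Real.pi * t)) t := hp.continuousAt
        have h5 : ContinuousAt ψ (pol r (2 * Real.pi * t)) :=
          hψ ⟨by positivity, by nlinarith [ht.2]⟩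
        exact (ContinuousAt.comp (f := fun t : ℝ => pol r (2 * Real.pi * t)) (g := ψ) h5
          h4).continuousWithinAt
      refine h3.congr_of_eventuallyEq ?_ (e1 t h0 (by linarith [ht.2]))
      filter_upwards [mem_nhdsWithin_of_mem_nhds (Ioi_mem_nhds h0), self_mem_nhdsWithin]
        with x hx hx'
      exact e1 x hx (by linarith [hx'.2])
  have c2 : ContinuousOn (semiLoop ψ r A) (Icc (1 / 4) (1 / 2)) := by
    intro t ht
    rcases ht.2.eq_or_lt with h0 | h0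
    · rw [h0, ← Ico_insert_right (by norm_num : (1 / 4 : ℝ) ≤ 1 / 2),
        continuousWithinAt_insert_self]
      have h3 : semiLoop ψ r A (1 / 2) = A 0 := by
        rw [e3 _ le_rfl]
        norm_num
      rw [ContinuousWithinAt, h3]
      have h4 : Tendsto (fun t : ℝ => 2 * Real.pi * t) (𝓝[Ico (1 / 4) (1 / 2)] (1 / 2))
          (𝓝[<] Real.pi) := by
        apply tendsto_nhdsWithin_of_tendsto_nhds_of_eventually_within
        · have h5 : Continuous fun t : ℝ => 2 * Real.pi * t := by fun_prop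
          have h6 := h5.tendsto (1 / 2)
          rw [show 2 * Real.pi * (1 / 2) = Real.pi by ring] at h6
          exact h6.mono_left nhdsWithin_le_nhds
        · filter_upwards [self_mem_nhdsWithin] with x hx
          rw [mem_Iio]
          nlinarith [hx.2]
      refine (h₂.comp h4).congr' ?_
      filter_upwards [self_mem_nhdsWithin] with x hx
      exact (e1 x (by linarith [hx.1]) hx.2).symm
    · have h3 : ContinuousWithinAt (fun t => ψ (pol r (2 * Real.pi * t)))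
          (Icc (1 / 4) (1 / 2)) t := by
        have h4 : ContinuousAt (fun t : ℝ => pol r (2 * Real.pi * t)) t := hp.continuousAt
        have h5 : ContinuousAt ψ (pol r (2 * Real.pi * t)) :=
          hψ ⟨by nlinarith [ht.1], by nlinarith⟩
        exact (ContinuousAt.comp (f := fun t : ℝ => pol r (2 * Real.pi * t)) (g := ψ) h5
          h4).continuousWithinAt
      refine h3.congr_of_eventuallyEq ?_ (e1 t (by linarith [ht.1]) h0)
      filter_upwards [mem_nhdsWithin_of_mem_nhds (Iio_mem_nhds h0), self_mem_nhdsWithin]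
        with x hx hx'
      exact e1 x (by linarith [hx'.1]) hx
  have c3 : ContinuousOn (semiLoop ψ r A) (Icc (1 / 2) 1) := by
    have h3 : ContinuousOn (fun t : ℝ => A (2 * t - 1)) (Icc (1 / 2) 1) := by
      refine hA.comp (Continuous.continuousOn (by fun_prop)) ?_
      intro x hx
      exact ⟨by linarith [hx.1], by linarith [hx.2]⟩
    exact h3.congr fun x hx => e3 x hx.1
  have c12 := c1.union_of_isClosed c2 isClosed_Icc isClosed_Icc
  rw [Icc_union_Icc_eq_Icc (by norm_num) (by norm_num)] at c12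
  have c123 := c12.union_of_isClosed c3 isClosed_Icc isClosed_Icc
  rwa [Icc_union_Icc_eq_Icc (by norm_num) (by norm_num)] at c123

/-- the outer part of the half plane -/
theorem C2_outer (r : ℝ) (hr : 0 < r) : IsPreconnected {w : ℂ | w ∈ UH ∧ r < ‖w‖} := by
  have h1 : {w : ℂ | w ∈ UH ∧ r < ‖w‖} =
      (fun p : ℝ × ℝ => pol p.1 p.2) '' (Ioi r ×ˢ Ioo 0 Real.pi) := by
    ext w
    constructor
    · rintro ⟨h1, h2⟩
      have h1' : 0 < w.im := h1
      refine ⟨(‖w‖, arg w), ⟨h2, ?_, ?_⟩, norm_mul_exp_arg_mul_I w⟩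
      · refine lt_of_le_of_ne (arg_nonneg_iff.2 h1'.le) (fun h8 => ?_)
        exact h1'.ne' (arg_eq_zero_iff.1 h8.symm).2
      · refine lt_of_le_of_ne (arg_le_pi w) (fun h8 => ?_)
        exact h1'.ne' (arg_eq_pi_iff.1 h8).2
    · rintro ⟨⟨ρ, θ⟩, ⟨hρ, hθ⟩, rfl⟩
      have hρ' : r < ρ := hρ
      refine ⟨C2_pol_mem (hr.trans hρ') hθ, ?_⟩
      change r < ‖pol ρ θ‖
      rw [C2_norm_pol, abs_of_pos (hr.trans hρ')]
      exact hρ'
  rw [h1]
  exact (isPreconnected_Ioi.prod isPreconnected_Ioo).image _ C2_continuous_pol.continuousOn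

theorem C2_inner (r : ℝ) : IsPreconnected {w : ℂ | w ∈ UH ∧ ‖w‖ < r} := by
  have h1 : {w : ℂ | w ∈ UH ∧ ‖w‖ < r} = UH ∩ ball 0 r := by
    ext w
    rw [mem_inter_iff, mem_ball_zero_iff]
    rfl
  rw [h1]
  exact ((convex_halfSpace_im_gt 0).inter (convex_ball 0 r)).isPreconnected

/-- PROOF: `crosscut` with `U = UH`, `t0 = 1/4`, `γ t = pol r (2 π t)`, `γ t0 = r I`, `v = -2 π r`,
`V₁ = {w ∈ UH | ‖w‖ < r}` (`γ t0 + s v = r I - 2 π r s`: for `0 < s.im`, `|s.re| < s.im < 1/(2π)` its imaginary part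
`r (1 - 2 π s.im)` is positive and `‖·‖² ≤ r² (1 - 4 π s.im + 8 π² s.im²) < r²`), `V₂ = {w ∈ UH | r < ‖w‖}` (for `s.im < 0` the
imaginary part is `> r`). `V₁` is convex; `V₂` is the image of `Ioi r ×ˢ Ioo 0 π` under polar coordinates. The curve does not
meet `ψ '' V₁`, `ψ '' V₂` (`hAS`, injectivity), and `semiLoop t = ψ (r I)` only for `t = 1/4` (injectivity, `hAS`). -/
theorem semi_crosscut {ψ : ℂ → ℂ} (h : Conf UH ψ) {r : ℝ} (hr : 0 < r) {A : ℝ → ℂ}
    (hA : ContinuousOn A (Icc 0 1)) (hAS : ∀ t ∈ Icc (0 : ℝ) 1, A t ∉ ψ '' UH)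
    (h₁ : Tendsto (fun θ : ℝ => ψ (pol r θ)) (𝓝[>] 0) (𝓝 (A 1)))
    (h₂ : Tendsto (fun θ : ℝ => ψ (pol r θ)) (𝓝[<] Real.pi) (𝓝 (A 0)))
    {w₁ w₂ : ℂ} (hw₁ : w₁ ∈ UH) (hw₂ : w₂ ∈ UH) (h1 : ‖w₁‖ < r) (h2 : r < ‖w₂‖) :
    ¬ SameWind (semiLoop ψ r A) (ψ w₁) (ψ w₂) := by
  have hpi := Real.pi_pos
  have hval : ∀ {s : ℝ} {x : ℂ}, s ∈ Icc (0 : ℝ) 1 → x ∈ UH → A s ≠ ψ x :=
    fun hs hx he => hAS _ hs ⟨_, hx, he.symm⟩
  have hq : (2 * Real.pi * (1 / 4) : ℝ) ∈ Ioo 0 Real.pi := ⟨by positivity, by linarith⟩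
  have hrI : (r * I : ℂ) ∈ UH := by
    rw [← C2_pol_half]
    exact C2_pol_mem hr hq
  have hev : ∀ t : ℝ, 0 < t → t < 1 / 2 →
      semiLoop ψ r A t = ψ (pol r (2 * Real.pi * t)) := by
    intro t a b
    rw [semiLoop, if_neg (by linarith), if_pos b]
  have hC0 : semiLoop ψ r A (1 / 4) = ψ (r * I) := by
    rw [hev _ (by norm_num) (by norm_num), C2_pol_half]
  have hav : ∀ x ∈ UH, ‖x‖ ≠ r → ∀ t ∈ Icc (0 : ℝ) 1, semiLoop ψ r A t ≠ ψ x := by
    intro x hx hne t ht he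
    rcases semiLoop_values ψ r A ht with ⟨s, hs, h3⟩ | ⟨θ, hθ, h3⟩
    · exact hval hs hx (h3.symm.trans he)
    · have h4 := h.inj hx (C2_pol_mem hr hθ) (he.symm.trans h3)
      apply hne
      rw [h4, C2_norm_pol, abs_of_pos hr]
  have hre : ∀ s : ℂ, ((r * I : ℂ) + s * (-(2 * Real.pi * r) : ℝ)).re
      = -(2 * Real.pi * r) * s.re := by
    intro s
    rw [add_re, re_mul_ofReal, re_ofReal_mul, I_re]
    ring
  have him : ∀ s : ℂ, ((r * I : ℂ) + s * (-(2 * Real.pi * r) : ℝ)).im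
      = r * (1 - 2 * Real.pi * s.im) := by
    intro s
    rw [add_im, im_mul_ofReal, im_ofReal_mul, I_im]
    ring
  have hnsq : ∀ s : ℂ, ‖((r * I : ℂ) + s * (-(2 * Real.pi * r) : ℝ))‖ ^ 2
      = r ^ 2 * ((2 * Real.pi * s.re) ^ 2 + (1 - 2 * Real.pi * s.im) ^ 2) := by
    intro s
    rw [← normSq_eq_norm_sq, normSq_apply, hre, him]
    ring
  refine crosscut h (semiLoop_continuousOn h hr hA h₁ h₂) ?_ (t0 := 1 / 4)
    ⟨by norm_num, by norm_num⟩ (γ := fun t => pol r (2 * Real.pi * t)) ?_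
    (v := ((-(2 * Real.pi * r) : ℝ) : ℂ)) ?_ ?_ ?_ ?_
    (C2_inner r) (C2_outer r hr) (fun x hx => hx.1) (fun x hx => hx.1)
    (fun x hx => hav x hx.1 hx.2.ne) (fun x hx => hav x hx.1 hx.2.ne') ?_ ?_
    ⟨hw₁, h1⟩ ⟨hw₂, h2⟩
  · rw [semiLoop, if_pos le_rfl, semiLoop, if_neg (by norm_num), if_neg (by norm_num)]
    norm_num
  · exact C2_pol_mem hr hq
  · rw [ofReal_ne_zero, neg_ne_zero]
    positivity
  · have h3 : HasDerivAt (fun t : ℝ => ((2 * Real.pi * t : ℝ) : ℂ)) ((2 * Real.pi : ℝ) : ℂ)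
        (1 / 4) := by
      apply HasDerivAt.ofReal_comp
      simpa using (hasDerivAt_id (1 / 4 : ℝ)).const_mul (2 * Real.pi)
    have h4 := (((h3.mul_const I).cexp).const_mul (r : ℂ))
    have h5 : (r : ℂ) * (exp (((2 * Real.pi * (1 / 4) : ℝ) : ℂ) * I) *
        (((2 * Real.pi : ℝ) : ℂ) * I)) = ((-(2 * Real.pi * r) : ℝ) : ℂ) := by
      have h6 := C2_pol_half r
      rw [pol] at h6
      calc (r : ℂ) * (exp (((2 * Real.pi * (1 / 4) : ℝ) : ℂ) * I) *
            (((2 * Real.pi : ℝ) : ℂ) * I))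
          = ((r : ℂ) * exp (((2 * Real.pi * (1 / 4) : ℝ) : ℂ) * I)) *
            (((2 * Real.pi : ℝ) : ℂ) * I) := by ring
        _ = (r * I) * (((2 * Real.pi : ℝ) : ℂ) * I) := by rw [h6]
        _ = (I * I) * (r * ((2 * Real.pi : ℝ) : ℂ)) := by ring
        _ = ((-(2 * Real.pi * r) : ℝ) : ℂ) := by
            rw [I_mul_I]
            push_cast
            ring
    rw [h5] at h4
    exact h4
  · filter_upwards [Ioo_mem_nhds (by norm_num : (0 : ℝ) < 1 / 4)
      (by norm_num : (1 / 4 : ℝ) < 1 / 2)] with t ht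
    exact hev t ht.1 ht.2
  · intro t ht hne he
    rw [hC0] at he
    by_cases h3 : t ≤ 0
    · rw [semiLoop, if_pos h3] at he
      exact hval ⟨zero_le_one, le_rfl⟩ hrI he
    · by_cases h5 : t < 1 / 2
      · rw [not_le] at h3
        rw [hev t h3 h5] at he
        have h6 := h.inj (C2_pol_mem hr ⟨by positivity, by nlinarith⟩) hrI he
        have h7 := congrArg Complex.re h6
        rw [C2_pol_re, re_ofReal_mul, I_re, mul_zero] at h7
        have h8 : Real.cos (2 * Real.pi * t) = 0 := by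
          rcases mul_eq_zero.1 h7 with h9 | h9
          · exact absurd h9 hr.ne'
          · exact h9
        have h9 : Real.cos (2 * Real.pi * t) = Real.cos (Real.pi / 2) := by
          rw [h8, Real.cos_pi_div_two]
        have h10 := Real.injOn_cos (x₁ := 2 * Real.pi * t) (x₂ := Real.pi / 2)
          ⟨by positivity, by nlinarith⟩ ⟨by positivity, by linarith⟩ h9
        apply hne
        have h11 : Real.pi * (2 * t - 1 / 2) = 0 := by linarith
        rcases mul_eq_zero.1 h11 with h12 | h12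
        · exact absurd h12 hpi.ne'
        · linarith
      · rw [semiLoop, if_neg h3, if_neg h5] at he
        exact hval ⟨by linarith, by linarith [ht.2]⟩ hrI he
  · refine ⟨1 / (4 * Real.pi), by positivity, fun s hs hlt => ?_⟩
    have hsi : 0 < s.im := (abs_nonneg _).trans_lt hlt
    have hsi' : s.im < 1 / (4 * Real.pi) := ((le_abs_self _).trans (abs_im_le_norm s)).trans_lt hs
    rw [lt_div_iff₀ (by positivity)] at hsi'
    have hsq : s.re ^ 2 < s.im ^ 2 := by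
      rw [← sq_abs s.re]
      exact pow_lt_pow_left₀ hlt (abs_nonneg _) two_ne_zero
    change (pol r (2 * Real.pi * (1 / 4)) + s * ((-(2 * Real.pi * r) : ℝ) : ℂ)) ∈
      {w : ℂ | w ∈ UH ∧ ‖w‖ < r}
    rw [C2_pol_half]
    refine ⟨?_, ?_⟩
    · change 0 < ((r * I : ℂ) + s * (-(2 * Real.pi * r) : ℝ)).im
      rw [him]
      apply mul_pos hr
      nlinarith
    · apply lt_of_pow_lt_pow_left₀ 2 hr.le
      rw [hnsq]
      have h3 : (2 * Real.pi * s.re) ^ 2 + (1 - 2 * Real.pi * s.im) ^ 2 < 1 := by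
        have h4 : (2 * Real.pi * s.re) ^ 2 < (2 * Real.pi * s.im) ^ 2 := by
          rw [mul_pow, mul_pow (2 * Real.pi) s.im]
          exact mul_lt_mul_of_pos_left hsq (by positivity)
        have h5 : 0 < 2 * Real.pi * s.im := by positivity
        have h6 : 2 * Real.pi * s.im < 1 / 2 := by linarith
        nlinarith
      calc r ^ 2 * ((2 * Real.pi * s.re) ^ 2 + (1 - 2 * Real.pi * s.im) ^ 2) < r ^ 2 * 1 :=
            mul_lt_mul_of_pos_left h3 (by positivity)
        _ = r ^ 2 := mul_one _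
  · refine ⟨1, one_pos, fun s hs hlt => ?_⟩
    have hsi : s.im < 0 := by
      have := abs_nonneg s.re
      linarith
    change (pol r (2 * Real.pi * (1 / 4)) + s * ((-(2 * Real.pi * r) : ℝ) : ℂ)) ∈
      {w : ℂ | w ∈ UH ∧ r < ‖w‖}
    rw [C2_pol_half]
    have h3 : r < ((r * I : ℂ) + s * (-(2 * Real.pi * r) : ℝ)).im := by
      rw [him]
      nlinarith [mul_pos (mul_pos hr hpi) (neg_pos.2 hsi)]
    refine ⟨?_, ?_⟩
    · change 0 < ((r * I : ℂ) + s * (-(2 * Real.pi * r) : ℝ)).im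
      linarith
    · exact h3.trans_le ((le_abs_self _).trans (abs_im_le_norm _))

end Pool.SiegelArc
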