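import Pool.Agent.Lib.MP_b59c01_an.C1

/-!
# MP_b59c01_an, row C3
-/

open Complex MeasureTheory Set Filter Topology Metric

namespace Pool.SiegelArc

theorem radLoop_values (φ : ℂ → ℂ) (θ₁ θ₂ : ℝ) (A : ℝ → ℂ) {t : ℝ} (ht : t ∈ Icc (0 : ℝ) 1) :
    (∃ s ∈ Icc (0 : ℝ) 1, radLoop φ θ₁ θ₂ A t = A s) ∨
      ∃ ρ ∈ Ico (0 : ℝ) 1, radLoop φ θ₁ θ₂ A t = φ (pol ρ θ₁) ∨
        radLoop φ θ₁ θ₂ A t = φ (pol ρ θ₂) := by
  unfold radLoop
  by_cases h0 : t ≤ 0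
  · rw [if_pos h0]
    exact Or.inl ⟨1, ⟨zero_le_one, le_rfl⟩, rfl⟩
  · rw [if_neg h0]
    by_cases h1 : t ≤ 1 / 4
    · rw [if_pos h1]
      exact Or.inr ⟨1 - 4 * t, ⟨by linarith, by linarith⟩, Or.inr rfl⟩
    · rw [if_neg h1]
      by_cases h2 : t < 1 / 2
      · rw [if_pos h2]
        exact Or.inr ⟨4 * t - 1, ⟨by linarith, by linarith⟩, Or.inl rfl⟩
      · rw [if_neg h2]
        exact Or.inl ⟨2 * t - 1, ⟨by linarith, by linarith [ht.2]⟩, rfl⟩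

theorem C3_norm_pol (ρ θ : ℝ) : ‖pol ρ θ‖ = |ρ| := by
  rw [pol, norm_mul, norm_exp_ofReal_mul_I, mul_one, norm_real, Real.norm_eq_abs]

theorem C3_pol_mem {ρ : ℝ} (hρ : ρ ∈ Ico (0 : ℝ) 1) (θ : ℝ) : pol ρ θ ∈ ball (0 : ℂ) 1 := by
  rw [mem_ball_zero_iff, C3_norm_pol, abs_of_nonneg hρ.1]
  exact hρ.2

theorem C3_continuous_pol : Continuous fun p : ℝ × ℝ => pol p.1 p.2 := by
  unfold pol
  fun_prop

theorem C3_pol_ne {ρ θ ρ' θ' : ℝ} (hρ : 0 < ρ) (hρ' : 0 ≤ ρ') (h1 : θ' < θ)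
    (h2 : θ < θ' + 2 * Real.pi) : pol ρ θ ≠ pol ρ' θ' := by
  intro h
  have hn : ρ = ρ' := by
    have h3 := congrArg norm h
    rwa [C3_norm_pol, C3_norm_pol, abs_of_pos hρ, abs_of_nonneg hρ'] at h3
  subst hn
  have h3 : exp ((θ : ℂ) * I) = exp ((θ' : ℂ) * I) :=
    mul_left_cancel₀ (ofReal_ne_zero.2 hρ.ne') h
  obtain ⟨n, hn⟩ := exp_eq_exp_iff_exists_int.1 h3
  have h4 : (θ : ℂ) = θ' + n * (2 * Real.pi) := by
    have h5 : (θ : ℂ) * I = (θ' + n * (2 * Real.pi)) * I := by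
      rw [hn]
      ring
    exact mul_right_cancel₀ I_ne_zero h5
  have h5 : θ = θ' + n * (2 * Real.pi) := by exact_mod_cast h4
  have hpi := Real.pi_pos
  have h6 : (0 : ℝ) < n := by
    by_contra hc
    rw [not_lt] at hc
    nlinarith
  have h7 : (n : ℝ) < 1 := by
    by_contra hc
    rw [not_lt] at hc
    nlinarith
  have h8 : (0 : ℤ) < n := by exact_mod_cast h6
  have h9 : n < (1 : ℤ) := by exact_mod_cast h7
  omega

theorem radLoop_continuousOn {φ : ℂ → ℂ} (h : Conf (ball 0 1) φ) {θ₁ θ₂ : ℝ} {A : ℝ → ℂ}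
    (hA : ContinuousOn A (Icc 0 1)) (h₁ : RadLim φ θ₁ (A 0)) (h₂ : RadLim φ θ₂ (A 1)) :
    ContinuousOn (radLoop φ θ₁ θ₂ A) (Icc 0 1) := by
  have hφ : ∀ {ρ : ℝ} (_ : ρ ∈ Ico (0 : ℝ) 1) (θ : ℝ), ContinuousAt φ (pol ρ θ) := fun hρ θ =>
    (h.diff.continuousOn).continuousAt (isOpen_ball.mem_nhds (C3_pol_mem hρ θ))
  have hp : ∀ (θ : ℝ) (u : ℝ → ℝ), Continuous u → Continuous fun t => pol (u t) θ :=
    fun θ u hu => C3_continuous_pol.comp (hu.prodMk continuous_const)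
  -- the first piece
  have e1 : ∀ t : ℝ, 0 < t → t ≤ 1 / 4 → radLoop φ θ₁ θ₂ A t = φ (pol (1 - 4 * t) θ₂) := by
    intro t h0 h1
    rw [radLoop, if_neg (not_le.2 h0), if_pos h1]
  have e2 : ∀ t : ℝ, 1 / 4 ≤ t → t < 1 / 2 → radLoop φ θ₁ θ₂ A t = φ (pol (4 * t - 1) θ₁) := by
    intro t h0 h1
    rcases h0.eq_or_lt with h2 | h2
    · rw [← h2, e1 _ (by norm_num) le_rfl]
      congr 1
      rw [pol, pol]
      norm_num
    · rw [radLoop, if_neg (by linarith), if_neg (not_le.2 h2), if_pos h1]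
  have e3 : ∀ t : ℝ, 1 / 2 ≤ t → radLoop φ θ₁ θ₂ A t = A (2 * t - 1) := by
    intro t h0
    rw [radLoop, if_neg (by linarith), if_neg (by linarith), if_neg (by linarith)]
  have c1 : ContinuousOn (radLoop φ θ₁ θ₂ A) (Icc 0 (1 / 4)) := by
    intro t ht
    rcases ht.1.eq_or_lt with h0 | h0
    · rw [← h0, ← Ioc_insert_left (by norm_num : (0 : ℝ) ≤ 1 / 4), continuousWithinAt_insert_self]
      have h3 : radLoop φ θ₁ θ₂ A 0 = A 1 := by
        rw [radLoop, if_pos le_rfl]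
      rw [ContinuousWithinAt, h3]
      have h4 : Tendsto (fun t : ℝ => 1 - 4 * t) (𝓝[Ioc 0 (1 / 4)] 0) (𝓝[<] 1) := by
        apply tendsto_nhdsWithin_of_tendsto_nhds_of_eventually_within
        · have h5 : Continuous fun t : ℝ => 1 - 4 * t := by fun_prop
          have h6 := h5.tendsto 0
          rw [mul_zero, sub_zero] at h6
          exact h6.mono_left nhdsWithin_le_nhds
        · filter_upwards [self_mem_nhdsWithin] with x hx
          rw [mem_Iio]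
          linarith [hx.1]
      refine (h₂.comp h4).congr' ?_
      filter_upwards [self_mem_nhdsWithin] with x hx
      exact (e1 x hx.1 hx.2).symm
    · have h3 : ContinuousWithinAt (fun t => φ (pol (1 - 4 * t) θ₂)) (Icc 0 (1 / 4)) t := by
        have h4 : ContinuousAt (fun t : ℝ => pol (1 - 4 * t) θ₂) t :=
          (hp θ₂ _ (by fun_prop)).continuousAt
        have h5 : ContinuousAt φ (pol (1 - 4 * t) θ₂) := hφ ⟨by linarith [ht.2], by linarith⟩ θ₂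
        exact (ContinuousAt.comp (f := fun t : ℝ => pol (1 - 4 * t) θ₂) (g := φ) h5
          h4).continuousWithinAt
      refine h3.congr_of_eventuallyEq ?_ (e1 t h0 ht.2)
      filter_upwards [mem_nhdsWithin_of_mem_nhds (Ioi_mem_nhds h0), self_mem_nhdsWithin]
        with x hx hx'
      exact e1 x hx hx'.2
  have c2 : ContinuousOn (radLoop φ θ₁ θ₂ A) (Icc (1 / 4) (1 / 2)) := by
    intro t ht
    rcases ht.2.eq_or_lt with h0 | h0
    · rw [h0, ← Ico_insert_right (by norm_num : (1 / 4 : ℝ) ≤ 1 / 2),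
        continuousWithinAt_insert_self]
      have h3 : radLoop φ θ₁ θ₂ A (1 / 2) = A 0 := by
        rw [e3 _ le_rfl]
        norm_num
      rw [ContinuousWithinAt, h3]
      have h4 : Tendsto (fun t : ℝ => 4 * t - 1) (𝓝[Ico (1 / 4) (1 / 2)] (1 / 2)) (𝓝[<] 1) := by
        apply tendsto_nhdsWithin_of_tendsto_nhds_of_eventually_within
        · have h5 : Continuous fun t : ℝ => 4 * t - 1 := by fun_prop
          have h6 := h5.tendsto (1 / 2)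
          rw [show (4 : ℝ) * (1 / 2) - 1 = 1 by norm_num] at h6
          exact h6.mono_left nhdsWithin_le_nhds
        · filter_upwards [self_mem_nhdsWithin] with x hx
          rw [mem_Iio]
          linarith [hx.2]
      refine (h₁.comp h4).congr' ?_
      filter_upwards [self_mem_nhdsWithin] with x hx
      exact (e2 x hx.1 hx.2).symm
    · have h3 : ContinuousWithinAt (fun t => φ (pol (4 * t - 1) θ₁)) (Icc (1 / 4) (1 / 2)) t := by
        have h4 : ContinuousAt (fun t : ℝ => pol (4 * t - 1) θ₁) t :=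
          (hp θ₁ _ (by fun_prop)).continuousAt
        have h5 : ContinuousAt φ (pol (4 * t - 1) θ₁) := hφ ⟨by linarith [ht.1], by linarith⟩ θ₁
        exact (ContinuousAt.comp (f := fun t : ℝ => pol (4 * t - 1) θ₁) (g := φ) h5
          h4).continuousWithinAt
      refine h3.congr_of_eventuallyEq ?_ (e2 t ht.1 h0)
      filter_upwards [mem_nhdsWithin_of_mem_nhds (Iio_mem_nhds h0), self_mem_nhdsWithin]
        with x hx hx'
      exact e2 x hx'.1 hx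
  have c3 : ContinuousOn (radLoop φ θ₁ θ₂ A) (Icc (1 / 2) 1) := by
    have h3 : ContinuousOn (fun t : ℝ => A (2 * t - 1)) (Icc (1 / 2) 1) := by
      refine hA.comp (Continuous.continuousOn (by fun_prop)) ?_
      intro x hx
      exact ⟨by linarith [hx.1], by linarith [hx.2]⟩
    exact h3.congr fun x hx => e3 x hx.1
  have c12 := c1.union_of_isClosed c2 isClosed_Icc isClosed_Icc
  rw [Icc_union_Icc_eq_Icc (by norm_num) (by norm_num)] at c12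
  have c123 := c12.union_of_isClosed c3 isClosed_Icc isClosed_Icc
  rwa [Icc_union_Icc_eq_Icc (by norm_num) (by norm_num)] at c123

/-- the open sector -/
def C3_sec (α β : ℝ) : Set ℂ := (fun p : ℝ × ℝ => pol p.1 p.2) '' (Ioo 0 1 ×ˢ Ioo α β)

theorem C3_sec_preconnected (α β : ℝ) : IsPreconnected (C3_sec α β) :=
  (isPreconnected_Ioo.prod isPreconnected_Ioo).image _ C3_continuous_pol.continuousOn

theorem C3_sec_subset (α β : ℝ) : C3_sec α β ⊆ ball (0 : ℂ) 1 := by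
  rintro _ ⟨⟨ρ, θ⟩, ⟨hρ, _⟩, rfl⟩
  exact C3_pol_mem ⟨hρ.1.le, hρ.2⟩ θ

/-- points close to `1 / 2` -/
theorem C3_near (η : ℝ) (hη : 0 < η) : ∃ δ > 0, ∀ s : ℂ, ‖s‖ < δ →
    ‖(1 / 2 : ℂ) + 4 * s‖ ∈ Ioo (0 : ℝ) 1 ∧ |arg ((1 / 2 : ℂ) + 4 * s)| < η ∧
      ((1 / 2 : ℂ) + 4 * s) ≠ 0 := by
  have hs : (1 / 2 : ℂ) + 4 * 0 ∈ slitPlane := by
    rw [mem_slitPlane_iff]
    left
    norm_num
  have h1 : ContinuousAt (fun s : ℂ => arg ((1 / 2 : ℂ) + 4 * s)) 0 :=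
    ContinuousAt.comp (f := fun s : ℂ => (1 / 2 : ℂ) + 4 * s) (g := arg) (continuousAt_arg hs)
      (Continuous.continuousAt (by fun_prop))
  have h2 : ContinuousAt (fun s : ℂ => ‖(1 / 2 : ℂ) + 4 * s‖) 0 :=
    Continuous.continuousAt (by fun_prop)
  have h3 : ∀ᶠ s : ℂ in 𝓝 0, |arg ((1 / 2 : ℂ) + 4 * s)| < η := by
    have h4 := (continuous_abs.tendsto _).comp h1
    refine h4.eventually_lt_const ?_
    change |arg ((1 / 2 : ℂ) + 4 * 0)| < η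
    rw [mul_zero, add_zero, show (1 / 2 : ℂ) = ((1 / 2 : ℝ) : ℂ) by norm_num,
      arg_ofReal_of_nonneg (by norm_num), abs_zero]
    exact hη
  have hv : ‖(1 / 2 : ℂ) + 4 * 0‖ = 1 / 2 := by norm_num
  have h5 : ∀ᶠ s : ℂ in 𝓝 0, ‖(1 / 2 : ℂ) + 4 * s‖ < 1 :=
    h2.eventually_lt_const (show ‖(1 / 2 : ℂ) + 4 * 0‖ < 1 by rw [hv]; norm_num)
  have h6 : ∀ᶠ s : ℂ in 𝓝 0, 0 < ‖(1 / 2 : ℂ) + 4 * s‖ :=
    h2.eventually_const_lt (show 0 < ‖(1 / 2 : ℂ) + 4 * 0‖ by rw [hv]; norm_num)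
  obtain ⟨δ, hδ, h7⟩ := Metric.eventually_nhds_iff_ball.1 (h3.and (h5.and h6))
  refine ⟨δ, hδ, fun s hs' => ?_⟩
  obtain ⟨a, b, c⟩ := h7 s (mem_ball_zero_iff.2 hs')
  exact ⟨⟨c, b⟩, a, norm_pos_iff.1 c⟩

theorem C3_point (θ₁ : ℝ) (s : ℂ) : pol (1 / 2) θ₁ + s * (4 * exp (θ₁ * I)) =
    pol ‖(1 / 2 : ℂ) + 4 * s‖ (θ₁ + arg ((1 / 2 : ℂ) + 4 * s)) := by
  have h1 := norm_mul_exp_arg_mul_I ((1 / 2 : ℂ) + 4 * s)
  rw [pol, pol, ofReal_add, add_mul, Complex.exp_add]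
  calc ((1 / 2 : ℝ) : ℂ) * exp (θ₁ * I) + s * (4 * exp (θ₁ * I))
      = exp (θ₁ * I) * ((1 / 2 : ℂ) + 4 * s) := by
        push_cast
        ring
    _ = exp (θ₁ * I) * (‖(1 / 2 : ℂ) + 4 * s‖ * exp (arg ((1 / 2 : ℂ) + 4 * s) * I)) := by
        rw [h1]
    _ = _ := by ring

/-- PROOF: `crosscut` with `U = ball 0 1`, `t0 = 3/8`, `γ t = pol (4 t - 1) θ₁`, `γ t0 = (1/2) e^{iθ₁}`, `v = 4 e^{iθ₁}`,
`V₁` = the sector of the points `pol ρ θ`, `0 < ρ < 1`, `θ₁ < θ < θ₂`; `V₂` the same with `θ₂ - 2 π < θ < θ₁` (images of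
preconnected sets under the continuous map `pol`). `γ t0 + s v = e^{iθ₁} (1/2 + 4 s)`: for `0 < |s.re| < s.im` small the
argument of `1/2 + 4 s` is positive and small. The curve does not meet `φ '' V₁`, `φ '' V₂` (`hAS`, injectivity of `φ` and of
polar coordinates on `0 < ρ`, angles in an interval of length `2 π`), and it takes the value `φ (pol (1/2) θ₁)` only for
`t = 3/8`. -/
theorem rad_crosscut {φ : ℂ → ℂ} (h : Conf (ball 0 1) φ) {θ₁ θ₂ : ℝ} (h12 : θ₁ < θ₂)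
    (h21 : θ₂ < θ₁ + 2 * Real.pi) {A : ℝ → ℂ} (hA : ContinuousOn A (Icc 0 1))
    (hAS : ∀ t ∈ Icc (0 : ℝ) 1, A t ∉ φ '' ball 0 1) (h₁ : RadLim φ θ₁ (A 0))
    (h₂ : RadLim φ θ₂ (A 1)) {ρ ρ' θ θ' : ℝ} (hρ : ρ ∈ Ioo (0 : ℝ) 1) (hρ' : ρ' ∈ Ioo (0 : ℝ) 1)
    (hθ : θ ∈ Ioo θ₁ θ₂) (hθ' : θ' ∈ Ioo (θ₂ - 2 * Real.pi) θ₁) :
    ¬ SameWind (radLoop φ θ₁ θ₂ A) (φ (pol ρ θ)) (φ (pol ρ' θ')) := by
  have hval : ∀ {s : ℝ} {x : ℂ}, s ∈ Icc (0 : ℝ) 1 → x ∈ ball (0 : ℂ) 1 → A s ≠ φ x :=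
    fun hs hx he => hAS _ hs ⟨_, hx, he.symm⟩
  have hev : ∀ t : ℝ, 1 / 4 < t → t < 1 / 2 →
      radLoop φ θ₁ θ₂ A t = φ (pol (4 * t - 1) θ₁) := by
    intro t a b
    rw [radLoop, if_neg (by linarith), if_neg (by linarith), if_pos b]
  have hC0 : radLoop φ θ₁ θ₂ A (3 / 8) = φ (pol (1 / 2) θ₁) := by
    rw [hev _ (by norm_num) (by norm_num)]
    norm_num
  have hγ0 : pol (4 * (3 / 8) - 1) θ₁ = pol (1 / 2) θ₁ := by norm_num
  have hhalf : (1 / 2 : ℝ) ∈ Ico (0 : ℝ) 1 := ⟨by norm_num, by norm_num⟩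
  -- the curve avoids the images of the two sectors
  have hav : ∀ α β : ℝ, (∀ θ ∈ Ioo α β, ∀ ρ ρ'' : ℝ, 0 < ρ → 0 ≤ ρ'' →
      pol ρ θ ≠ pol ρ'' θ₁ ∧ pol ρ θ ≠ pol ρ'' θ₂) →
      ∀ x ∈ C3_sec α β, ∀ t ∈ Icc (0 : ℝ) 1, radLoop φ θ₁ θ₂ A t ≠ φ x := by
    intro α β hne x hx t ht he
    have hx' := C3_sec_subset α β hx
    obtain ⟨⟨ρ, θ⟩, ⟨hρ, hθ⟩, rfl⟩ := hx
    rcases radLoop_values φ θ₁ θ₂ A ht with ⟨s, hs, h3⟩ | ⟨ρ'', hρ'', h3 | h3⟩
    · exact hval hs hx' (h3.symm.trans he)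
    · exact (hne θ hθ ρ ρ'' hρ.1 hρ''.1).1 (h.inj hx' (C3_pol_mem hρ'' θ₁) (he.symm.trans h3))
    · exact (hne θ hθ ρ ρ'' hρ.1 hρ''.1).2 (h.inj hx' (C3_pol_mem hρ'' θ₂) (he.symm.trans h3))
  have hV₁ := hav θ₁ θ₂ (fun θ hθ ρ ρ'' h3 h4 =>
    ⟨C3_pol_ne h3 h4 hθ.1 (by linarith [hθ.2]), fun he => by
      rcases h4.eq_or_lt with h5 | h5
      · have h6 := congrArg norm he
        rw [C3_norm_pol, C3_norm_pol, ← h5, abs_zero, abs_of_pos h3] at h6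
        exact h3.ne' h6
      · exact C3_pol_ne h5 h3.le hθ.2 (by linarith [hθ.1]) he.symm⟩)
  have hV₂ := hav (θ₂ - 2 * Real.pi) θ₁ (fun θ hθ ρ ρ'' h3 h4 => by
    rcases h4.eq_or_lt with h5 | h5
    · have h6 : ∀ θ'' : ℝ, pol ρ θ ≠ pol ρ'' θ'' := by
        intro θ'' he
        have h6 := congrArg norm he
        rw [C3_norm_pol, C3_norm_pol, ← h5, abs_zero, abs_of_pos h3] at h6
        exact h3.ne' h6
      exact ⟨h6 _, h6 _⟩
    · exact ⟨(C3_pol_ne h5 h3.le hθ.2 (by linarith [hθ.1])).symm,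
        (C3_pol_ne h5 h3.le (by linarith [hθ.2]) (by linarith [hθ.1])).symm⟩)
  refine crosscut h (radLoop_continuousOn h hA h₁ h₂) ?_ (t0 := 3 / 8)
    ⟨by norm_num, by norm_num⟩ (γ := fun t => pol (4 * t - 1) θ₁) ?_
    (v := 4 * exp (θ₁ * I)) ?_ ?_ ?_ ?_
    (C3_sec_preconnected θ₁ θ₂) (C3_sec_preconnected (θ₂ - 2 * Real.pi) θ₁)
    (C3_sec_subset _ _) (C3_sec_subset _ _) hV₁ hV₂ ?_ ?_
    ⟨(ρ, θ), ⟨hρ, hθ⟩, rfl⟩ ⟨(ρ', θ'), ⟨hρ', hθ'⟩, rfl⟩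
  · rw [radLoop, if_pos le_rfl, radLoop, if_neg (by norm_num), if_neg (by norm_num),
      if_neg (by norm_num)]
    norm_num
  · rw [hγ0]
    exact C3_pol_mem hhalf θ₁
  · exact mul_ne_zero (by norm_num) (exp_ne_zero _)
  · have h3 : HasDerivAt (fun t : ℝ => ((4 * t - 1 : ℝ) : ℂ)) ((4 : ℝ) : ℂ) (3 / 8) := by
      apply HasDerivAt.ofReal_comp
      simpa using ((hasDerivAt_id (3 / 8 : ℝ)).const_mul 4).sub_const 1
    have h4 := h3.mul_const (exp (θ₁ * I))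
    simpa [pol] using h4
  · filter_upwards [Ioo_mem_nhds (by norm_num : (1 / 4 : ℝ) < 3 / 8)
      (by norm_num : (3 / 8 : ℝ) < 1 / 2)] with t ht
    exact hev t ht.1 ht.2
  · intro t ht hne he
    rw [hC0] at he
    by_cases h3 : t ≤ 0
    · rw [radLoop, if_pos h3] at he
      exact hval ⟨zero_le_one, le_rfl⟩ (C3_pol_mem hhalf θ₁) he
    · by_cases h4 : t ≤ 1 / 4
      · rw [radLoop, if_neg h3, if_pos h4] at he
        have h5 := h.inj (C3_pol_mem ⟨by linarith, by linarith⟩ θ₂) (C3_pol_mem hhalf θ₁) he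
        rcases (show (0 : ℝ) ≤ 1 - 4 * t by linarith).eq_or_lt with h6 | h6
        · have h7 := congrArg norm h5
          rw [C3_norm_pol, C3_norm_pol, ← h6, abs_zero] at h7
          norm_num at h7
        · exact C3_pol_ne h6 (by norm_num) h12 h21 h5
      · by_cases h5 : t < 1 / 2
        · rw [hev t (by linarith) h5] at he
          have h6 := h.inj (C3_pol_mem ⟨by linarith, by linarith⟩ θ₁) (C3_pol_mem hhalf θ₁) he
          have h7 := congrArg norm h6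
          rw [C3_norm_pol, C3_norm_pol, abs_of_pos (by linarith), abs_of_pos (by norm_num)] at h7
          exact hne (by linarith)
        · rw [radLoop, if_neg h3, if_neg h4, if_neg h5] at he
          exact hval ⟨by linarith, by linarith [ht.2]⟩ (C3_pol_mem hhalf θ₁) he
  · obtain ⟨δ, hδ, h3⟩ := C3_near (θ₂ - θ₁) (by linarith)
    refine ⟨δ, hδ, fun s hs hre => ?_⟩
    obtain ⟨h4, h5, h6⟩ := h3 s hs
    rw [hγ0, C3_point]
    have him : 0 < ((1 / 2 : ℂ) + 4 * s).im := by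
      have h7 : ((1 / 2 : ℂ) + 4 * s).im = 4 * s.im := by simp
      rw [h7]
      have := abs_nonneg s.re
      linarith
    have h7 : 0 < arg ((1 / 2 : ℂ) + 4 * s) := by
      refine lt_of_le_of_ne (arg_nonneg_iff.2 him.le) (fun h8 => ?_)
      exact him.ne' (arg_eq_zero_iff.1 h8.symm).2
    exact ⟨(_, _), ⟨h4, by linarith, by linarith [(abs_lt.1 h5).2]⟩, rfl⟩
  · obtain ⟨δ, hδ, h3⟩ := C3_near (θ₁ + 2 * Real.pi - θ₂) (by linarith)
    refine ⟨δ, hδ, fun s hs hre => ?_⟩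
    obtain ⟨h4, h5, h6⟩ := h3 s hs
    rw [hγ0, C3_point]
    have him : ((1 / 2 : ℂ) + 4 * s).im < 0 := by
      have h7 : ((1 / 2 : ℂ) + 4 * s).im = 4 * s.im := by simp
      rw [h7]
      have := abs_nonneg s.re
      linarith
    have h7 : arg ((1 / 2 : ℂ) + 4 * s) < 0 := arg_neg_iff.2 him
    exact ⟨(_, _), ⟨h4, by linarith [(abs_lt.1 h5).1], by linarith⟩, rfl⟩

end Pool.SiegelArc
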