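import Pool.Agent.Lib.MP_b59c01_an.Tools

/-!
# MP_b59c01_an, row D1
-/

open Complex MeasureTheory Set Filter Topology Metric

namespace Pool.SiegelArc

theorem D1_step (c w : ℂ) (hw : 2 + ‖c‖ < ‖w‖) : ‖w‖ + 1 ≤ ‖fq c w‖ := by
  have h1 : ‖w‖ ^ 2 - ‖c‖ ≤ ‖fq c w‖ := by
    have h := norm_sub_norm_le (w ^ 2) (-c)
    rw [norm_neg, norm_pow, sub_neg_eq_add] at h
    exact h
  have hc := norm_nonneg c
  nlinarith [mul_nonneg hc (norm_nonneg w), sq_nonneg (‖w‖ - 2 - ‖c‖)]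

theorem D1_iter (c w : ℂ) (hw : 2 + ‖c‖ < ‖w‖) (k : ℕ) : ‖w‖ + k ≤ ‖(fq c)^[k] w‖ := by
  induction k with
  | zero => simp
  | succ k ih =>
    rw [Function.iterate_succ_apply']
    have hk : (0 : ℝ) ≤ k := Nat.cast_nonneg k
    have h := D1_step c ((fq c)^[k] w) (by linarith)
    push_cast
    linarith

/-- PROOF: with `R = 2 + ‖c‖`: if `‖z‖ > R` then `‖z ^ 2 + c‖ ≥ 2 ‖z‖ - ‖c‖ ...`, precisely `‖fq c z‖ ≥ ‖z‖ ^ 2 - ‖c‖ ≥
(1 + (‖z‖ - R)) ‖z‖`-type growth, so the orbit is unbounded. -/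
theorem filled_iff (c : ℂ) : filled c = {z | ∀ n : ℕ, ‖(fq c)^[n] z‖ ≤ 2 + ‖c‖} := by
  ext z
  constructor
  · rintro ⟨R, hR⟩ n
    by_contra hlt
    push Not at hlt
    obtain ⟨k, hk⟩ := exists_nat_gt R
    have h1 := D1_iter c _ hlt k
    rw [← Function.iterate_add_apply] at h1
    have h2 := hR (k + n)
    have h3 := norm_nonneg ((fq c)^[n] z)
    linarith
  · intro h
    exact ⟨2 + ‖c‖, h⟩

/-- PROOF: `filled_iff`: closed (intersection of closed conditions) and bounded (`n = 0`). -/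
theorem filled_compact (c : ℂ) : IsCompact (filled c) := by
  rw [filled_iff]
  have hcf : Continuous (fq c) := by
    unfold fq
    fun_prop
  apply Metric.isCompact_of_isClosed_isBounded
  · rw [Set.ofPred_forall]
    exact isClosed_iInter fun n => isClosed_le (hcf.iterate n).norm continuous_const
  · refine (Metric.isBounded_closedBall (x := (0 : ℂ)) (r := 2 + ‖c‖)).subset ?_
    intro z hz
    have := hz 0
    simpa using this

end Pool.SiegelArc
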