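import Pool.Agent.Lib.MP_b59c01_an.D1

/-!
# MP_b59c01_an, row D2
-/

open Complex MeasureTheory Set Filter Topology Metric

namespace Pool.SiegelArc

theorem D2_outer_preconnected (R : ℝ) : IsPreconnected (closedBall (0 : ℂ) R)ᶜ := by
  have h1 : (closedBall (0 : ℂ) R)ᶜ =
      (fun p : ℝ × ℝ => (p.1 : ℂ) * Complex.exp (p.2 * Complex.I)) '' (Ioi R ×ˢ univ) := by
    ext z
    simp only [mem_compl_iff, mem_closedBall, dist_zero_right, not_le, mem_image, mem_prod, mem_Ioi,
      mem_univ, and_true, Prod.exists]
    constructor
    · intro hz
      exact ⟨‖z‖, Complex.arg z, hz, Complex.norm_mul_exp_arg_mul_I z⟩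
    · rintro ⟨r, θ, hr, rfl⟩
      rw [norm_mul, Complex.norm_exp_ofReal_mul_I, mul_one, Complex.norm_real, Real.norm_eq_abs]
      exact lt_of_lt_of_le hr (le_abs_self r)
  rw [h1]
  apply IsPreconnected.image
  · exact isPreconnected_Ioi.prod isPreconnected_univ
  · apply Continuous.continuousOn
    fun_prop

theorem D2_iter_differentiable (c : ℂ) (n : ℕ) : Differentiable ℂ (fun z => (fq c)^[n] z) := by
  induction n with
  | zero => exact differentiable_id
  | succ n ih =>
    have : (fun z => (fq c)^[n + 1] z) = fun z => ((fq c)^[n] z) ^ 2 + c := by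
      funext z
      rw [Function.iterate_succ_apply']
      rfl
    rw [this]
    exact (ih.pow 2).add_const c

/-- PROOF: let `Ω = (filled c)ᶜ`, an open set. Every `z ∈ Ω` is in the connected component (in `Ω`) `W` of some point outside
`closedBall 0 (2 + ‖c‖)`: otherwise `W` (the component of `z`, open: `IsOpen.connectedComponentIn`) is contained in the ball, its
frontier is contained in `filled c` (a frontier point in `Ω` would belong to `W`), so every iterate `(fq c)^[n]` (a polynomial) is
bounded by `2 + ‖c‖` on the frontier and, by the maximum principle on the bounded set `W`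
(`Complex.norm_le_of_forall_mem_frontier_norm_le`), on `W`: so `z ∈ filled c`, a contradiction. The complement of the closed ball
is preconnected and contained in `Ω` (`filled_iff`, `n = 0`), so all these components are equal. -/
theorem filled_compl_preconnected (c : ℂ) : IsPreconnected (filled c)ᶜ := by
  set R : ℝ := 2 + ‖c‖ with hR
  have hR0 : 0 ≤ R := by positivity
  have hO : IsOpen (filled c)ᶜ := (filled_compact c).isClosed.isOpen_compl
  have hsub : (closedBall (0 : ℂ) R)ᶜ ⊆ (filled c)ᶜ := by
    intro z hz hz'
    rw [filled_iff] at hz'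
    apply hz
    have := hz' 0
    simpa using this
  have hpre := D2_outer_preconnected R
  have key : ∀ z ∈ (filled c)ᶜ,
      (connectedComponentIn (filled c)ᶜ z ∩ (closedBall (0 : ℂ) R)ᶜ).Nonempty := by
    intro z hz
    by_contra hne
    rw [not_nonempty_iff_eq_empty] at hne
    set W := connectedComponentIn (filled c)ᶜ z with hW
    have hWball : W ⊆ closedBall (0 : ℂ) R := by
      intro w hw
      by_contra hw'
      have : w ∈ W ∩ (closedBall (0 : ℂ) R)ᶜ := ⟨hw, hw'⟩
      rw [hne] at this
      exact this
    have hWo : IsOpen W := hO.connectedComponentIn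
    have hWb : Bornology.IsBounded W := isBounded_closedBall.subset hWball
    have hzW : z ∈ W := mem_connectedComponentIn hz
    have hfr : frontier W ⊆ filled c := by
      intro w hw
      by_contra hw'
      have hwc : w ∈ (filled c)ᶜ := hw'
      have hwcl : w ∈ closure W := frontier_subset_closure hw
      have hwo : IsOpen (connectedComponentIn (filled c)ᶜ w) := hO.connectedComponentIn
      obtain ⟨u, hu1, hu2⟩ := mem_closure_iff.1 hwcl _ hwo (mem_connectedComponentIn hwc)
      have e1 : connectedComponentIn (filled c)ᶜ w = connectedComponentIn (filled c)ᶜ u :=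
        connectedComponentIn_eq hu1
      have e2 : connectedComponentIn (filled c)ᶜ z = connectedComponentIn (filled c)ᶜ u :=
        connectedComponentIn_eq hu2
      have : w ∈ W := by
        rw [hW, e2, ← e1]
        exact mem_connectedComponentIn hwc
      rw [hWo.frontier_eq] at hw
      exact hw.2 this
    apply hz
    rw [filled_iff]
    intro n
    have hd : DiffContOnCl ℂ (fun z => (fq c)^[n] z) W :=
      (D2_iter_differentiable c n).diffContOnCl
    refine Complex.norm_le_of_forall_mem_frontier_norm_le hWb hd ?_ (subset_closure hzW)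
    intro w hw
    have := hfr hw
    rw [filled_iff] at this
    exact this n
  obtain ⟨x, hx⟩ : ((closedBall (0 : ℂ) R)ᶜ).Nonempty := by
    refine ⟨((R + 1 : ℝ) : ℂ), ?_⟩
    simp only [mem_compl_iff, mem_closedBall, dist_zero_right, not_le, Complex.norm_real,
      Real.norm_eq_abs]
    rw [abs_of_nonneg (by linarith)]
    linarith
  apply isPreconnected_of_forall x
  intro y hy
  refine ⟨(closedBall (0 : ℂ) R)ᶜ ∪ connectedComponentIn (filled c)ᶜ y, ?_, Or.inl hx,
    Or.inr (mem_connectedComponentIn hy), ?_⟩
  · exact union_subset hsub (connectedComponentIn_subset _ _)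
  · obtain ⟨w, hw1, hw2⟩ := key y hy
    exact IsPreconnected.union w hw2 hw1 hpre isPreconnected_connectedComponentIn

end Pool.SiegelArc
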