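import Pool.Agent.Lib.MP_b59c01_an.D2

/-!
# MP_b59c01_an, row D3
-/

open Complex MeasureTheory Set Filter Topology Metric

namespace Pool.SiegelArc

/-- PROOF: `S` is a component of the open set `(julia c)ᶜ`, so it is open (`IsOpen.connectedComponentIn`) and disjoint from
`julia c`; a point `p ∈ closure S` not in `julia c` is in `S` (`S ∪ {p}` is preconnected, `IsPreconnected.subset_closure`, and
contained in `(julia c)ᶜ`; `IsPreconnected.subset_connectedComponentIn`). `S ⊆ filled c`: for `u` in the unit disk the orbit of
`φ u` is `φ (λ ^ n u)`, contained in the compact set `φ '' closedBall 0 ‖u‖`. So `S` is bounded and disjoint from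
`(filled c)ᶜ`. `filled c` is closed (`filled_compact`), so `julia c ⊆ filled c` (disjoint from the complement) and
`julia c = frontier (filled c) ⊆ closure (filled c)ᶜ`. -/
theorem surround_of_siegel {c : ℂ} {α : ℝ} {S : Set ℂ} (h : IsSiegelDisk c α S) :
    Surround S (julia c) (filled c)ᶜ ∧ IsOpen S ∧ Bornology.IsBounded S := by
  obtain ⟨-, ⟨z, hzS, hz⟩, φ, hφ1, hφ2, hφ3, hφ4⟩ := h
  have hJc : IsClosed (julia c) := isClosed_frontier
  have hopen : IsOpen S := by
    rw [← hz]; exact hJc.isOpen_compl.connectedComponentIn
  have hzJ : z ∈ (julia c)ᶜ := by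
    by_contra hcon
    rw [connectedComponentIn_eq_empty hcon] at hz
    rw [← hz] at hzS
    exact hzS
  have hSJ : S ⊆ (julia c)ᶜ := by
    rw [← hz]; exact connectedComponentIn_subset _ _
  have hpre : IsPreconnected S := by
    rw [← hz]; exact isPreconnected_connectedComponentIn
  have hcl : closure S ⊆ S ∪ julia c := by
    intro p hp
    by_cases hpJ : p ∈ julia c
    · exact Or.inr hpJ
    · left
      have h1 : IsPreconnected (insert p S) :=
        hpre.subset_closure (subset_insert p S) (insert_subset hp subset_closure)
      have h2 : insert p S ⊆ (julia c)ᶜ := insert_subset hpJ hSJ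
      have h3 := h1.subset_connectedComponentIn (mem_insert_of_mem p hzS) h2
      rw [hz] at h3
      exact h3 (mem_insert p S)
  have hfilled : S ⊆ filled c := by
    rw [← hφ3]
    rintro _ ⟨u, hu, rfl⟩
    have hu' : ‖u‖ < 1 := by rwa [mem_ball, dist_zero_right] at hu
    set lam : ℂ := Complex.exp (2 * Real.pi * α * Complex.I) with hlam
    have hl : ‖lam‖ = 1 := by
      have := Complex.norm_exp_ofReal_mul_I (2 * Real.pi * α)
      rw [hlam]; push_cast at this; exact this
    have hn : ∀ n : ℕ, (fq c)^[n] (φ u) = φ (lam ^ n * u) ∧ ‖lam ^ n * u‖ = ‖u‖ := by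
      intro n
      induction n with
      | zero => simp
      | succ n ih =>
        constructor
        · rw [Function.iterate_succ_apply', ih.1, hφ4 _ (by rw [mem_ball, dist_zero_right, ih.2]; exact hu')]
          congr 1
          rw [pow_succ]; ring
        · rw [norm_mul, norm_pow, hl, one_pow, one_mul]
    have hcomp : IsCompact (φ '' closedBall 0 ‖u‖) := by
      apply (isCompact_closedBall 0 ‖u‖).image_of_continuousOn
      exact hφ1.continuousOn.mono (closedBall_subset_ball hu')
    obtain ⟨R, hR⟩ := hcomp.isBounded.subset_closedBall 0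
    refine ⟨R, fun n => ?_⟩
    rw [(hn n).1]
    have hm : φ (lam ^ n * u) ∈ φ '' closedBall 0 ‖u‖ :=
      mem_image_of_mem φ (by rw [mem_closedBall, dist_zero_right, (hn n).2])
    have := hR hm
    rwa [mem_closedBall, dist_zero_right] at this
  have hcpt := filled_compact c
  have hJf : julia c ⊆ filled c := by
    intro x hx
    have := frontier_subset_closure hx
    rwa [hcpt.isClosed.closure_eq] at this
  refine ⟨⟨filled_compl_preconnected c, ?_, ?_, ?_, hcl, ?_⟩, hopen, hcpt.isBounded.subset hfilled⟩
  · exact (disjoint_compl_left_iff_subset.2 hJf)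
  · exact (disjoint_compl_left_iff_subset.2 hfilled)
  · exact (disjoint_left.2 fun x hx hxS => hSJ hxS hx)
  · intro x hx
    unfold julia at hx
    rw [frontier_eq_closure_inter_closure] at hx
    exact hx.2

end Pool.SiegelArc
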