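import Mathlib

/-!
# Quadratic Siegel disks: definitions

Definitions used in the result `Pool.Agent.Results.MP_b59c01_an.ArcDichotomy.result`.
-/

open Set Metric Filter Topology

namespace Pool.SiegelArc

/-- The quadratic polynomial `z ^ 2 + c`. -/
def fq (c z : ℂ) : ℂ := z ^ 2 + c

/-- The filled Julia set: the points with bounded orbit. -/
def filled (c : ℂ) : Set ℂ := {z | ∃ R : ℝ, ∀ n : ℕ, ‖(fq c)^[n] z‖ ≤ R}

/-- The Julia set: the boundary of the filled Julia set. -/
def julia (c : ℂ) : Set ℂ := frontier (filled c)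

/-- `φ` is a conformal map of the open unit disk onto `S` which conjugates the rotation by the angle
`2 π α` to the quadratic polynomial. -/
def IsLinearization (c : ℂ) (α : ℝ) (S : Set ℂ) (φ : ℂ → ℂ) : Prop :=
  DifferentiableOn ℂ φ (ball 0 1) ∧ InjOn φ (ball 0 1) ∧ φ '' ball 0 1 = S ∧
    ∀ z ∈ ball (0 : ℂ) 1, fq c (φ z) = φ (Complex.exp (2 * Real.pi * α * Complex.I) * z)

/-- `S` is a Siegel disk of `z ^ 2 + c` with rotation number `α` (irrational): a connected component
of the complement of the Julia set on which the polynomial is conformally conjugate to the rotation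
of the unit disk by the angle `2 π α`. -/
def IsSiegelDisk (c : ℂ) (α : ℝ) (S : Set ℂ) : Prop :=
  Irrational α ∧ (∃ z ∈ S, connectedComponentIn (julia c)ᶜ z = S) ∧ ∃ φ, IsLinearization c α S φ

/-- `A` is an arc: a homeomorphic image of `[0, 1]`. -/
def IsArc (A : Set ℂ) : Prop :=
  ∃ γ : ℝ → ℂ, ContinuousOn γ (Icc 0 1) ∧ InjOn γ (Icc 0 1) ∧ γ '' Icc 0 1 = A

/-- `x` and `y` are the endpoints of an arc (a homeomorphic image of `[0, 1]`) contained in `X`. -/
def ArcJoined (X : Set ℂ) (x y : ℂ) : Prop :=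
  ∃ γ : ℝ → ℂ, ContinuousOn γ (Icc 0 1) ∧ InjOn γ (Icc 0 1) ∧ γ 0 = x ∧ γ 1 = y ∧
    ∀ t ∈ Icc (0 : ℝ) 1, γ t ∈ X

/-- `X` is arcwise connected: any two distinct points of `X` are the endpoints of an arc in `X`. -/
def ArcwiseConnected (X : Set ℂ) : Prop := ∀ x ∈ X, ∀ y ∈ X, x ≠ y → ArcJoined X x y

/-- `X` is a Jordan curve: a homeomorphic image of the circle. -/
def IsJordanCurve (X : Set ℂ) : Prop :=
  ∃ γ : Circle → ℂ, Continuous γ ∧ Function.Injective γ ∧ range γ = X

/-- `x` is a boundary point of `S` accessible from `S`: the end of a path whose other points are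
in `S`. -/
def Accessible (S : Set ℂ) (x : ℂ) : Prop :=
  x ∈ frontier S ∧ ∃ γ : ℝ → ℂ, ContinuousOn γ (Icc 0 1) ∧ γ 1 = x ∧ ∀ t ∈ Ico (0 : ℝ) 1, γ t ∈ S

end Pool.SiegelArc
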