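import Pool.Agent.Lib.MP_b59c01_an.Tools

/-!
# MP_b59c01_an, row E2
-/

open Complex MeasureTheory Set Filter Topology Metric

namespace Pool.SiegelArc

/-- PROOF: if not, there are sequences `s n, t n, u n ∈ uIcc (s n) (t n)` with `‖α (s n) - α (t n)‖ → 0` and
`‖α (u n) - α (s n)‖ > ε`; by compactness pass to limits `s, t`: `α s = α t`, so `s = t`, so `u n → s`, a contradiction. Or: the
inverse of `α : Icc 0 1 → α '' Icc 0 1` is uniformly continuous, and `α` is uniformly continuous. -/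
theorem arc_small {α : ℝ → ℂ} (hc : ContinuousOn α (Icc 0 1)) (hi : InjOn α (Icc 0 1)) {ε : ℝ}
    (hε : 0 < ε) : ∃ δ > 0, ∀ s ∈ Icc (0 : ℝ) 1, ∀ t ∈ Icc (0 : ℝ) 1, ‖α s - α t‖ < δ →
      ∀ u ∈ uIcc s t, ‖α u - α s‖ ≤ ε := by
  classical
  -- a continuous extension
  obtain ⟨β, hβc, hβ⟩ : ∃ β : ℝ → ℂ, Continuous β ∧ ∀ t ∈ Icc (0 : ℝ) 1, β t = α t := by
    refine ⟨Set.IccExtend (zero_le_one' ℝ) ((Icc (0 : ℝ) 1).domRestrict α), ?_, ?_⟩
    · exact hc.domRestrict.Icc_extend'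
    · intro t ht
      rw [Set.IccExtend_of_mem _ _ ht]
      rfl
  set K : Set (ℝ × ℝ × ℝ) := {p | p.1 ∈ Icc (0 : ℝ) 1 ∧ p.2.1 ∈ Icc (0 : ℝ) 1 ∧
    min p.1 p.2.1 ≤ p.2.2 ∧ p.2.2 ≤ max p.1 p.2.1 ∧ ε ≤ ‖β p.2.2 - β p.1‖} with hK
  have hKc : IsCompact K := by
    apply Metric.isCompact_of_isClosed_isBounded
    · have h1 : IsClosed {p : ℝ × ℝ × ℝ | p.1 ∈ Icc (0 : ℝ) 1} :=
        isClosed_Icc.preimage continuous_fst
      have h2 : IsClosed {p : ℝ × ℝ × ℝ | p.2.1 ∈ Icc (0 : ℝ) 1} :=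
        isClosed_Icc.preimage (continuous_fst.comp continuous_snd)
      have h3 : IsClosed {p : ℝ × ℝ × ℝ | min p.1 p.2.1 ≤ p.2.2} :=
        isClosed_le (by fun_prop) (by fun_prop)
      have h4 : IsClosed {p : ℝ × ℝ × ℝ | p.2.2 ≤ max p.1 p.2.1} :=
        isClosed_le (by fun_prop) (by fun_prop)
      have h5 : IsClosed {p : ℝ × ℝ × ℝ | ε ≤ ‖β p.2.2 - β p.1‖} :=
        isClosed_le (by fun_prop) (by fun_prop)
      exact h1.inter (h2.inter (h3.inter (h4.inter h5)))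
    · refine ((isCompact_Icc (a := (0 : ℝ)) (b := 1)).isBounded.prod
        ((isCompact_Icc (a := (0 : ℝ)) (b := 1)).isBounded.prod
          (isCompact_Icc (a := (0 : ℝ)) (b := 1)).isBounded)).subset ?_
      rintro ⟨s, t, u⟩ ⟨hs, ht, h3, h4, _⟩
      refine ⟨hs, ht, ?_, ?_⟩
      · exact (le_min hs.1 ht.1).trans h3
      · exact h4.trans (max_le hs.2 ht.2)
  rcases K.eq_empty_or_nonempty with hKe | hKn
  · refine ⟨1, one_pos, fun s hs t ht _ u hu => ?_⟩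
    by_contra hlt
    push Not at hlt
    have hu' : u ∈ Icc (0 : ℝ) 1 :=
      ⟨(le_min hs.1 ht.1).trans hu.1, hu.2.trans (max_le hs.2 ht.2)⟩
    have : (s, t, u) ∈ K := ⟨hs, ht, hu.1, hu.2, by
      rw [hβ u hu', hβ s hs]; exact hlt.le⟩
    rw [hKe] at this
    exact this
  · obtain ⟨p, hpK, hpm⟩ := hKc.exists_isMinOn (f := fun p : ℝ × ℝ × ℝ => ‖β p.1 - β p.2.1‖) hKn
      (by fun_prop)
    obtain ⟨h1, h2, h3, h4, h5⟩ := hpK
    have hpos : 0 < ‖β p.1 - β p.2.1‖ := by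
      rw [norm_pos_iff, sub_ne_zero]
      intro heq
      rw [hβ _ h1, hβ _ h2] at heq
      have hst : p.1 = p.2.1 := hi h1 h2 heq
      rw [← hst, min_self] at h3
      rw [← hst, max_self] at h4
      have hu : p.2.2 = p.1 := le_antisymm h4 h3
      rw [hu, sub_self, norm_zero] at h5
      linarith
    refine ⟨‖β p.1 - β p.2.1‖, hpos, fun s hs t ht hlt u hu => ?_⟩
    by_contra hgt
    push Not at hgt
    have hu' : u ∈ Icc (0 : ℝ) 1 :=
      ⟨(le_min hs.1 ht.1).trans hu.1, hu.2.trans (max_le hs.2 ht.2)⟩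
    have hmem : (s, t, u) ∈ K := ⟨hs, ht, hu.1, hu.2, by
      rw [hβ u hu', hβ s hs]; exact hgt.le⟩
    have := hpm hmem
    simp only [mem_ofPred_eq] at this
    rw [hβ s hs, hβ t ht] at this
    linarith

end Pool.SiegelArc
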