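import Pool.Agent.Lib.MP_b59c01_an.MTools

/-!
# MP_b59c01_an, row M3
-/

open Complex MeasureTheory Set Filter Topology Metric

namespace Pool.SiegelArc

theorem M3_est {D Ψ : ℂ → ℂ} {s M κ θ θ' : ℝ} (hκ : 0 < κ) (hM : 0 ≤ M)
    (hd : ∀ t ∈ Ioo (0 : ℝ) Real.pi, HasDerivAt Ψ (D (s + t * I)) (s + t * I))
    (hc : ContinuousOn (fun t : ℝ => D (s + t * I)) (Ioo 0 Real.pi))
    (hG : ∫⁻ t in Ioo 0 Real.pi, ENNReal.ofReal (‖D (s + t * I)‖ ^ 2) ≤ ENNReal.ofReal M)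
    (hθ : θ ∈ Ioo (0 : ℝ) Real.pi) (hθ' : θ' ∈ Ioo (0 : ℝ) Real.pi) (hle : θ ≤ θ') :
    ‖Ψ (s + θ' * I) - Ψ (s + θ * I)‖ ≤ κ * M + (θ' - θ) / (4 * κ) := by
  have hsub : uIcc θ θ' ⊆ Ioo 0 Real.pi := by
    rw [uIcc_of_le hle]
    exact fun t ht => ⟨lt_of_lt_of_le hθ.1 ht.1, lt_of_le_of_lt ht.2 hθ'.2⟩
  have hc' : ContinuousOn (fun t : ℝ => D (s + t * I)) (uIcc θ θ') := hc.mono hsub
  have hline : ∀ t : ℝ, HasDerivAt (fun t : ℝ => (s : ℂ) + t * I) I t := by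
    intro t
    have := ((Complex.ofRealCLM.hasDerivAt (x := t)).mul_const I).const_add (s : ℂ)
    simpa using this
  have h1 : ∫ t in θ..θ', D (s + t * I) * I = Ψ (s + θ' * I) - Ψ (s + θ * I) := by
    refine intervalIntegral.integral_eq_sub_of_hasDerivAt
      (f := fun t : ℝ => Ψ (s + t * I)) ?_ (hc'.mul continuousOn_const).intervalIntegrable
    intro t ht
    exact (hd t (hsub ht)).comp t (hline t)
  rw [← h1]
  have h2 : ‖∫ t in θ..θ', D (s + t * I) * I‖ ≤ ∫ t in θ..θ', ‖D (s + t * I)‖ := by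
    refine (intervalIntegral.norm_integral_le_integral_norm hle).trans (le_of_eq ?_)
    refine intervalIntegral.integral_congr fun t _ => ?_
    show ‖D (s + t * I) * I‖ = ‖D (s + t * I)‖
    rw [norm_mul, Complex.norm_I, mul_one]
  have hi2 : IntervalIntegrable (fun t : ℝ => ‖D (s + t * I)‖ ^ 2) volume θ θ' :=
    (hc'.norm.pow 2).intervalIntegrable
  have h3 : ∫ t in θ..θ', ‖D (s + t * I)‖ ≤
      ∫ t in θ..θ', (κ * ‖D (s + t * I)‖ ^ 2 + 1 / (4 * κ)) := by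
    refine intervalIntegral.integral_mono_on hle hc'.norm.intervalIntegrable
      ((hi2.const_mul _).add intervalIntegrable_const) fun t _ => ?_
    have h4 : κ * ‖D (s + t * I)‖ ^ 2 + 1 / (4 * κ) - ‖D (s + t * I)‖ =
        (2 * κ * ‖D (s + t * I)‖ - 1) ^ 2 / (4 * κ) := by
      field_simp
      ring
    have h5 : 0 ≤ (2 * κ * ‖D (s + t * I)‖ - 1) ^ 2 / (4 * κ) := by positivity
    linarith
  have h4 : ∫ t in θ..θ', (κ * ‖D (s + t * I)‖ ^ 2 + 1 / (4 * κ)) =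
      κ * (∫ t in θ..θ', ‖D (s + t * I)‖ ^ 2) + (θ' - θ) * (1 / (4 * κ)) := by
    rw [intervalIntegral.integral_add (hi2.const_mul _) intervalIntegrable_const,
      intervalIntegral.integral_const_mul, intervalIntegral.integral_const, smul_eq_mul]
  have h5 : ∫ t in θ..θ', ‖D (s + t * I)‖ ^ 2 ≤ M := by
    rw [intervalIntegral.integral_of_le hle]
    have h6 : ENNReal.ofReal (∫ t in Ioc θ θ', ‖D (s + t * I)‖ ^ 2) =
        ∫⁻ t in Ioc θ θ', ENNReal.ofReal (‖D (s + t * I)‖ ^ 2) := by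
      refine ofReal_integral_eq_lintegral_ofReal ?_ (Eventually.of_forall fun t => by positivity)
      exact (intervalIntegrable_iff_integrableOn_Ioc_of_le hle).mp hi2
    have h7 : ∫⁻ t in Ioc θ θ', ENNReal.ofReal (‖D (s + t * I)‖ ^ 2) ≤
        ∫⁻ t in Ioo 0 Real.pi, ENNReal.ofReal (‖D (s + t * I)‖ ^ 2) :=
      lintegral_mono_set fun t ht => ⟨lt_trans hθ.1 ht.1, lt_of_le_of_lt ht.2 hθ'.2⟩
    rw [← h6] at h7
    exact (ENNReal.ofReal_le_ofReal_iff hM).mp (h7.trans hG)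
  have h6 : κ * (∫ t in θ..θ', ‖D (s + t * I)‖ ^ 2) ≤ κ * M :=
    mul_le_mul_of_nonneg_left h5 hκ.le
  have h7 : (θ' - θ) * (1 / (4 * κ)) = (θ' - θ) / (4 * κ) := by ring
  linarith

/-- the estimate `M3_est` gives closeness for close angles -/
theorem M3_close {g : ℝ → ℂ} {M : ℝ} (hM : 0 ≤ M)
    (h : ∀ κ : ℝ, 0 < κ → ∀ θ ∈ Ioo (0 : ℝ) Real.pi, ∀ θ' ∈ Ioo (0 : ℝ) Real.pi, θ ≤ θ' →
      ‖g θ' - g θ‖ ≤ κ * M + (θ' - θ) / (4 * κ)) {ε : ℝ} (hε : 0 < ε) :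
    ∃ w : ℝ, 0 < w ∧ ∀ θ ∈ Ioo (0 : ℝ) Real.pi, ∀ θ' ∈ Ioo (0 : ℝ) Real.pi, |θ - θ'| < w →
      dist (g θ) (g θ') < ε := by
  have hM1 : 0 < M + 1 := by linarith
  obtain ⟨κ, hκ⟩ : ∃ κ : ℝ, κ = ε / (2 * (M + 1)) := ⟨_, rfl⟩
  have hκ0 : 0 < κ := by rw [hκ]; positivity
  have hκM : κ * M ≤ ε / 2 := by
    have h1 : κ * (M + 1) = ε / 2 := by
      rw [hκ]
      field_simp
    nlinarith
  refine ⟨ε * κ, mul_pos hε hκ0, ?_⟩
  have key : ∀ θ ∈ Ioo (0 : ℝ) Real.pi, ∀ θ' ∈ Ioo (0 : ℝ) Real.pi, θ ≤ θ' → θ' - θ < ε * κ →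
      ‖g θ' - g θ‖ < ε := by
    intro θ hθ θ' hθ' hle hlt
    refine lt_of_le_of_lt (h κ hκ0 θ hθ θ' hθ' hle) ?_
    have h2 : (θ' - θ) / (4 * κ) ≤ ε / 4 := by
      rw [div_le_iff₀ (by positivity)]
      nlinarith
    linarith
  intro θ hθ θ' hθ' habs
  rw [abs_lt] at habs
  rcases le_total θ θ' with hle | hle
  · rw [dist_comm, dist_eq_norm]
    exact key θ hθ θ' hθ' hle (by linarith)
  · rw [dist_eq_norm]
    exact key θ' hθ' θ hθ hle (by linarith)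

theorem M3_limit {g : ℝ → ℂ} {l : Filter ℝ} [NeBot l]
    (h : ∀ ε : ℝ, 0 < ε → ∃ s ∈ l, ∀ θ ∈ s, ∀ θ' ∈ s, dist (g θ) (g θ') < ε) :
    ∃ e : ℂ, Tendsto g l (𝓝 e) := by
  rw [← cauchy_map_iff_exists_tendsto, Metric.cauchy_iff]
  refine ⟨inferInstance, fun ε hε => ?_⟩
  obtain ⟨s, hs, h1⟩ := h ε hε
  refine ⟨g '' s, image_mem_map hs, ?_⟩
  rintro _ ⟨a, ha, rfl⟩ _ ⟨b, hb, rfl⟩
  exact h1 a ha b hb

/-- PROOF: copy the proof of `short_semicircle` in `/team-store/cf6de_D1e.lean` (with `x = 0`): it gives `0 < r < δ` with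
`‖ψ u - ψ u'‖ ≤ ε` for all `u, u'` in the upper half plane with norm `r`. Here `ψ` is injective on all of `UH` and has bounded
image, so everything is simpler. The limits at the two ends exist because `∫ t in (0, π), ‖D (s + t I)‖ dt < ∞` (from
`∫⁻ ‖D‖² ≤ ...`), so that the curve is Cauchy at both ends: apply `d1e_arc`-type estimates on small end pieces
(`‖Ψ (s + θ' I) - Ψ (s + θ I)‖ ≤ ∫ t in θ..θ', ‖D (s + t I)‖`, absolutely convergent integral). -/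
theorem short_crosscut {ψ : ℂ → ℂ} (h : Conf UH ψ) (hb : Bornology.IsBounded (ψ '' UH)) {ε δ : ℝ}
    (hε : 0 < ε) (hδ : 0 < δ) :
    ∃ r : ℝ, 0 < r ∧ r < δ ∧ ∃ e₁ e₂ : ℂ,
      Tendsto (fun θ : ℝ => ψ (pol r θ)) (𝓝[>] 0) (𝓝 e₁) ∧
      Tendsto (fun θ : ℝ => ψ (pol r θ)) (𝓝[<] Real.pi) (𝓝 e₂) ∧
      ∀ θ ∈ Ioo 0 Real.pi, ‖ψ (pol r θ) - e₁‖ ≤ ε := by
  have hπ := Real.pi_pos
  obtain ⟨S, hS⟩ : ∃ S : Set ℂ, S = {ζ : ℂ | ζ.re < Real.log δ ∧ 0 < ζ.im ∧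
    ζ.im < Real.pi} := ⟨_, rfl⟩
  have hSmem : ∀ ζ, ζ ∈ S ↔ ζ.re < Real.log δ ∧ 0 < ζ.im ∧ ζ.im < Real.pi := by
    intro ζ
    rw [hS]
    rfl
  have hSo : IsOpen S := by
    rw [hS]
    exact (isOpen_lt Complex.continuous_re continuous_const).inter
      ((isOpen_lt continuous_const Complex.continuous_im).inter
        (isOpen_lt Complex.continuous_im continuous_const))
  have hpt : ∀ ζ ∈ S, exp ζ ∈ UH := by
    intro ζ hζ
    obtain ⟨h1, h2, h3⟩ := (hSmem ζ).mp hζ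
    show 0 < (exp ζ).im
    rw [Complex.exp_im]
    exact mul_pos (Real.exp_pos _) (Real.sin_pos_of_pos_of_lt_pi h2 h3)
  obtain ⟨Ψ, hΨ⟩ : ∃ Ψ : ℂ → ℂ, Ψ = fun ζ => ψ (exp ζ) := ⟨_, rfl⟩
  have hΨd : DifferentiableOn ℂ Ψ S := by
    rw [hΨ]
    intro ζ hζ
    have h1 : DifferentiableAt ℂ ψ (exp ζ) :=
      h.diff.differentiableAt (h.opn.mem_nhds (hpt ζ hζ))
    exact (h1.comp ζ Complex.differentiableAt_exp).differentiableWithinAt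
  have hΨi : InjOn Ψ S := by
    intro ζ hζ ζ' hζ' he
    rw [hΨ] at he
    have h1 : exp ζ = exp ζ' := h.inj (hpt ζ hζ) (hpt ζ' hζ') he
    obtain ⟨_, c2, c3⟩ := (hSmem ζ).mp hζ
    obtain ⟨_, d2, d3⟩ := (hSmem ζ').mp hζ'
    exact Complex.exp_inj_of_neg_pi_lt_of_le_pi (by linarith) c3.le (by linarith) d3.le h1
  have hΨD : ∀ ζ ∈ S, HasDerivAt Ψ (deriv Ψ ζ) ζ := fun ζ hζ =>
    (hΨd.differentiableAt (hSo.mem_nhds hζ)).hasDerivAt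
  have harea : ∫⁻ ζ in S, ENNReal.ofReal (‖deriv Ψ ζ‖ ^ 2) = volume (Ψ '' S) := by
    rw [← lintegral_abs_det_fderiv_eq_addHaar_image volume hSo.measurableSet
      (f' := fun ζ => (ContinuousLinearMap.toSpanSingleton ℂ (deriv Ψ ζ)).restrictScalars ℝ)
      (fun ζ hζ => ((hΨD ζ hζ).hasFDerivAt.restrictScalars ℝ).hasFDerivWithinAt) hΨi]
    refine lintegral_congr fun ζ => ?_
    rw [d1e_det]
  have hfin : ∫⁻ ζ in S, ENNReal.ofReal (‖deriv Ψ ζ‖ ^ 2) < ⊤ := by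
    rw [harea]
    refine lt_of_le_of_lt (measure_mono ?_) hb.measure_lt_top
    rintro _ ⟨ζ, hζ, rfl⟩
    rw [hΨ]
    exact mem_image_of_mem ψ (hpt ζ hζ)
  have hmeas : Measurable (fun ζ : ℂ => ENNReal.ofReal (‖deriv Ψ ζ‖ ^ 2)) :=
    ((measurable_deriv Ψ).norm.pow_const 2).ennreal_ofReal
  rw [hS, d1e_fubini _ hmeas] at hfin
  have hε' : ENNReal.ofReal (ε ^ 2 / Real.pi) ≠ 0 := by
    rw [Ne, ENNReal.ofReal_eq_zero, not_le]
    positivity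
  obtain ⟨s, hs, hG⟩ := d1e_small hfin hε'
  have hSline : ∀ t ∈ Ioo (0 : ℝ) Real.pi, (s + t * I : ℂ) ∈ S := by
    intro t ht
    rw [hSmem]
    simp only [Complex.add_re, Complex.ofReal_re, Complex.mul_re, Complex.I_re, mul_zero,
      Complex.ofReal_im, Complex.I_im, mul_one, sub_self, add_zero, Complex.add_im,
      Complex.mul_im, zero_add]
    exact ⟨hs, ht.1, ht.2⟩
  have hcD : ContinuousOn (fun t : ℝ => deriv Ψ (s + t * I)) (Ioo 0 Real.pi) :=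
    (hΨd.deriv hSo).continuousOn.comp (by fun_prop) hSline
  have hd' : ∀ t ∈ Ioo (0 : ℝ) Real.pi, HasDerivAt Ψ (deriv Ψ (s + t * I)) (s + t * I) :=
    fun t ht => hΨD _ (hSline t ht)
  have hpol : ∀ θ : ℝ, ψ (pol (Real.exp s) θ) = Ψ (s + θ * I) := by
    intro θ
    rw [hΨ]
    show ψ (pol (Real.exp s) θ) = ψ (exp (s + θ * I))
    rw [pol, Complex.exp_add, Complex.ofReal_exp]
  have hM : 0 ≤ ε ^ 2 / Real.pi := by positivity
  have hest : ∀ κ : ℝ, 0 < κ → ∀ θ ∈ Ioo (0 : ℝ) Real.pi, ∀ θ' ∈ Ioo (0 : ℝ) Real.pi, θ ≤ θ' →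
      ‖ψ (pol (Real.exp s) θ') - ψ (pol (Real.exp s) θ)‖ ≤
        κ * (ε ^ 2 / Real.pi) + (θ' - θ) / (4 * κ) := by
    intro κ hκ θ hθ θ' hθ' hle
    rw [hpol, hpol]
    exact M3_est hκ hM hd' hcD hG hθ hθ' hle
  have hclose := fun (η : ℝ) (hη : 0 < η) =>
    M3_close (g := fun θ : ℝ => ψ (pol (Real.exp s) θ)) hM hest hη
  obtain ⟨e₁, he₁⟩ : ∃ e₁ : ℂ, Tendsto (fun θ : ℝ => ψ (pol (Real.exp s) θ)) (𝓝[>] 0) (𝓝 e₁) := by
    refine M3_limit fun η hη => ?_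
    obtain ⟨w, hw, h1⟩ := hclose η hη
    refine ⟨Ioo 0 (min Real.pi w), Ioo_mem_nhdsGT (lt_min hπ hw), ?_⟩
    intro θ hθ θ' hθ'
    refine h1 θ ⟨hθ.1, hθ.2.trans_le (min_le_left _ _)⟩ θ' ⟨hθ'.1, hθ'.2.trans_le (min_le_left _ _)⟩ ?_
    have a1 := hθ.2.trans_le (min_le_right _ _)
    have a2 := hθ'.2.trans_le (min_le_right _ _)
    rw [abs_lt]
    constructor <;> linarith [hθ.1, hθ'.1]
  obtain ⟨e₂, he₂⟩ : ∃ e₂ : ℂ,
      Tendsto (fun θ : ℝ => ψ (pol (Real.exp s) θ)) (𝓝[<] Real.pi) (𝓝 e₂) := by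
    refine M3_limit fun η hη => ?_
    obtain ⟨w, hw, h1⟩ := hclose η hη
    refine ⟨Ioo (max 0 (Real.pi - w)) Real.pi, Ioo_mem_nhdsLT (max_lt hπ (by linarith)), ?_⟩
    intro θ hθ θ' hθ'
    refine h1 θ ⟨(le_max_left _ _).trans_lt hθ.1, hθ.2⟩ θ' ⟨(le_max_left _ _).trans_lt hθ'.1, hθ'.2⟩ ?_
    have a1 := (le_max_right _ _).trans_lt hθ.1
    have a2 := (le_max_right _ _).trans_lt hθ'.1
    rw [abs_lt]
    constructor <;> linarith [hθ.2, hθ'.2]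
  refine ⟨Real.exp s, Real.exp_pos _, ?_, e₁, e₂, he₁, he₂, ?_⟩
  · rwa [Real.lt_log_iff_exp_lt hδ] at hs
  · intro θ hθ
    have h1 : Tendsto (fun θ' : ℝ => ‖ψ (pol (Real.exp s) θ) - ψ (pol (Real.exp s) θ')‖) (𝓝[>] 0)
        (𝓝 ‖ψ (pol (Real.exp s) θ) - e₁‖) := (tendsto_const_nhds.sub he₁).norm
    refine le_of_tendsto h1 ?_
    filter_upwards [Ioo_mem_nhdsGT hθ.1] with θ' hθ'
    rw [hpol, hpol]
    exact d1e_arc hε hd' hcD hG ⟨hθ'.1, hθ'.2.trans hθ.2⟩ hθ hθ'.2.le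

end Pool.SiegelArc
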