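import Pool.Agent.Lib.MP_b59c01_an.Tools

/-!
# MP_b59c01_an, row W4
-/

open Complex MeasureTheory Set Filter Topology Metric

namespace Pool.SiegelArc

theorem W4_preconnected {p : ℂ} {ρ : ℝ} (hρ : 0 ≤ ρ) :
    IsPreconnected ((closedBall p ρ)ᶜ : Set ℂ) := by
  have h1 : IsPreconnected (Ioi ρ ×ˢ (univ : Set ℝ)) := isPreconnected_Ioi.prod isPreconnected_univ
  have h2 : Continuous (fun x : ℝ × ℝ => p + (x.1 : ℂ) * exp ((x.2 : ℂ) * I)) := by fun_prop
  have h3 := h1.image (fun x : ℝ × ℝ => p + (x.1 : ℂ) * exp ((x.2 : ℂ) * I)) h2.continuousOn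
  convert h3 using 1
  ext z
  simp only [mem_compl_iff, mem_closedBall, dist_eq_norm, not_le, mem_image, mem_prod, mem_Ioi,
    mem_univ, and_true, Prod.exists]
  constructor
  · intro h
    refine ⟨‖z - p‖, arg (z - p), h, ?_⟩
    rw [norm_mul_exp_arg_mul_I]
    ring
  · rintro ⟨r, θ, hr, rfl⟩
    rw [add_sub_cancel_left, norm_mul, norm_exp_ofReal_mul_I, mul_one, norm_real,
      Real.norm_of_nonneg (hρ.trans hr.le)]
    exact hr

/-- PROOF: `sameWind_of_preconnected` with `X = (closedBall p ρ)ᶜ`. This set is preconnected: if `ρ < 0` it is everything;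
otherwise use a Mathlib lemma on complements of (closed) balls in real dimension at least two if there is one, or: it is
the image of the preconnected set `Ioi ρ ×ˢ univ` under `(r, θ) ↦ p + r * exp (θ * I)` (polar coordinates:
`Complex.norm_mul_exp_arg_mul_I`). -/
theorem sameWind_outside {C : ℝ → ℂ} (hC : ContinuousOn C (Icc 0 1)) (h01 : C 0 = C 1) {p : ℂ}
    {ρ : ℝ} (hb : ∀ t ∈ Icc (0 : ℝ) 1, C t ∈ closedBall p ρ) {a b : ℂ} (ha : a ∉ closedBall p ρ)
    (hb' : b ∉ closedBall p ρ) : SameWind C a b := by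
  have hρ : 0 ≤ ρ := by
    have h := hb 0 ⟨le_rfl, zero_le_one⟩
    rw [mem_closedBall] at h
    exact dist_nonneg.trans h
  exact sameWind_of_preconnected hC h01 (W4_preconnected hρ) (fun t ht h => h (hb t ht)) ha hb'

end Pool.SiegelArc
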