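import Pool.Agent.Lib.MP_b59c01_an.C2
import Pool.Agent.Lib.MP_b59c01_an.W4
import Pool.Agent.Lib.MP_b59c01_an.M3
import Pool.Agent.Lib.MP_b59c01_an.E2

/-!
# MP_b59c01_an, row E3
-/

open Complex MeasureTheory Set Filter Topology Metric

namespace Pool.SiegelArc

theorem E3_pol_cont (r : ℝ) : Continuous (fun θ : ℝ => pol r θ) := by
  unfold pol
  fun_prop

theorem E3_pol_mem {r θ : ℝ} (hr : 0 < r) (hθ : θ ∈ Ioo 0 Real.pi) : pol r θ ∈ UH := by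
  have h1 : (pol r θ).im = r * Real.sin θ := by
    unfold pol
    rw [Complex.im_ofReal_mul, Complex.exp_ofReal_mul_I_im]
  have h2 : 0 < (pol r θ).im := by
    rw [h1]
    exact mul_pos hr (Real.sin_pos_of_mem_Ioo hθ)
  exact h2

theorem E3_pol_zero (r : ℝ) : pol r 0 = ((r : ℝ) : ℂ) := by
  simp [pol]

theorem E3_pol_pi (r : ℝ) : pol r Real.pi = ((-r : ℝ) : ℂ) := by
  simp [pol, Complex.exp_pi_mul_I]

theorem E3_tendsto_right {r : ℝ} (hr : 0 < r) :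
    Tendsto (fun θ : ℝ => pol r θ) (𝓝[>] 0) (𝓝[UH] ((r : ℝ) : ℂ)) := by
  refine tendsto_nhdsWithin_iff.mpr ⟨?_, ?_⟩
  · have h1 := (E3_pol_cont r).tendsto 0
    simp only [E3_pol_zero] at h1
    exact h1.mono_left nhdsWithin_le_nhds
  · filter_upwards [Ioo_mem_nhdsGT Real.pi_pos] with θ hθ
    exact E3_pol_mem hr hθ

theorem E3_tendsto_left {r : ℝ} (hr : 0 < r) :
    Tendsto (fun θ : ℝ => pol r θ) (𝓝[<] Real.pi) (𝓝[UH] ((-r : ℝ) : ℂ)) := by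
  refine tendsto_nhdsWithin_iff.mpr ⟨?_, ?_⟩
  · have h1 := (E3_pol_cont r).tendsto Real.pi
    simp only [E3_pol_pi] at h1
    exact h1.mono_left nhdsWithin_le_nhds
  · filter_upwards [Ioo_mem_nhdsLT Real.pi_pos] with θ hθ
    exact E3_pol_mem hr hθ

theorem E3_neBot : (𝓝[UH] (0 : ℂ)).NeBot := by
  refine mem_closure_iff_nhdsWithin_neBot.mp ?_
  refine Metric.mem_closure_iff.mpr fun ε hε => ⟨((ε / 2 : ℝ) : ℂ) * I, ?_, ?_⟩
  · show 0 < (((ε / 2 : ℝ) : ℂ) * I).im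
    rw [Complex.im_ofReal_mul]
    simp only [Complex.I_im, mul_one]
    linarith
  · rw [dist_zero_left, norm_mul, Complex.norm_real, Complex.norm_I, mul_one, Real.norm_eq_abs,
      abs_of_pos (by linarith)]
    linarith

theorem E3_key {ψ : ℂ → ℂ} (h : Conf UH ψ) (hb : Bornology.IsBounded (ψ '' UH)) {α : ℝ → ℂ}
    (hc : ContinuousOn α (Icc 0 1)) (hi : InjOn α (Icc 0 1))
    (hdis : ∀ t ∈ Icc (0 : ℝ) 1, α t ∉ ψ '' UH) {s : ℝ} (hs : 0 < s)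
    (hcl : ∀ x : ℝ, |x| < s → ∀ p, MapClusterPt p (𝓝[UH] (x : ℂ)) ψ → p ∈ α '' Icc 0 1)
    {ε : ℝ} (hε : 0 < ε) (hεd : ∀ t ∈ Icc (0 : ℝ) 1, ε < dist (ψ I) (α t)) :
    ∃ r : ℝ, 0 < r ∧ ∃ e : ℂ, ∀ w ∈ UH, ‖w‖ < r → ‖ψ w - e‖ ≤ ε := by
  obtain ⟨δ, hδ, hsmall⟩ := arc_small hc hi (half_pos hε)
  have hη : 0 < min (ε / 2) (δ / 2) := lt_min (half_pos hε) (half_pos hδ)
  obtain ⟨r, hr, hrs, e₁, e₂, h₁, h₂, hθ⟩ := short_crosscut h hb hη (lt_min hs one_pos)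
  have hr1 : r < 1 := hrs.trans_le (min_le_right _ _)
  have hrs' : r < s := hrs.trans_le (min_le_left _ _)
  have hcl₁ : e₁ ∈ α '' Icc 0 1 := by
    refine hcl r (by rwa [abs_of_pos hr]) e₁ ?_
    exact MapClusterPt.of_comp (E3_tendsto_right hr) (h₁.mapClusterPt)
  have hcl₂ : e₂ ∈ α '' Icc 0 1 := by
    refine hcl (-r) (by rwa [abs_neg, abs_of_pos hr]) e₂ ?_
    exact MapClusterPt.of_comp (E3_tendsto_left hr) (h₂.mapClusterPt)
  obtain ⟨s₁, hs₁, rfl⟩ := hcl₁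
  obtain ⟨s₂, hs₂, rfl⟩ := hcl₂
  have hd21 : ‖α s₂ - α s₁‖ ≤ min (ε / 2) (δ / 2) := by
    refine le_of_tendsto ((h₂.sub_const (α s₁)).norm) ?_
    filter_upwards [Ioo_mem_nhdsLT Real.pi_pos] with θ hθ'
    exact hθ θ hθ'
  have hd12 : ‖α s₁ - α s₂‖ < δ := by
    rw [norm_sub_rev]
    have := min_le_right (ε / 2) (δ / 2)
    linarith
  have hbr : ∀ t ∈ Icc (0 : ℝ) 1, s₂ + t * (s₁ - s₂) ∈ uIcc s₁ s₂ := by
    intro t ht
    have hconv : Convex ℝ (uIcc s₁ s₂) := convex_uIcc s₁ s₂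
    have h3 := hconv (right_mem_uIcc) (left_mem_uIcc) (sub_nonneg.mpr ht.2) ht.1
      (by ring : (1 - t) + t = 1)
    have h4 : (1 - t) • s₂ + t • s₁ = s₂ + t * (s₁ - s₂) := by
      simp only [smul_eq_mul]
      ring
    rwa [h4] at h3
  have hsub : uIcc s₁ s₂ ⊆ Icc (0 : ℝ) 1 := by
    intro u hu
    rcases mem_uIcc.mp hu with hu | hu
    · exact ⟨hs₁.1.trans hu.1, hu.2.trans hs₂.2⟩
    · exact ⟨hs₂.1.trans hu.1, hu.2.trans hs₁.2⟩
  have hA : ContinuousOn (fun t : ℝ => α (s₂ + t * (s₁ - s₂))) (Icc 0 1) := by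
    refine hc.comp (by fun_prop) ?_
    intro t ht
    exact hsub (hbr t ht)
  have hA0 : (fun t : ℝ => α (s₂ + t * (s₁ - s₂))) 0 = α s₂ := by simp
  have hA1 : (fun t : ℝ => α (s₂ + t * (s₁ - s₂))) 1 = α s₁ := by simp
  have hAS : ∀ t ∈ Icc (0 : ℝ) 1, (fun t : ℝ => α (s₂ + t * (s₁ - s₂))) t ∉ ψ '' UH := by
    intro t ht
    exact hdis _ (hsub (hbr t ht))
  have hAn : ∀ t ∈ Icc (0 : ℝ) 1, ‖(fun t : ℝ => α (s₂ + t * (s₁ - s₂))) t - α s₁‖ ≤ ε / 2 := by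
    intro t ht
    exact hsmall s₁ hs₁ s₂ hs₂ hd12 _ (hbr t ht)
  rw [← hA1] at h₁
  rw [← hA0] at h₂
  have hcont := semiLoop_continuousOn h hr hA h₁ h₂
  have h01 : semiLoop ψ r (fun t : ℝ => α (s₂ + t * (s₁ - s₂))) 0 =
      semiLoop ψ r (fun t : ℝ => α (s₂ + t * (s₁ - s₂))) 1 := by
    unfold semiLoop
    norm_num
  have hball : ∀ t ∈ Icc (0 : ℝ) 1, semiLoop ψ r (fun t : ℝ => α (s₂ + t * (s₁ - s₂))) t ∈
      closedBall (α s₁) (ε / 2) := by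
    intro t ht
    rw [mem_closedBall, dist_eq_norm]
    rcases semiLoop_values ψ r (fun t : ℝ => α (s₂ + t * (s₁ - s₂))) ht with
      ⟨u, hu, hu'⟩ | ⟨θ, hθ', hu'⟩
    · rw [hu']
      exact hAn u hu
    · rw [hu']
      exact (hθ θ hθ').trans (min_le_left _ _)
  have hI : ψ I ∉ closedBall (α s₁) (ε / 2) := by
    rw [mem_closedBall, not_le]
    have := hεd s₁ hs₁
    linarith
  refine ⟨r, hr, α s₁, ?_⟩
  intro w hw hwr
  by_contra hcon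
  have hwb : ψ w ∉ closedBall (α s₁) (ε / 2) := by
    rw [mem_closedBall, dist_eq_norm, not_le]
    rw [not_le] at hcon
    linarith
  have hsame := sameWind_outside hcont h01 hball hwb hI
  refine semi_crosscut h hr hA hAS h₁ h₂ hw ?_ hwr ?_ hsame
  · show 0 < (I : ℂ).im
    simp
  · rw [Complex.norm_I]
    exact hr1

/-- PROOF: the arc is compact and disjoint from `ψ '' UH ∋ ψ I`: let `d > 0` with `‖ψ I - α t‖ ≥ d` for all `t`. It is enough to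
find, for each `0 < ε < d`, some `r > 0` and `e` with `‖ψ w - e‖ ≤ ε` for all `w ∈ UH`, `‖w‖ < r` (then the map of the
neighbourhood filter `𝓝[UH] 0`, which is `NeBot`, is Cauchy: `cauchy_map_iff_exists_tendsto`, `Metric.cauchy_iff`).
Let `δ` be as in `arc_small` for `ε / 2`, `η = min (ε / 2) (δ / 2)`, and `r < min s 1`, `e₁`, `e₂` as in `short_crosscut` for `η`.
`e₁` is a cluster value of `ψ` at `r` and `e₂` at `-r` (`pol r θ → r` in `UH` as `θ → 0+`, `pol r θ → -r` as `θ → π-`), so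
`e₁ = α s₁`, `e₂ = α s₂`, and `‖e₂ - e₁‖ ≤ η < δ` (limit). Put `A t = α (s₂ + t (s₁ - s₂))`: `A 0 = e₂`, `A 1 = e₁`, and
`‖A t - e₁‖ ≤ ε / 2` (`arc_small`). So `semiLoop ψ r A` is in `closedBall e₁ (ε / 2)` (`semiLoop_values`). `ψ I` is not in this
ball, `r < 1 = ‖I‖`. If `w ∈ UH`, `‖w‖ < r` and `ψ w` is not in the ball, then `sameWind_outside` contradicts
`semi_crosscut`. -/
theorem extend_half {ψ : ℂ → ℂ} (h : Conf UH ψ) (hb : Bornology.IsBounded (ψ '' UH)) {α : ℝ → ℂ}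
    (hc : ContinuousOn α (Icc 0 1)) (hi : InjOn α (Icc 0 1))
    (hdis : ∀ t ∈ Icc (0 : ℝ) 1, α t ∉ ψ '' UH) {s : ℝ} (hs : 0 < s)
    (hcl : ∀ x : ℝ, |x| < s → ∀ p, MapClusterPt p (𝓝[UH] (x : ℂ)) ψ → p ∈ α '' Icc 0 1) :
    ∃ p, Tendsto ψ (𝓝[UH] 0) (𝓝 p) := by
  have hne := E3_neBot
  have hcomp : IsCompact (α '' Icc 0 1) := isCompact_Icc.image_of_continuousOn hc
  have hne' : (α '' Icc (0 : ℝ) 1).Nonempty := ⟨α 0, 0, by simp, rfl⟩
  have hnot : ψ I ∉ α '' Icc 0 1 := by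
    rintro ⟨t, ht, hte⟩
    refine hdis t ht ⟨I, ?_, hte.symm⟩
    show 0 < (I : ℂ).im
    simp
  have hd : 0 < infDist (ψ I) (α '' Icc 0 1) :=
    (hcomp.isClosed.notMem_iff_infDist_pos hne').mp hnot
  rw [← cauchy_map_iff_exists_tendsto, Metric.cauchy_iff]
  refine ⟨hne.map ψ, ?_⟩
  intro ε hε
  have hε' : 0 < min (ε / 3) (infDist (ψ I) (α '' Icc 0 1) / 2) :=
    lt_min (by linarith) (by linarith)
  obtain ⟨r, hr, e, he⟩ := E3_key h hb hc hi hdis hs hcl hε' (by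
    intro t ht
    have h1 := min_le_right (ε / 3) (infDist (ψ I) (α '' Icc 0 1) / 2)
    have h2 : infDist (ψ I) (α '' Icc 0 1) ≤ dist (ψ I) (α t) :=
      infDist_le_dist_of_mem ⟨t, ht, rfl⟩
    linarith)
  refine ⟨ψ '' (UH ∩ ball 0 r), ?_, ?_⟩
  · refine image_mem_map ?_
    rw [inter_comm]
    exact inter_mem (mem_nhdsWithin_of_mem_nhds (ball_mem_nhds 0 hr)) self_mem_nhdsWithin
  · rintro _ ⟨w, hw, rfl⟩ _ ⟨w', hw', rfl⟩
    have h1 := he w hw.1 (by simpa using hw.2)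
    have h2 := he w' hw'.1 (by simpa using hw'.2)
    have h3 := min_le_left (ε / 3) (infDist (ψ I) (α '' Icc 0 1) / 2)
    have h4 : dist (ψ w) (ψ w') ≤ dist (ψ w) e + dist (ψ w') e := dist_triangle_right _ _ _
    rw [dist_eq_norm (ψ w) e, dist_eq_norm (ψ w') e] at h4
    linarith

end Pool.SiegelArc
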