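import Pool.Agent.Lib.MP_b59c01_an.E3

/-!
# MP_b59c01_an, row E4
-/

open Complex MeasureTheory Set Filter Topology Metric

namespace Pool.SiegelArc

theorem E4_norm (w : ℂ) : ‖I - w‖ < ‖I + w‖ ↔ 0 < w.im := by
  rw [← sq_lt_sq₀ (norm_nonneg _) (norm_nonneg _), ← Complex.normSq_eq_norm_sq,
    ← Complex.normSq_eq_norm_sq, Complex.normSq_apply, Complex.normSq_apply]
  simp only [Complex.sub_re, Complex.I_re, Complex.sub_im, Complex.I_im, Complex.add_re,
    Complex.add_im]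
  constructor
  · intro h
    nlinarith
  · intro h
    nlinarith

theorem E4_ne {w : ℂ} (h : 0 ≤ w.im) : I + w ≠ 0 := by
  intro h0
  have := congrArg Complex.im h0
  simp at this
  linarith

theorem E4_arctan (θ x : ℝ) :
    pol 1 θ * ((I - x) / (I + x)) = pol 1 (θ + 2 * Real.arctan x) := by
  have h1 : (1 : ℂ) - x * I ≠ 0 := by
    intro h0
    have := congrArg Complex.re h0
    simp at this
  have h2 : (1 : ℂ) + x * I ≠ 0 := by
    intro h0
    have := congrArg Complex.re h0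
    simp at this
  have h3 : Complex.exp ((2 * Real.arctan x : ℝ) * I) = (1 + x * I) / (1 - x * I) := by
    have h4 : ((2 * Real.arctan x : ℝ) : ℂ) * I = Complex.log ((1 + x * I) / (1 - x * I)) := by
      rw [Complex.ofReal_mul, Complex.ofReal_arctan, Complex.arctan]
      push_cast
      linear_combination (-Complex.log ((1 + x * I) / (1 - x * I))) * Complex.I_sq
    rw [h4, Complex.exp_log (div_ne_zero h2 h1)]
  have h5 : (I : ℂ) + x ≠ 0 := E4_ne (by simp)
  unfold pol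
  rw [Complex.ofReal_add, add_mul, Complex.exp_add, h3]
  have h6 : ((I : ℂ) - x) / (I + x) = (1 + x * I) / (1 - x * I) := by
    rw [div_eq_div_iff h5 h1]
    linear_combination (-2 * (x : ℂ)) * Complex.I_sq
  rw [h6]
  ring

theorem extend_disc {φ : ℂ → ℂ} (h : Conf (ball 0 1) φ) (hb : Bornology.IsBounded (φ '' ball 0 1))
    {α : ℝ → ℂ} (hc : ContinuousOn α (Icc 0 1)) (hi : InjOn α (Icc 0 1))
    (hdis : ∀ t ∈ Icc (0 : ℝ) 1, α t ∉ φ '' ball 0 1) {θ₁ θ₂ : ℝ}
    (hcl : ∀ θ ∈ Ioo θ₁ θ₂, ∀ p, MapClusterPt p (𝓝[ball 0 1] (pol 1 θ)) φ → p ∈ α '' Icc 0 1) :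
    ∀ θ ∈ Ioo θ₁ θ₂, ∃ p, Tendsto φ (𝓝[ball 0 1] (pol 1 θ)) (𝓝 p) := by
  intro θ hθ
  obtain ⟨ζ0, hζ0⟩ : ∃ ζ0 : ℂ, ζ0 = pol 1 θ := ⟨_, rfl⟩
  have hn0 : ‖ζ0‖ = 1 := by
    rw [hζ0, pol, Complex.ofReal_one, one_mul, Complex.norm_exp_ofReal_mul_I]
  have h00 : ζ0 ≠ 0 := by
    intro h0
    rw [h0, norm_zero] at hn0
    exact zero_ne_one hn0
  obtain ⟨m, hm⟩ : ∃ m : ℂ → ℂ, ∀ w, m w = ζ0 * ((I - w) / (I + w)) := ⟨_, fun _ => rfl⟩
  have hUo : IsOpen UH := isOpen_lt continuous_const Complex.continuous_im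
  have hmU : ∀ w ∈ UH, m w ∈ ball (0 : ℂ) 1 := by
    intro w hw
    have hw' : 0 < w.im := hw
    rw [mem_ball_zero_iff, hm, norm_mul, hn0, one_mul, norm_div,
      div_lt_one (norm_pos_iff.mpr (E4_ne hw'.le))]
    exact (E4_norm w).mpr hw'
  have hmd : ∀ w : ℂ, I + w ≠ 0 → DifferentiableAt ℂ m w := by
    intro w hw
    have h1 : m = fun w => ζ0 * ((I - w) / (I + w)) := funext hm
    rw [h1]
    exact (((differentiableAt_const I).sub differentiableAt_id).div
      ((differentiableAt_const I).add differentiableAt_id) hw).const_mul ζ0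
  have hconf : Conf UH (φ ∘ m) := by
    refine ⟨hUo, ?_, ?_⟩
    · intro w hw
      have hw' : 0 < w.im := hw
      have h1 : DifferentiableAt ℂ φ (m w) :=
        h.diff.differentiableAt (h.opn.mem_nhds (hmU w hw))
      exact (h1.comp w (hmd w (E4_ne hw'.le))).differentiableWithinAt
    · intro w hw w' hw' heq
      have h1 : m w = m w' := h.inj (hmU w hw) (hmU w' hw') heq
      rw [hm, hm] at h1
      have h2 := mul_left_cancel₀ h00 h1
      have hw1 : 0 < w.im := hw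
      have hw2 : 0 < w'.im := hw'
      rw [div_eq_div_iff (E4_ne hw1.le) (E4_ne hw2.le)] at h2
      have h3 : 2 * I * (w - w') = 0 := by linear_combination -h2
      have h4 : (2 * I : ℂ) ≠ 0 := mul_ne_zero two_ne_zero Complex.I_ne_zero
      exact sub_eq_zero.mp ((mul_eq_zero.mp h3).resolve_left h4)
  have himg : (φ ∘ m) '' UH ⊆ φ '' ball 0 1 := by
    rintro _ ⟨w, hw, rfl⟩
    exact ⟨m w, hmU w hw, rfl⟩
  obtain ⟨s, hs, hsx⟩ : ∃ s : ℝ, 0 < s ∧ ∀ x : ℝ, |x| < s →
      θ + 2 * Real.arctan x ∈ Ioo θ₁ θ₂ := by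
    have hcont : Tendsto (fun x : ℝ => θ + 2 * Real.arctan x) (𝓝 0) (𝓝 θ) := by
      have h1 : Continuous fun x : ℝ => θ + 2 * Real.arctan x := by
        have := Real.continuous_arctan
        fun_prop
      have h2 := h1.tendsto 0
      simpa using h2
    have h1 := hcont.eventually (Ioo_mem_nhds hθ.1 hθ.2)
    obtain ⟨s, hs, h2⟩ := Metric.eventually_nhds_iff.mp h1
    refine ⟨s, hs, fun x hx => h2 ?_⟩
    rwa [Real.dist_eq, sub_zero]
  obtain ⟨p, hp⟩ := extend_half hconf (hb.subset himg) hc hi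
    (fun t ht hmem => hdis t ht (himg hmem)) hs (by
      intro x hx p hp
      refine hcl (θ + 2 * Real.arctan x) (hsx x hx) p ?_
      refine MapClusterPt.of_comp (φ := m) (p := 𝓝[UH] (x : ℂ)) ?_ hp
      have h1 : m x = pol 1 (θ + 2 * Real.arctan x) := by
        rw [hm, hζ0]
        exact E4_arctan θ x
      rw [← h1]
      refine tendsto_nhdsWithin_of_tendsto_nhds_of_eventually_within _
        ((hmd x (E4_ne (by simp))).continuousAt.tendsto.mono_left nhdsWithin_le_nhds) ?_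
      filter_upwards [self_mem_nhdsWithin] with w hw
      exact hmU w hw)
  refine ⟨p, ?_⟩
  rw [← hζ0]
  obtain ⟨n, hn⟩ : ∃ n : ℂ → ℂ, ∀ u, n u = I * ((ζ0 - u) / (ζ0 + u)) := ⟨_, fun _ => rfl⟩
  have hne : ∀ u ∈ ball (0 : ℂ) 1, ζ0 + u ≠ 0 := by
    intro u hu h0
    rw [mem_ball_zero_iff] at hu
    have h1 : ζ0 = -u := eq_neg_of_add_eq_zero_left h0
    rw [h1, norm_neg] at hn0
    linarith
  have hplus : ∀ u ∈ ball (0 : ℂ) 1, I + n u = 2 * I * ζ0 / (ζ0 + u) := by
    intro u hu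
    rw [hn, eq_div_iff (hne u hu)]
    have h1 : (ζ0 - u) / (ζ0 + u) * (ζ0 + u) = ζ0 - u := div_mul_cancel₀ _ (hne u hu)
    linear_combination I * h1
  have hminus : ∀ u ∈ ball (0 : ℂ) 1, I - n u = 2 * I * u / (ζ0 + u) := by
    intro u hu
    rw [hn, eq_div_iff (hne u hu)]
    have h1 : (ζ0 - u) / (ζ0 + u) * (ζ0 + u) = ζ0 - u := div_mul_cancel₀ _ (hne u hu)
    linear_combination -I * h1
  have hnU : ∀ u ∈ ball (0 : ℂ) 1, n u ∈ UH := by
    intro u hu
    have h0 := hne u hu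
    have hu' := mem_ball_zero_iff.mp hu
    refine (E4_norm _).mp ?_
    rw [hplus u hu, hminus u hu, norm_div, norm_div]
    refine div_lt_div_of_pos_right ?_ (norm_pos_iff.mpr h0)
    rw [norm_mul, norm_mul _ ζ0, hn0]
    have h2 : (0 : ℝ) < ‖(2 * I : ℂ)‖ :=
      norm_pos_iff.mpr (mul_ne_zero two_ne_zero Complex.I_ne_zero)
    exact mul_lt_mul_of_pos_left hu' h2
  have hmn : ∀ u ∈ ball (0 : ℂ) 1, m (n u) = u := by
    intro u hu
    have h0 := hne u hu
    have h2 : (2 * I : ℂ) ≠ 0 := mul_ne_zero two_ne_zero Complex.I_ne_zero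
    rw [hm, hplus u hu, hminus u hu, div_div_div_cancel_right₀ h0, mul_div_mul_left _ _ h2]
    field_simp
  have hnt : Tendsto n (𝓝[ball 0 1] ζ0) (𝓝[UH] 0) := by
    refine tendsto_nhdsWithin_of_tendsto_nhds_of_eventually_within _ ?_ ?_
    · have h1 : n = fun u => I * ((ζ0 - u) / (ζ0 + u)) := funext hn
      have h3 : ζ0 + ζ0 ≠ 0 := by
        rw [← two_mul]
        exact mul_ne_zero two_ne_zero h00
      have h4 : ContinuousAt n ζ0 := by
        rw [h1]
        exact continuousAt_const.mul ((continuousAt_const.sub continuousAt_id).div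
          (continuousAt_const.add continuousAt_id) h3)
      have h5 : n ζ0 = 0 := by rw [hn]; simp
      have h6 := h4.tendsto.mono_left (nhdsWithin_le_nhds (s := ball 0 1))
      rwa [h5] at h6
    · filter_upwards [self_mem_nhdsWithin] with u hu
      exact hnU u hu
  refine (hp.comp hnt).congr' ?_
  filter_upwards [self_mem_nhdsWithin] with u hu
  show φ (m (n u)) = φ u
  rw [hmn u hu]

end Pool.SiegelArc
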