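import Pool.Agent.Lib.MP_b59c01_an.Tools

/-!
# MP_b59c01_an, row G0
-/

open Complex MeasureTheory Set Filter Topology Metric

namespace Pool.SiegelArc

theorem G0_norm_pol (r θ : ℝ) : ‖pol r θ‖ = |r| := by
  unfold pol
  rw [norm_mul, norm_exp_ofReal_mul_I, mul_one, norm_real, Real.norm_eq_abs]

theorem G0_continuous_pol (θ : ℝ) : Continuous (fun r : ℝ => pol r θ) := by
  unfold pol
  fun_prop

theorem G0_tendsto_pol (θ : ℝ) :
    Tendsto (fun r : ℝ => pol r θ) (𝓝[<] 1) (𝓝[ball 0 1] (pol 1 θ)) := by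
  apply tendsto_nhdsWithin_of_tendsto_nhds_of_eventually_within
  · exact ((G0_continuous_pol θ).tendsto 1).mono_left nhdsWithin_le_nhds
  · have : Ioo (0 : ℝ) 1 ∈ 𝓝[<] (1 : ℝ) := Ioo_mem_nhdsLT one_pos
    filter_upwards [this] with r hr
    rw [mem_ball_zero_iff, G0_norm_pol, abs_of_pos hr.1]
    exact hr.2

/-- PROOF: the closure statement is clear (`𝓝[ball 0 1] ζ` contains the ball). If `p = φ u0` with `‖u0‖ < 1`, take a ball `B`
around `u0` inside the unit ball with `ζ ∉ closure B`; `φ '' B` is an open neighbourhood of `p` (`univ_open`), so there are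
`u` arbitrarily close to `ζ` in the unit ball with `φ u ∈ φ '' B`, hence `u ∈ B` (injectivity): a contradiction. -/
theorem cluster_boundary {φ : ℂ → ℂ} (h : Conf (ball 0 1) φ) {ζ : ℂ} (hζ : ‖ζ‖ = 1) {p : ℂ}
    (hp : MapClusterPt p (𝓝[ball 0 1] ζ) φ) : p ∈ closure (φ '' ball 0 1) ∧ p ∉ φ '' ball 0 1 := by
  rw [mapClusterPt_iff_frequently] at hp
  constructor
  · rw [mem_closure_iff_nhds]
    intro t ht
    obtain ⟨u, hu1, hu2⟩ := ((hp t ht).and_eventually self_mem_nhdsWithin).exists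
    exact ⟨φ u, hu1, u, hu2, rfl⟩
  · rintro ⟨u0, hu0, rfl⟩
    have hu0' : ‖u0‖ < 1 := mem_ball_zero_iff.1 hu0
    have hne : 0 < dist ζ u0 := by
      rw [dist_pos]
      rintro rfl
      linarith
    set δ := dist ζ u0 / 2 with hδ
    have hδ0 : 0 < δ := by positivity
    set r := min δ (1 - ‖u0‖) with hr
    have hr0 : 0 < r := lt_min hδ0 (by linarith)
    have hB : ball u0 r ⊆ ball 0 1 := by
      intro z hz
      rw [mem_ball] at hz
      rw [mem_ball_zero_iff]
      have h1 : r ≤ 1 - ‖u0‖ := min_le_right _ _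
      have h2 : ‖z‖ ≤ dist z u0 + ‖u0‖ := by
        rw [dist_eq_norm]
        calc ‖z‖ = ‖(z - u0) + u0‖ := by rw [sub_add_cancel]
          _ ≤ _ := norm_add_le _ _
      linarith
    have hopen := univ_open isOpen_ball hB h.opn h.diff h.inj
    have hmem : φ '' ball u0 r ∈ 𝓝 (φ u0) := hopen.mem_nhds ⟨u0, mem_ball_self hr0, rfl⟩
    have hev : ∀ᶠ u in 𝓝[ball 0 1] ζ, u ∈ ball ζ δ ∧ u ∈ ball (0 : ℂ) 1 :=
      Filter.Eventually.and (mem_nhdsWithin_of_mem_nhds (ball_mem_nhds ζ hδ0)) self_mem_nhdsWithin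
    obtain ⟨u, ⟨u', hu', huu'⟩, hu2, hu3⟩ := ((hp _ hmem).and_eventually hev).exists
    have heq : u' = u := h.inj (hB hu') hu3 huu'
    rw [heq, mem_ball] at hu'
    rw [mem_ball] at hu2
    have h1 : r ≤ δ := min_le_left _ _
    have h2 := dist_triangle ζ u u0
    rw [dist_comm ζ u] at h2
    linarith

/-- PROOF: `pol r θ → pol 1 θ` in the ball as `r → 1-`. -/
theorem RadLim.cluster {φ : ℂ → ℂ} {θ : ℝ} {x : ℂ} (hx : RadLim φ θ x) :
    MapClusterPt x (𝓝[ball 0 1] (pol 1 θ)) φ :=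
  MapClusterPt.of_comp (G0_tendsto_pol θ) (Tendsto.mapClusterPt hx)

/-- PROOF: as before. -/
theorem radLim_of_tendsto {φ : ℂ → ℂ} {θ : ℝ} {x : ℂ}
    (hx : Tendsto φ (𝓝[ball 0 1] (pol 1 θ)) (𝓝 x)) : RadLim φ θ x :=
  hx.comp (G0_tendsto_pol θ)

/-- PROOF: `x` is in the frontier by `cluster_boundary` (the image of the ball is open, `univ_open`); the path is
`t ↦ φ (pol t θ)` for `t < 1` and `x` at `1`. -/
theorem accessible_of_radLim {φ : ℂ → ℂ} (h : Conf (ball 0 1) φ) {θ : ℝ} {x : ℂ}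
    (hx : RadLim φ θ x) : Accessible (φ '' ball 0 1) x := by
  have hopen := univ_open isOpen_ball (Subset.refl _) h.opn h.diff h.inj
  have hb := cluster_boundary h (by rw [G0_norm_pol, abs_one]) hx.cluster
  have hin : ∀ t ∈ Ico (0 : ℝ) 1, pol t θ ∈ ball (0 : ℂ) 1 := by
    intro t ht
    rw [mem_ball_zero_iff, G0_norm_pol, abs_of_nonneg ht.1]
    exact ht.2
  refine ⟨?_, Function.update (fun t => φ (pol t θ)) 1 x, ?_, ?_, ?_⟩
  · rw [hopen.frontier_eq]
    exact hb
  · rw [continuousOn_update_iff]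
    have hsub : Icc (0 : ℝ) 1 \ {1} ⊆ Ico 0 1 := by
      rintro t ⟨ht, ht1⟩
      exact ⟨ht.1, lt_of_le_of_ne ht.2 ht1⟩
    constructor
    · refine h.diff.continuousOn.comp (G0_continuous_pol θ).continuousOn ?_
      intro t ht
      exact hin t (hsub ht)
    · intro _
      exact Tendsto.mono_left hx (nhdsWithin_mono _ fun t ht => (hsub ht).2)
  · exact Function.update_self _ _ _
  · intro t ht
    rw [Function.update_of_ne ht.2.ne]
    exact mem_image_of_mem _ (hin t ht)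

end Pool.SiegelArc
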