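import Pool.Agent.Lib.MP_b59c01_an.C3
import Pool.Agent.Lib.MP_b59c01_an.G0

/-!
# MP_b59c01_an, row G1
-/

open Complex MeasureTheory Set Filter Topology Metric

namespace Pool.SiegelArc

theorem G1_norm_pol (r θ : ℝ) : ‖pol r θ‖ = |r| := by
  unfold pol
  rw [norm_mul, norm_exp_ofReal_mul_I, mul_one, norm_real, Real.norm_eq_abs]

theorem G1_polar (θ : ℝ) (u : ℂ) :
    u = pol ‖u‖ (θ + (u * Complex.exp (-(θ * Complex.I))).arg) := by
  unfold pol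
  set w := u * Complex.exp (-(θ * Complex.I)) with hw
  have h1 : ‖w‖ = ‖u‖ := by
    rw [hw, norm_mul]
    have : (-(θ * Complex.I) : ℂ) = ((-θ : ℝ) : ℂ) * Complex.I := by push_cast; ring
    rw [this, norm_exp_ofReal_mul_I, mul_one]
  have h2 : (‖w‖ : ℂ) * Complex.exp (w.arg * Complex.I) = w := Complex.norm_mul_exp_arg_mul_I w
  have h3 : u = w * Complex.exp (θ * Complex.I) := by
    rw [hw, mul_assoc, ← Complex.exp_add]
    simp
  have h4 : Complex.exp (((θ + w.arg : ℝ) : ℂ) * Complex.I) =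
      Complex.exp (w.arg * Complex.I) * Complex.exp (θ * Complex.I) := by
    rw [← Complex.exp_add]
    congr 1
    push_cast
    ring
  rw [h4, ← mul_assoc, ← h1, h2]
  exact h3

theorem G1_sector {θ a b : ℝ} (hθ : θ ∈ Ioo a b) :
    ∀ᶠ u in 𝓝[ball (0 : ℂ) 1] (pol 1 θ), ∃ ρ ∈ Ioo (0 : ℝ) 1, ∃ θ' ∈ Ioo a b, u = pol ρ θ' := by
  have hc : ContinuousAt (fun u : ℂ => θ + (u * Complex.exp (-(θ * Complex.I))).arg)
      (pol 1 θ) := by
    have h1 : pol 1 θ * Complex.exp (-(θ * Complex.I)) = 1 := by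
      unfold pol
      rw [mul_assoc, ← Complex.exp_add]
      simp
    refine continuousAt_const.add ?_
    have h2 : ContinuousAt Complex.arg (pol 1 θ * Complex.exp (-(θ * Complex.I))) := by
      rw [h1]
      exact continuousAt_arg one_mem_slitPlane
    exact ContinuousAt.comp (f := fun u : ℂ => u * Complex.exp (-(θ * Complex.I))) h2
      (by fun_prop)
  have hv : θ + (pol 1 θ * Complex.exp (-(θ * Complex.I))).arg = θ := by
    have h1 : pol 1 θ * Complex.exp (-(θ * Complex.I)) = 1 := by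
      unfold pol
      rw [mul_assoc, ← Complex.exp_add]
      simp
    rw [h1, arg_one, add_zero]
  have hev1 : ∀ᶠ u in 𝓝 (pol 1 θ), θ + (u * Complex.exp (-(θ * Complex.I))).arg ∈ Ioo a b := by
    apply hc.eventually_mem
    rw [hv]
    exact isOpen_Ioo.mem_nhds hθ
  have hev2 : ∀ᶠ u in 𝓝 (pol 1 θ), 0 < ‖u‖ := by
    have : ContinuousAt (fun u : ℂ => ‖u‖) (pol 1 θ) := continuous_norm.continuousAt
    apply this.eventually_const_lt
    show 0 < ‖pol 1 θ‖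
    rw [G1_norm_pol, abs_one]
    exact one_pos
  filter_upwards [nhdsWithin_le_nhds hev1, nhdsWithin_le_nhds hev2, self_mem_nhdsWithin]
    with u h1 h2 h3
  exact ⟨‖u‖, ⟨h2, mem_ball_zero_iff.1 h3⟩, _, h1, G1_polar θ u⟩

theorem G1_key {φ : ℂ → ℂ} {J Ω : Set ℂ} (h : Conf (ball 0 1) φ)
    (hS : Surround (φ '' ball 0 1) J Ω) {C A : ℝ → ℂ} (hC : ContinuousOn C (Icc 0 1))
    (h01 : C 0 = C 1) (hval : ∀ t ∈ Icc (0 : ℝ) 1, C t ∈ A '' Icc 0 1 ∨ C t ∈ φ '' ball 0 1)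
    {θ a b : ℝ} (hθ : θ ∈ Ioo a b) {p : ℂ} (hp : MapClusterPt p (𝓝[ball 0 1] (pol 1 θ)) φ)
    (hpA : p ∉ A '' Icc 0 1) :
    ∃ ρ ∈ Ioo (0 : ℝ) 1, ∃ θ' ∈ Ioo a b, ∃ ω ∈ Ω, SameWind C (φ (pol ρ θ')) ω := by
  have hb := cluster_boundary h (by rw [G1_norm_pol, abs_one]) hp
  have hpJ : p ∈ J := by
    rcases hS.cl hb.1 with h1 | h1
    · exact absurd h1 hb.2
    · exact h1
  have hpC : p ∉ C '' Icc 0 1 := by
    rintro ⟨t, ht, rfl⟩
    rcases hval t ht with h1 | h1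
    · exact hpA h1
    · exact hb.2 h1
  have hclosed : IsClosed (C '' Icc 0 1) := (isCompact_Icc.image_of_continuousOn hC).isClosed
  obtain ⟨ε, hε, hball⟩ := Metric.isOpen_iff.1 hclosed.isOpen_compl p hpC
  obtain ⟨ω, hω, hωp⟩ := Metric.mem_closure_iff.1 (hS.jo hpJ) ε hε
  have hf := (mapClusterPt_iff_frequently.1 hp) (ball p ε) (ball_mem_nhds p hε)
  obtain ⟨u, hu1, ρ, hρ, θ', hθ', rfl⟩ := (hf.and_eventually (G1_sector hθ)).exists
  refine ⟨ρ, hρ, θ', hθ', ω, hω, ?_⟩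
  refine sameWind_of_preconnected hC h01 (convex_ball p ε).isPreconnected ?_ hu1 ?_
  · intro t ht hmem
    exact hball hmem (mem_image_of_mem _ ht)
  · rw [mem_ball, dist_comm]
    exact hωp

/-- PROOF: let `C = radLoop φ θ₁ θ₂ A`; its values are in `A '' Icc 0 1 ⊆ J` or in `φ '' ball 0 1` (`radLoop_values`). Suppose
both alternatives fail: there are `θ ∈ Ioo θ₁ θ₂` and a cluster value `p ∉ A '' Icc 0 1` of `φ` at `pol 1 θ`, and `θ'`, `p'` in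
the other sector. By `cluster_boundary` and `hS.cl`, `p ∈ J`, `p ∉ φ '' ball 0 1`, so `p` is not on the curve `C`; let `ball p ε` be
disjoint from the (compact) curve. It contains a point `ω ∈ Ω` (`hS.jo`) and a point `φ (pol ρ θ'')` with `0 < ρ < 1`,
`θ'' ∈ Ioo θ₁ θ₂` (the points of the disk near `pol 1 θ` are of this form). The ball is preconnected, so
`SameWind C (φ (pol ρ θ'')) ω` (`sameWind_of_preconnected`). In the same way for `p'`, with `ω'`. `Ω` is preconnected and disjoint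
from the curve (`hS.oj`, `hS.os`), so `SameWind C ω ω'`. By `SameWind.equiv` this contradicts `rad_crosscut` (note
`hS.js`: the path `A` avoids `φ '' ball 0 1`). -/
theorem sector_alternative {φ : ℂ → ℂ} {J Ω : Set ℂ} (h : Conf (ball 0 1) φ)
    (hS : Surround (φ '' ball 0 1) J Ω) {θ₁ θ₂ : ℝ} (h12 : θ₁ < θ₂)
    (h21 : θ₂ < θ₁ + 2 * Real.pi) {A : ℝ → ℂ} (hA : ContinuousOn A (Icc 0 1))
    (hAJ : ∀ t ∈ Icc (0 : ℝ) 1, A t ∈ J) (h₁ : RadLim φ θ₁ (A 0)) (h₂ : RadLim φ θ₂ (A 1)) :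
    (∀ θ ∈ Ioo θ₁ θ₂, ∀ p, MapClusterPt p (𝓝[ball 0 1] (pol 1 θ)) φ → p ∈ A '' Icc 0 1) ∨
    (∀ θ ∈ Ioo (θ₂ - 2 * Real.pi) θ₁, ∀ p, MapClusterPt p (𝓝[ball 0 1] (pol 1 θ)) φ →
      p ∈ A '' Icc 0 1) := by
  by_contra hcon
  rw [not_or] at hcon
  obtain ⟨hn1, hn2⟩ := hcon
  push Not at hn1 hn2
  obtain ⟨θ, hθ, p, hp, hpA⟩ := hn1
  obtain ⟨θ', hθ', p', hp', hpA'⟩ := hn2
  have hC := radLoop_continuousOn h hA h₁ h₂
  set C := radLoop φ θ₁ θ₂ A with hCdef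
  have h01 : C 0 = C 1 := by
    rw [hCdef]
    unfold radLoop
    norm_num
  have hval : ∀ t ∈ Icc (0 : ℝ) 1, C t ∈ A '' Icc 0 1 ∨ C t ∈ φ '' ball 0 1 := by
    intro t ht
    have hin : ∀ ρ ∈ Ico (0 : ℝ) 1, ∀ η, pol ρ η ∈ ball (0 : ℂ) 1 := by
      intro ρ hρ η
      rw [mem_ball_zero_iff, G1_norm_pol, abs_of_nonneg hρ.1]
      exact hρ.2
    rcases radLoop_values φ θ₁ θ₂ A ht with ⟨s, hs, h1⟩ | ⟨ρ, hρ, h1 | h1⟩
    · exact Or.inl ⟨s, hs, h1.symm⟩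
    · exact Or.inr ⟨_, hin ρ hρ _, h1.symm⟩
    · exact Or.inr ⟨_, hin ρ hρ _, h1.symm⟩
  obtain ⟨ρ, hρ, η, hη, ω, hω, hw⟩ := G1_key h hS hC h01 hval hθ hp hpA
  obtain ⟨ρ', hρ', η', hη', ω', hω', hw'⟩ := G1_key h hS hC h01 hval hθ' hp' hpA'
  have hww : SameWind C ω ω' := by
    refine sameWind_of_preconnected hC h01 hS.pre ?_ hω hω'
    intro t ht hmem
    rcases hval t ht with ⟨s, hs, h1⟩ | h1
    · exact Set.disjoint_left.1 hS.oj hmem (h1 ▸ hAJ s hs)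
    · exact Set.disjoint_left.1 hS.os hmem h1
  obtain ⟨_, hsymm, htrans⟩ := SameWind.equiv C
  refine rad_crosscut h h12 h21 hA ?_ h₁ h₂ hρ hρ' hη hη'
    (htrans _ _ _ hw (htrans _ _ _ hww (hsymm _ _ hw')))
  intro t ht hmem
  exact Set.disjoint_left.1 hS.js (hAJ t ht) hmem

end Pool.SiegelArc
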