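import Pool.Agent.Lib.MP_b59c01_an.Tools

/-!
# MP_b59c01_an, row P1
-/

open Complex MeasureTheory Set Filter Topology Metric

namespace Pool.SiegelArc

lemma P1_norm_pol (θ : ℝ) : ‖pol 1 θ‖ = 1 := by
  simp [pol, Complex.norm_exp_ofReal_mul_I]

lemma P1_pol_mul (a b : ℝ) : pol 1 a * pol 1 b = pol 1 (a + b) := by
  simp [pol, ← Complex.exp_add, add_mul]

lemma P1_pol_int (a : ℝ) (q : ℤ) : pol 1 (2 * Real.pi * q + a) = pol 1 a := by
  unfold pol
  congr 1
  push_cast
  have e : (2 * (Real.pi : ℂ) * q + a) * I = a * I + q * (2 * Real.pi * I) := by ring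
  rw [e, Complex.exp_add, Complex.exp_int_mul_two_pi_mul_I, mul_one]

/-- some rotated point lies in the arc -/
lemma P1_exists_rot {θ₁ θ₂ : ℝ} {m : ℕ} (hm : 0 < m) (hmθ : 2 * Real.pi / m < θ₂ - θ₁) {ζ : ℂ}
    (hζ : ‖ζ‖ = 1) :
    ∃ j ∈ Finset.range m, ∃ θ ∈ Ioo θ₁ θ₂, pol 1 (2 * Real.pi * j / m) * ζ = pol 1 θ := by
  have hm' : (0 : ℝ) < m := by exact_mod_cast hm
  set α : ℝ := arg ζ with hα
  have hζ' : ζ = pol 1 α := by
    unfold pol
    have := Complex.norm_mul_exp_arg_mul_I ζ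
    rw [hζ] at this
    exact this.symm
  set s : ℝ := 2 * Real.pi / m with hs
  have hs0 : 0 < s := div_pos (by positivity) hm'
  set n : ℤ := ⌊(θ₁ - α) / s⌋ + 1 with hn
  have h1 : (θ₁ - α) / s < n := by
    rw [hn]; push_cast; exact Int.lt_floor_add_one _
  have h2 : (n : ℝ) ≤ (θ₁ - α) / s + 1 := by
    rw [hn]; push_cast
    have := Int.floor_le ((θ₁ - α) / s)
    linarith
  have h1' : θ₁ - α < n * s := by rwa [div_lt_iff₀ hs0] at h1
  have h2' : n * s ≤ θ₁ - α + s := by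
    have := mul_le_mul_of_nonneg_right h2 hs0.le
    rwa [add_mul, div_mul_cancel₀ _ hs0.ne', one_mul] at this
  have hmz : (m : ℤ) ≠ 0 := by exact_mod_cast hm.ne'
  refine ⟨(n % m).toNat, ?_, α + n * s, ⟨by linarith, by linarith⟩, ?_⟩
  · rw [Finset.mem_range]
    have h3 := Int.emod_lt_of_pos n (show (0 : ℤ) < m by exact_mod_cast hm)
    have h4 := Int.emod_nonneg n hmz
    omega
  · have h4 := Int.emod_nonneg n hmz
    have h5 : (((n % m).toNat : ℕ) : ℝ) = (n : ℝ) - m * ((n / m : ℤ) : ℝ) := by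
      have h6 : (((n % m).toNat : ℕ) : ℤ) = n - m * (n / m) := by
        rw [Int.toNat_of_nonneg h4, Int.emod_def]
      exact_mod_cast h6
    rw [h5, hζ', P1_pol_mul]
    have e : α + n * s = 2 * Real.pi * ((n / m : ℤ) : ℝ) +
        (2 * Real.pi * ((n : ℝ) - m * ((n / m : ℤ) : ℝ)) / m + α) := by
      rw [hs]
      field_simp
      ring
    rw [e, P1_pol_int]

/-- PROOF: choose `m > 0` with `2 π / m < θ₂ - θ₁` and put `G u = ∏ j ∈ range m, (φ (pol 1 (2 π j / m) * u) - p)` for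
`‖u‖ < 1` and `G u = 0` otherwise. For `‖ζ‖ = 1` some rotated point `pol 1 (2 π j / m) * ζ` is `pol 1 θ` with
`θ ∈ Ioo θ₁ θ₂`, so the corresponding factor tends to `0` as `u → ζ` in the disk while the other factors are bounded (`hb`);
so `G` is continuous on `closedBall 0 1`, holomorphic on `ball 0 1`, zero on the unit circle: by the maximum principle
(`Complex.norm_le_of_forall_mem_frontier_norm_le`, `DiffContOnCl`) `G = 0` on the ball. So for every `u` in the ball some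
`pol 1 (2 π j / m) * u` is a point where `φ = p`; by injectivity there is at most one such point, so the ball would be
finite, a contradiction. -/
theorem no_constant_arc {φ : ℂ → ℂ} (h : Conf (ball 0 1) φ)
    (hb : Bornology.IsBounded (φ '' ball 0 1)) {θ₁ θ₂ : ℝ} (h12 : θ₁ < θ₂) {p : ℂ}
    (hp : ∀ θ ∈ Ioo θ₁ θ₂, Tendsto φ (𝓝[ball 0 1] (pol 1 θ)) (𝓝 p)) : False := by
  classical
  -- the number of rotations
  obtain ⟨m, hm⟩ := exists_nat_gt (2 * Real.pi / (θ₂ - θ₁))
  have h12' : 0 < θ₂ - θ₁ := sub_pos.mpr h12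
  have hm0 : (0 : ℝ) < m := lt_trans (div_pos (by positivity) h12') hm
  have hmN : 0 < m := by exact_mod_cast hm0
  have hmθ : 2 * Real.pi / m < θ₂ - θ₁ := by
    rw [div_lt_iff₀ h12'] at hm
    rw [div_lt_iff₀ hm0]
    linarith
  -- the bound
  obtain ⟨B₀, hB₀⟩ := hb.exists_norm_le
  set B : ℝ := |B₀| + ‖p‖ with hB
  have hB0 : 0 ≤ B := by positivity
  have hbd : ∀ w ∈ ball (0 : ℂ) 1, ‖φ w - p‖ ≤ B := fun w hw => by
    calc ‖φ w - p‖ ≤ ‖φ w‖ + ‖p‖ := norm_sub_le _ _
      _ ≤ B₀ + ‖p‖ := by gcongr; exact hB₀ _ (mem_image_of_mem _ hw)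
      _ ≤ B := by rw [hB]; gcongr; exact le_abs_self _
  -- rotations
  have hrot : ∀ (θ : ℝ) (u : ℂ), u ∈ ball (0 : ℂ) 1 → pol 1 θ * u ∈ ball (0 : ℂ) 1 := by
    intro θ u hu
    rw [mem_ball_zero_iff] at hu ⊢
    rwa [norm_mul, P1_norm_pol, one_mul]
  set F : ℂ → ℂ := fun u => ∏ j ∈ Finset.range m, (φ (pol 1 (2 * Real.pi * j / m) * u) - p) with hF
  set G : ℂ → ℂ := fun u => if u ∈ ball (0 : ℂ) 1 then F u else 0 with hG
  have hGF : ∀ u ∈ ball (0 : ℂ) 1, G u = F u := fun u hu => if_pos hu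
  -- differentiability
  have hFd : DifferentiableOn ℂ F (ball 0 1) := by
    apply DifferentiableOn.fun_finsetProd
    intro j _
    apply DifferentiableOn.sub_const
    exact h.diff.comp (by fun_prop) (fun u hu => hrot _ u hu)
  have hGd : DifferentiableOn ℂ G (ball 0 1) := hFd.congr hGF
  -- boundary behaviour
  have hlim : ∀ ζ : ℂ, ‖ζ‖ = 1 → Tendsto F (𝓝[ball 0 1] ζ) (𝓝 0) := by
    intro ζ hζ
    obtain ⟨j, hj, θ, hθ, hjθ⟩ := P1_exists_rot hmN hmθ hζ
    have h1 : Tendsto (fun u : ℂ => pol 1 (2 * Real.pi * j / m) * u) (𝓝[ball 0 1] ζ)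
        (𝓝[ball 0 1] (pol 1 θ)) := by
      rw [← hjθ]
      apply tendsto_nhdsWithin_of_tendsto_nhds_of_eventually_within
      · exact ((continuous_const.mul continuous_id).tendsto ζ).mono_left nhdsWithin_le_nhds
      · filter_upwards [self_mem_nhdsWithin] with u hu
        exact hrot _ u hu
    have h2 : Tendsto (fun u : ℂ => ‖φ (pol 1 (2 * Real.pi * j / m) * u) - p‖ *
        B ^ ((Finset.range m).erase j).card) (𝓝[ball 0 1] ζ) (𝓝 0) := by
      have h3 := ((hp θ hθ).comp h1).sub_const p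
      rw [sub_self] at h3
      have h4 := h3.norm.mul_const (B ^ ((Finset.range m).erase j).card)
      rw [norm_zero, zero_mul] at h4
      exact h4
    refine squeeze_zero_norm' ?_ h2
    filter_upwards [self_mem_nhdsWithin] with u hu
    rw [hF]
    simp only []
    rw [← Finset.mul_prod_erase _ _ hj, norm_mul]
    gcongr
    rw [norm_prod]
    calc ∏ i ∈ (Finset.range m).erase j, ‖φ (pol 1 (2 * Real.pi * i / m) * u) - p‖
        ≤ ∏ i ∈ (Finset.range m).erase j, B :=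
          Finset.prod_le_prod (fun _ _ => norm_nonneg _) (fun i _ => hbd _ (hrot _ u hu))
      _ = B ^ ((Finset.range m).erase j).card := Finset.prod_const _
  have hG0 : ∀ ζ : ℂ, ‖ζ‖ = 1 → G ζ = 0 := fun ζ hζ => if_neg (by
    rw [mem_ball_zero_iff, hζ]; exact lt_irrefl _)
  have hcont : ContinuousOn G (closedBall 0 1) := by
    intro u hu
    rcases lt_or_eq_of_le (mem_closedBall_zero_iff.mp hu) with hlt | heq
    · have hub : u ∈ ball (0 : ℂ) 1 := mem_ball_zero_iff.mpr hlt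
      exact ((hGd.differentiableAt (isOpen_ball.mem_nhds hub)).continuousAt).continuousWithinAt
    · apply ContinuousAt.continuousWithinAt
      unfold ContinuousAt
      rw [hG0 u heq, Metric.tendsto_nhds]
      intro ε hε
      have h1 := (Metric.tendsto_nhds.mp (hlim u heq)) ε hε
      rw [eventually_nhdsWithin_iff] at h1
      filter_upwards [h1] with w hw
      by_cases hwb : w ∈ ball (0 : ℂ) 1
      · rw [hGF w hwb]; exact hw hwb
      · have : G w = 0 := if_neg hwb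
        rw [this, dist_self]; exact hε
  have hcl : closure (ball (0 : ℂ) 1) = closedBall 0 1 := closure_ball 0 one_ne_zero
  have hdc : DiffContOnCl ℂ G (ball 0 1) := ⟨hGd, by rwa [hcl]⟩
  have hzero : ∀ u ∈ ball (0 : ℂ) 1, F u = 0 := by
    intro u hu
    have h1 := Complex.norm_le_of_forall_mem_frontier_norm_le isBounded_ball hdc (C := 0)
      (fun z hz => by
        rw [frontier_ball 0 one_ne_zero, mem_sphere_zero_iff_norm] at hz
        rw [hG0 z hz, norm_zero]) (subset_closure hu)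
    rw [hGF u hu] at h1
    exact norm_le_zero_iff.mp h1
  have hex : ∀ u ∈ ball (0 : ℂ) 1, ∃ θ : ℝ, φ (pol 1 θ * u) = p := by
    intro u hu
    have h1 := hzero u hu
    rw [hF] at h1
    obtain ⟨j, _, hj⟩ := Finset.prod_eq_zero_iff.mp h1
    exact ⟨_, sub_eq_zero.mp hj⟩
  have hz0 : (0 : ℂ) ∈ ball (0 : ℂ) 1 := by simp
  have hz1 : (1 / 2 : ℂ) ∈ ball (0 : ℂ) 1 := by
    rw [mem_ball_zero_iff]; norm_num
  obtain ⟨a, ha⟩ := hex 0 hz0
  obtain ⟨b, hb'⟩ := hex (1 / 2) hz1
  have h3 := h.inj (hrot a 0 hz0) (hrot b _ hz1) (ha.trans hb'.symm)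
  have h4 := congrArg norm h3
  rw [norm_mul, norm_mul, P1_norm_pol, P1_norm_pol] at h4
  norm_num at h4

end Pool.SiegelArc
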