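import Pool.Agent.Lib.MP_b59c01_an.G1
import Pool.Agent.Lib.MP_b59c01_an.P1

/-!
# MP_b59c01_an, row G2
-/

open Complex MeasureTheory Set Filter Topology Metric

namespace Pool.SiegelArc

/-- PROOF: `x ∈ J` (`RadLim.cluster`, `cluster_boundary`, `hS.cl`). `sector_alternative` with the constant path `A = x`: in one of
the two sectors every cluster value of `φ` at every boundary point `pol 1 θ` is `x`; `φ` has values in the compact set
`closure (φ '' ball 0 1)`, so `φ` tends to `x` at `pol 1 θ` (e.g. `IsCompact.tendsto_nhds_of_unique_mapClusterPt`).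
`no_constant_arc`. -/
theorem radLim_injective {φ : ℂ → ℂ} {J Ω : Set ℂ} (h : Conf (ball 0 1) φ)
    (hb : Bornology.IsBounded (φ '' ball 0 1)) (hS : Surround (φ '' ball 0 1) J Ω) {θ₁ θ₂ : ℝ}
    (h12 : θ₁ < θ₂) (h21 : θ₂ < θ₁ + 2 * Real.pi) {x : ℂ} (h₁ : RadLim φ θ₁ x)
    (h₂ : RadLim φ θ₂ x) : False := by
  have hn : ‖pol 1 θ₁‖ = 1 := by
    simp [pol, Complex.norm_exp]
  have hxJ : x ∈ J := by
    have hc := cluster_boundary h hn h₁.cluster
    rcases hS.cl hc.1 with h' | h'
    · exact absurd h' hc.2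
    · exact h'
  have hcomp : IsCompact (closure (φ '' ball 0 1)) := hb.isCompact_closure
  have key : ∀ θ : ℝ, (∀ p, MapClusterPt p (𝓝[ball 0 1] (pol 1 θ)) φ →
      p ∈ (fun _ : ℝ => x) '' Icc 0 1) → Tendsto φ (𝓝[ball 0 1] (pol 1 θ)) (𝓝 x) := by
    intro θ hθ
    apply hcomp.tendsto_nhds_of_unique_mapClusterPt
    · filter_upwards [self_mem_nhdsWithin] with u hu using
        subset_closure (mem_image_of_mem _ hu)
    · intro p _ hp
      obtain ⟨t, _, ht⟩ := hθ p hp
      exact ht.symm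
  rcases sector_alternative h hS h12 h21 (A := fun _ => x) continuousOn_const
    (fun _ _ => hxJ) h₁ h₂ with h' | h'
  · exact no_constant_arc h hb h12 (fun θ hθ => key θ (h' θ hθ))
  · exact no_constant_arc h hb (by linarith : θ₂ - 2 * Real.pi < θ₁)
      (fun θ hθ => key θ (h' θ hθ))

end Pool.SiegelArc
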