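import Pool.Agent.Lib.MP_b59c01_an.Tools

/-!
# MP_b59c01_an, row G3
-/

open Complex MeasureTheory Set Filter Topology Metric

namespace Pool.SiegelArc

/-- PROOF: the powers `λ ^ n`, `n ∈ ℕ`, of `λ = exp (2 π α I)` are dense in the unit circle
(`denseRange_zpow_iff_pow` in `Mathlib.Topology.Algebra.Group.SubmonoidClosure` and the density of the integer powers: `α` is
irrational, `AddCircle`/`Circle` lemmas such as `AddCircle.dense_...`, `dense_addSubgroupClosure_pair_iff`). So some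
`λ ^ n` is in the nonempty open set of the points `ζ / pol 1 θ`, `θ ∈ Ioo θ₁ θ₂` of the circle. -/
theorem rotation_dense {α : ℝ} (hα : Irrational α) {θ₁ θ₂ : ℝ} (h12 : θ₁ < θ₂) {ζ : ℂ}
    (hζ : ‖ζ‖ = 1) :
    ∃ n : ℕ, ∃ θ ∈ Ioo θ₁ θ₂, ζ = Complex.exp (2 * Real.pi * α * Complex.I) ^ n * pol 1 θ := by
  have hd : DenseRange (fun m : ℤ => m • (α : AddCircle (1 : ℝ))) :=
    AddCircle.denseRange_zsmul_coe_iff.2 (by rwa [div_one])
  have hd2 : DenseRange (fun m : ℕ => m • (α : AddCircle (1 : ℝ))) :=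
    denseRange_zsmul_iff_nsmul.1 hd
  have h2pi : 0 < 2 * Real.pi := by positivity
  have hζ2 : ζ = Complex.exp (arg ζ * I) := by
    have := Complex.norm_mul_exp_arg_mul_I ζ
    rw [hζ] at this
    simpa using this.symm
  -- the open set
  have hopen : IsOpen ((fun x : AddCircle (1 : ℝ) => ((arg ζ / (2 * Real.pi) : ℝ) : AddCircle (1 : ℝ)) - x) ⁻¹'
      ((QuotientAddGroup.mk : ℝ → AddCircle (1 : ℝ)) '' Ioo (θ₁ / (2 * Real.pi)) (θ₂ / (2 * Real.pi)))) := by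
    apply IsOpen.preimage (by fun_prop)
    exact QuotientAddGroup.isOpenMap_coe _ isOpen_Ioo
  have hlt : θ₁ / (2 * Real.pi) < θ₂ / (2 * Real.pi) := div_lt_div_of_pos_right h12 h2pi
  obtain ⟨v, hv⟩ := nonempty_Ioo.2 hlt
  obtain ⟨n, hn⟩ := hd2.exists_mem_open hopen
    ⟨((arg ζ / (2 * Real.pi) : ℝ) : AddCircle (1 : ℝ)) - (v : AddCircle (1 : ℝ)), by
      refine ⟨v, hv, ?_⟩
      simp⟩
  obtain ⟨w, hw, hwe⟩ := hn
  refine ⟨n, 2 * Real.pi * w, ⟨?_, ?_⟩, ?_⟩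
  · have := (div_lt_iff₀ h2pi).1 hw.1
    linarith
  · have := (lt_div_iff₀ h2pi).1 hw.2
    linarith
  · have h3 : ((w + n * α - arg ζ / (2 * Real.pi) : ℝ) : AddCircle (1 : ℝ)) = 0 := by
      have h4 : (w : AddCircle (1 : ℝ)) = ((arg ζ / (2 * Real.pi) : ℝ) : AddCircle (1 : ℝ)) -
        n • (α : AddCircle (1 : ℝ)) := hwe
      have h5 : ((w + n * α - arg ζ / (2 * Real.pi) : ℝ) : AddCircle (1 : ℝ)) =
        (w : AddCircle (1 : ℝ)) + n • (α : AddCircle (1 : ℝ)) - ((arg ζ / (2 * Real.pi) : ℝ) : AddCircle (1 : ℝ)) := by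
        rw [← AddCircle.coe_nsmul, ← AddCircle.coe_add, ← AddCircle.coe_sub, nsmul_eq_mul]
      rw [h5, h4]
      abel
    obtain ⟨k, hk⟩ := (AddCircle.coe_eq_zero_iff (1 : ℝ)).1 h3
    have hk2 : arg ζ = 2 * Real.pi * w + n * (2 * Real.pi * α) - k * (2 * Real.pi) := by
      have h6 : (k : ℝ) = w + n * α - arg ζ / (2 * Real.pi) := by simpa using hk
      rw [h6]
      field_simp
      ring
    rw [pol, ← Complex.exp_nat_mul]
    conv_lhs => rw [hζ2, hk2]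
    rw [show (((2 * Real.pi * w + n * (2 * Real.pi * α) - k * (2 * Real.pi) : ℝ) : ℂ) * I) =
      (n * (2 * Real.pi * α * I) + ((2 * Real.pi * w : ℝ) : ℂ) * I) - k * (2 * Real.pi * I) by
        push_cast; ring, Complex.exp_sub, Complex.exp_int_mul_two_pi_mul_I, Complex.exp_add]
    simp

/-- PROOF: induction on `n`. If `φ → p` at `ζ` then `φ → fq c p` at `λ ζ`: for `u` in the ball near `λ ζ`,
`φ u = φ (λ * (λ⁻¹ u)) = fq c (φ (λ⁻¹ u))` and `λ⁻¹ u → ζ` in the ball. -/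
theorem extend_rotate {φ : ℂ → ℂ} {c : ℂ} {α : ℝ} {S : Set ℂ} (hL : IsLinearization c α S φ)
    {ζ p : ℂ} (hp : Tendsto φ (𝓝[ball 0 1] ζ) (𝓝 p)) (n : ℕ) :
    ∃ q, Tendsto φ (𝓝[ball 0 1] (Complex.exp (2 * Real.pi * α * Complex.I) ^ n * ζ)) (𝓝 q) := by
  set lam : ℂ := Complex.exp (2 * Real.pi * α * Complex.I) with hlam
  have hnorm : ‖lam‖ = 1 := by
    rw [hlam, show (2 * Real.pi * α * Complex.I : ℂ) = ((2 * Real.pi * α : ℝ) : ℂ) * I by push_cast; ring]
    exact Complex.norm_exp_ofReal_mul_I _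
  have hne : lam ≠ 0 := Complex.exp_ne_zero _
  induction n with
  | zero => exact ⟨p, by simpa using hp⟩
  | succ n ih =>
    obtain ⟨q, hq⟩ := ih
    refine ⟨fq c q, ?_⟩
    have h1 : Tendsto (fun u => lam⁻¹ * u) (𝓝[ball 0 1] (lam ^ (n + 1) * ζ)) (𝓝[ball 0 1] (lam ^ n * ζ)) := by
      apply tendsto_nhdsWithin_iff.2
      constructor
      · have : Tendsto (fun u => lam⁻¹ * u) (𝓝 (lam ^ (n + 1) * ζ)) (𝓝 (lam⁻¹ * (lam ^ (n + 1) * ζ))) :=
          (continuous_const.mul continuous_id).tendsto _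
        rw [show lam⁻¹ * (lam ^ (n + 1) * ζ) = lam ^ n * ζ by rw [pow_succ']; field_simp] at this
        exact this.mono_left nhdsWithin_le_nhds
      · filter_upwards [self_mem_nhdsWithin] with u hu
        rw [mem_ball_zero_iff] at hu ⊢
        rw [norm_mul, norm_inv, hnorm, inv_one, one_mul]
        exact hu
    have h2 : Tendsto (fun u => fq c (φ (lam⁻¹ * u))) (𝓝[ball 0 1] (lam ^ (n + 1) * ζ)) (𝓝 (fq c q)) := by
      have hc : Continuous (fq c) := by unfold fq; fun_prop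
      exact (hc.tendsto q).comp (hq.comp h1)
    refine h2.congr' ?_
    filter_upwards [self_mem_nhdsWithin] with u hu
    have hu2 : lam⁻¹ * u ∈ ball (0 : ℂ) 1 := by
      rw [mem_ball_zero_iff] at hu ⊢
      rw [norm_mul, norm_inv, hnorm, inv_one, one_mul]
      exact hu
    rw [hL.2.2.2 _ hu2, ← hlam, mul_inv_cancel_left₀ hne]

end Pool.SiegelArc
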