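import Pool.Agent.Lib.MP_b59c01_an.G0

/-!
# MP_b59c01_an, row G4
-/

open Complex MeasureTheory Set Filter Topology Metric

namespace Pool.SiegelArc

/-- PROOF: let `Φ = extendFrom (ball 0 1) φ`, continuous on `closedBall 0 1 = closure (ball 0 1)` (`continuousOn_extendFrom`),
equal to `φ` on the ball. `Φ '' closedBall 0 1` is compact, contains `S = φ '' ball 0 1` and is contained in `closure S`, so it is
`closure S`; by `cluster_boundary` the values on the unit circle are not in `S`; so `frontier S = closure S \ S`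
(`S` is open, `univ_open`) is `Φ '' sphere 0 1`. Take `γ z = Φ z` on `Circle`; it is injective by `hinj`
(`tendsto_extendFrom`). -/
theorem jordan_of_extension {φ : ℂ → ℂ} (h : Conf (ball 0 1) φ)
    (hlim : ∀ ζ : ℂ, ‖ζ‖ = 1 → ∃ p, Tendsto φ (𝓝[ball 0 1] ζ) (𝓝 p))
    (hinj : ∀ ζ₁ ζ₂ p : ℂ, ‖ζ₁‖ = 1 → ‖ζ₂‖ = 1 → Tendsto φ (𝓝[ball 0 1] ζ₁) (𝓝 p) →
      Tendsto φ (𝓝[ball 0 1] ζ₂) (𝓝 p) → ζ₁ = ζ₂) :
    IsJordanCurve (frontier (φ '' ball 0 1)) := by
  set B : Set ℂ := ball 0 1 with hB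
  have hcl : closure B = closedBall 0 1 := closure_ball 0 one_ne_zero
  set Φ : ℂ → ℂ := extendFrom B φ with hΦ
  have hopen : IsOpen (φ '' B) := univ_open h.opn subset_rfl h.opn h.diff h.inj
  have hlim' : ∀ ζ ∈ closure B, ∃ p, Tendsto φ (𝓝[B] ζ) (𝓝 p) := by
    intro ζ hζ
    rw [hcl, mem_closedBall, dist_zero_right] at hζ
    rcases hζ.lt_or_eq with h1 | h1
    · have hm : ζ ∈ B := by rw [hB, mem_ball, dist_zero_right]; exact h1
      exact ⟨φ ζ, h.diff.continuousOn ζ hm⟩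
    · exact hlim ζ h1
  have hcont : ContinuousOn Φ (closure B) :=
    continuousOn_extendFrom subset_rfl hlim'
  have htend : ∀ ζ ∈ closure B, Tendsto φ (𝓝[B] ζ) (𝓝 (Φ ζ)) := fun ζ hζ =>
    tendsto_extendFrom (hlim' ζ hζ)
  have heq : ∀ ζ ∈ B, Φ ζ = φ ζ := by
    intro ζ hζ
    exact extendFrom_eq (subset_closure hζ) (h.diff.continuousOn ζ hζ)
  have hsph : ∀ ζ : ℂ, ‖ζ‖ = 1 → ζ ∈ closure B := by
    intro ζ hζ
    rw [hcl, mem_closedBall, dist_zero_right]; exact hζ.le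
  have himg : Φ '' closure B = closure (φ '' B) := by
    apply Subset.antisymm
    · rintro _ ⟨ζ, hζ, rfl⟩
      have hne : (𝓝[B] ζ).NeBot := mem_closure_iff_nhdsWithin_neBot.1 hζ
      exact mem_closure_of_tendsto (htend ζ hζ)
        (eventually_of_mem self_mem_nhdsWithin (fun x hx => mem_image_of_mem φ hx))
    · have hc : IsCompact (Φ '' closure B) := by
        apply IsCompact.image_of_continuousOn _ hcont
        rw [hcl]; exact isCompact_closedBall 0 1
      apply closure_minimal _ hc.isClosed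
      rintro _ ⟨ζ, hζ, rfl⟩
      exact ⟨ζ, subset_closure hζ, heq ζ hζ⟩
  have hnot : ∀ ζ : ℂ, ‖ζ‖ = 1 → Φ ζ ∉ φ '' B := by
    intro ζ hζ
    have hne : (𝓝[B] ζ).NeBot := mem_closure_iff_nhdsWithin_neBot.1 (hsph ζ hζ)
    exact (cluster_boundary h hζ (htend ζ (hsph ζ hζ)).mapClusterPt).2
  refine ⟨fun z => Φ z, ?_, ?_, ?_⟩
  · apply hcont.comp_continuous continuous_subtype_val
    intro z
    exact hsph _ (Circle.norm_coe z)
  · intro z w hzw
    have h1 := htend z (hsph _ (Circle.norm_coe z))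
    have h2 := htend w (hsph _ (Circle.norm_coe w))
    simp only at hzw
    rw [← hzw] at h2
    exact Circle.ext (hinj _ _ _ (Circle.norm_coe z) (Circle.norm_coe w) h1 h2)
  · rw [hopen.frontier_eq, ← himg]
    ext p
    constructor
    · rintro ⟨z, rfl⟩
      exact ⟨⟨z, hsph _ (Circle.norm_coe z), rfl⟩, hnot _ (Circle.norm_coe z)⟩
    · rintro ⟨⟨ζ, hζ, rfl⟩, hn⟩
      rw [hcl, mem_closedBall, dist_zero_right] at hζ
      rcases hζ.lt_or_eq with h1 | h1
      · exfalso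
        have hm : ζ ∈ B := by rw [hB, mem_ball, dist_zero_right]; exact h1
        exact hn ⟨ζ, hm, (heq ζ hm).symm⟩
      · exact ⟨⟨ζ, mem_sphere_zero_iff_norm.2 h1⟩, rfl⟩

end Pool.SiegelArc
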