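import Pool.Agent.Lib.MP_b59c01_an.Tools

/-!
# MP_b59c01_an, row G5
-/

open Complex MeasureTheory Set Filter Topology Metric

namespace Pool.SiegelArc

/-- PROOF: `x = γ a`, `y = γ b` with `a ≠ b` in `Circle`; with `δ = arg (b / a)`
the arc is `t ↦ γ (a * Circle.exp (t * δ))`. -/
theorem IsJordanCurve.arcwise {X : Set ℂ} (h : IsJordanCurve X) : ArcwiseConnected X := by
  obtain ⟨γ, hc, hi, rfl⟩ := h
  rintro _ ⟨a, rfl⟩ _ ⟨b, rfl⟩ hab
  have hne : a ≠ b := fun h => hab (by rw [h])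
  obtain ⟨δ, hδ⟩ : ∃ δ : ℝ, δ = arg ((b / a : Circle) : ℂ) := ⟨_, rfl⟩
  have hexp : Circle.exp δ = b / a := by rw [hδ]; exact Circle.exp_arg _
  have h1 : -Real.pi < δ := by rw [hδ]; exact neg_pi_lt_arg _
  have h2 : δ ≤ Real.pi := by rw [hδ]; exact arg_le_pi _
  have h0 : δ ≠ 0 := by
    intro h
    rw [h, Circle.exp_zero] at hexp
    apply hne
    exact (div_eq_one.1 hexp.symm).symm
  have hlo : ∀ t ∈ Icc (0 : ℝ) 1, -Real.pi < t * δ := by
    intro t ht
    have hp := Real.pi_pos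
    rcases le_total 0 δ with h3 | h3
    · nlinarith [mul_nonneg ht.1 h3]
    · nlinarith [mul_nonneg (sub_nonneg.2 ht.2) (neg_nonneg.2 h3)]
  have hhi : ∀ t ∈ Icc (0 : ℝ) 1, t * δ ≤ Real.pi := by
    intro t ht
    have hp := Real.pi_pos
    rcases le_total 0 δ with h3 | h3
    · nlinarith [mul_nonneg (sub_nonneg.2 ht.2) h3]
    · nlinarith [mul_nonneg ht.1 (neg_nonneg.2 h3)]
  refine ⟨fun t => γ (a * Circle.exp (t * δ)), ?_, ?_, ?_, ?_, ?_⟩
  · apply Continuous.continuousOn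
    fun_prop
  · intro t ht s hs hts
    have h3 := mul_left_cancel (hi hts)
    have h4 := Circle.arg_exp (hlo t ht) (hhi t ht)
    have h5 := Circle.arg_exp (hlo s hs) (hhi s hs)
    rw [h3, h5] at h4
    exact (mul_right_cancel₀ h0 h4).symm
  · simp
  · simp [hexp]
  · intro t _
    exact ⟨_, rfl⟩

end Pool.SiegelArc
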