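import Pool.Agent.Lib.MP_b59c01_an.Tools

/-!
# MP_b59c01_an: accessible points are dense in the boundary
-/

open Complex MeasureTheory Set Filter Topology Metric

namespace Pool.SiegelArc

/-- the first exit point on a segment is accessible -/
theorem exit_point {S : Set ℂ} (hS : IsOpen S) {q w : ℂ} (hq : q ∈ S) (hw : w ∉ S) :
    ∃ t ∈ Ioc (0 : ℝ) 1, Accessible S (q + t * (w - q)) := by
  obtain ⟨γ, hγ⟩ : ∃ γ : ℝ → ℂ, γ = fun t : ℝ => q + t * (w - q) := ⟨_, rfl⟩
  have hγt : ∀ t : ℝ, γ t = q + t * (w - q) := fun t => by rw [hγ]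
  have hγc : Continuous γ := by rw [hγ]; fun_prop
  have hK : IsCompact (Icc 0 1 ∩ γ ⁻¹' Sᶜ) :=
    isCompact_Icc.inter_right (hS.isClosed_compl.preimage hγc)
  have hne : (Icc 0 1 ∩ γ ⁻¹' Sᶜ).Nonempty := by
    refine ⟨1, ⟨zero_le_one, le_rfl⟩, ?_⟩
    rw [mem_preimage, mem_compl_iff, hγt]
    simpa using hw
  obtain ⟨T, hT, hmin⟩ := hK.exists_isLeast hne
  have hlt : ∀ t, 0 ≤ t → t < T → γ t ∈ S := by
    intro t ht0 htT
    by_contra hcon
    exact absurd (hmin ⟨⟨ht0, htT.le.trans hT.1.2⟩, hcon⟩) (not_le.2 htT)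
  have hT0 : 0 < T := by
    rcases hT.1.1.lt_or_eq with h | h
    · exact h
    · exfalso
      apply hT.2
      rw [← h, hγt]
      simpa using hq
  refine ⟨T, ⟨hT0, hT.1.2⟩, ?_⟩
  rw [← hγt]
  refine ⟨?_, fun t => γ (T * t), ?_, ?_, ?_⟩
  · rw [hS.frontier_eq]
    refine ⟨?_, hT.2⟩
    have h1 : Tendsto γ (𝓝[<] T) (𝓝 (γ T)) := (hγc.tendsto T).mono_left nhdsWithin_le_nhds
    refine mem_closure_of_tendsto h1 ?_
    filter_upwards [Ioo_mem_nhdsLT hT0] with t ht
    exact hlt t ht.1.le ht.2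
  · exact (hγc.comp (continuous_const.mul continuous_id)).continuousOn
  · simp
  · intro t ht
    exact hlt _ (mul_nonneg hT0.le ht.1) (by nlinarith [ht.2])

/-- every open set which meets the boundary contains two accessible points -/
theorem two_accessible {S J Ω : Set ℂ} (hS : Surround S J Ω) (hSo : IsOpen S) {U : Set ℂ}
    (hU : IsOpen U) (hne : (U ∩ frontier S).Nonempty) :
    ∃ x ∈ U, ∃ y ∈ U, x ≠ y ∧ Accessible S x ∧ Accessible S y := by
  obtain ⟨p, hpU, hpS⟩ := hne
  obtain ⟨ε, hε, hball⟩ := Metric.isOpen_iff.1 hU p hpU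
  rw [hSo.frontier_eq] at hpS
  have hpJ : p ∈ J := (hS.cl hpS.1).resolve_left hpS.2
  obtain ⟨ω, hω, hωd⟩ := Metric.mem_closure_iff.1 (hS.jo hpJ) ε hε
  have hωp : ω - p ≠ 0 := fun h => Set.disjoint_left.1 hS.oj hω ((sub_eq_zero.1 h) ▸ hpJ)
  have hωS : ω ∉ S := Set.disjoint_left.1 hS.os hω
  obtain ⟨q0, hq0, hq0d⟩ := Metric.mem_closure_iff.1 hpS.1 ε hε
  obtain ⟨q, hqS, hqd, hqn⟩ : ∃ q ∈ S, dist p q < ε ∧ ((q - p) / (ω - p)).im ≠ 0 := by
    have hopen : IsOpen (S ∩ ball p ε) := hSo.inter isOpen_ball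
    have hmem : q0 ∈ S ∩ ball p ε := ⟨hq0, by rw [mem_ball, dist_comm]; exact hq0d⟩
    by_cases him : ((q0 - p) / (ω - p)).im = 0
    · have hc : Continuous (fun η : ℝ => q0 + η * (I * (ω - p))) := by fun_prop
      have h0 : (fun η : ℝ => q0 + η * (I * (ω - p))) 0 ∈ S ∩ ball p ε := by simpa using hmem
      have hev := hc.continuousAt.eventually (hopen.mem_nhds h0)
      have hev2 : ∀ᶠ η : ℝ in 𝓝[>] 0, q0 + η * (I * (ω - p)) ∈ S ∩ ball p ε :=
        hev.filter_mono nhdsWithin_le_nhds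
      obtain ⟨η, h1, h2⟩ := (hev2.and self_mem_nhdsWithin).exists
      refine ⟨q0 + η * (I * (ω - p)), h1.1, ?_, ?_⟩
      · have := h1.2
        rwa [mem_ball, dist_comm] at this
      · have h3 : (q0 + η * (I * (ω - p)) - p) / (ω - p) = (q0 - p) / (ω - p) + η * I := by
          field_simp
          ring
        rw [h3, Complex.add_im, him]
        simp only [zero_add, Complex.mul_im, Complex.ofReal_re, Complex.I_im, mul_one,
          Complex.ofReal_im, Complex.I_re, mul_zero, add_zero]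
        exact (Set.mem_Ioi.1 h2).ne'
    · exact ⟨q0, hq0, hq0d, him⟩
  obtain ⟨t, ht, hx⟩ := exit_point hSo hqS hωS
  obtain ⟨x, hxdef⟩ : ∃ x : ℂ, x = q + t * (ω - q) := ⟨_, rfl⟩
  rw [← hxdef] at hx
  have hdist : ∀ {a b : ℂ} {s δ : ℝ}, s ∈ Ioc (0 : ℝ) 1 → dist p a < δ → dist p b < δ →
      dist p (a + s * (b - a)) < δ := by
    intro a b s δ hs ha hb
    have h1 := (convex_ball p δ) (show a ∈ ball p δ by rwa [mem_ball, dist_comm])
      (show b ∈ ball p δ by rwa [mem_ball, dist_comm]) (show (0 : ℝ) ≤ 1 - s by linarith [hs.2])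
      hs.1.le (by ring)
    rw [mem_ball, dist_comm] at h1
    have h2 : a + s * (b - a) = (1 - s) • a + s • b := by
      simp only [Complex.real_smul]
      push_cast
      ring
    rw [h2]
    exact h1
  have hxd : dist p x < ε := by
    rw [hxdef]
    exact hdist ht hqd hωd
  have hxp : x ≠ p := by
    intro h
    have h1 : (x - p) / (ω - p) = (1 - t) * ((q - p) / (ω - p)) + t := by
      rw [hxdef]
      field_simp
      ring
    rw [h, sub_self, zero_div] at h1
    have h2 := congrArg Complex.im h1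
    simp only [Complex.zero_im, Complex.add_im, Complex.mul_im, Complex.sub_re, Complex.one_re,
      Complex.ofReal_re, Complex.sub_im, Complex.one_im, Complex.ofReal_im, sub_self, zero_mul,
      add_zero] at h2
    rcases mul_eq_zero.1 h2.symm with h3 | h3
    · have ht1 : t = 1 := by linarith
      rw [ht1] at hxdef
      apply hωp
      rw [← h, hxdef]
      push_cast
      ring
    · exact hqn h3
  obtain ⟨q', hq', hq'd⟩ := Metric.mem_closure_iff.1 hpS.1 (min ε (dist p x))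
    (lt_min hε (dist_pos.2 hxp.symm))
  obtain ⟨t', ht', hy⟩ := exit_point hSo hq' hpS.2
  have hyd : dist p (q' + t' * (p - q')) < min ε (dist p x) :=
    hdist ht' hq'd (by rw [dist_self]; exact lt_min hε (dist_pos.2 hxp.symm))
  refine ⟨x, hball (by rwa [mem_ball, dist_comm]), q' + t' * (p - q'), hball ?_, ?_, hx, hy⟩
  · rw [mem_ball, dist_comm]
    exact hyd.trans_le (min_le_left _ _)
  · intro h
    rw [← h] at hyd
    exact absurd (hyd.trans_le (min_le_right _ _)) (lt_irrefl _)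

end Pool.SiegelArc
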