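import Pool.Agent.Lib.MP_b59c01_an.MTools

/-!
# MP_b59c01_an, row M2
-/

open Complex MeasureTheory Set Filter Topology Metric

namespace Pool.SiegelArc

theorem M2_fubini (F : ℂ → ENNReal) (hF : Measurable F) :
    ∫⁻ ζ in {ζ : ℂ | (-1 < ζ.re ∧ ζ.re < 0) ∧ 0 < ζ.im ∧ ζ.im < 2 * Real.pi}, F ζ =
      ∫⁻ θ in Ioo 0 (2 * Real.pi), ∫⁻ s in Ioo (-1 : ℝ) 0, F (s + θ * I) := by
  have hmp := Complex.volume_preserving_equiv_real_prod.symm
  have h1 := hmp.setLIntegral_comp_preimage_emb (MeasurableEquiv.measurableEmbedding _) F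
    {ζ : ℂ | (-1 < ζ.re ∧ ζ.re < 0) ∧ 0 < ζ.im ∧ ζ.im < 2 * Real.pi}
  have h2 : (Complex.measurableEquivRealProd.symm ⁻¹'
      {ζ : ℂ | (-1 < ζ.re ∧ ζ.re < 0) ∧ 0 < ζ.im ∧ ζ.im < 2 * Real.pi}) =
      Ioo (-1) 0 ×ˢ Ioo 0 (2 * Real.pi) := by
    ext ⟨a, b⟩
    rfl
  rw [← h1, h2, Measure.volume_eq_prod, ← Measure.prod_restrict, lintegral_prod_symm]
  · refine lintegral_congr fun s => lintegral_congr fun θ => ?_
    congr 1
    apply Complex.ext <;> simp [Complex.measurableEquivRealProd]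
  · exact (hF.comp (MeasurableEquiv.measurable _)).aemeasurable

/-- if the square of the derivative is integrable then the function has a limit at the right end -/
theorem M2_lim {g D : ℝ → ℂ} (hd : ∀ s ∈ Ioo (-1 : ℝ) 0, HasDerivAt g (D s) s)
    (hc : ContinuousOn D (Ioo (-1) 0))
    (hG : ∫⁻ s in Ioo (-1 : ℝ) 0, ENNReal.ofReal (‖D s‖ ^ 2) < ⊤) :
    ∃ x, Tendsto g (𝓝[<] 0) (𝓝 x) := by
  obtain ⟨M, hM⟩ : ∃ M : ℝ, M = (∫⁻ s in Ioo (-1 : ℝ) 0, ENNReal.ofReal (‖D s‖ ^ 2)).toReal :=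
    ⟨_, rfl⟩
  have hM0 : 0 ≤ M := by rw [hM]; exact ENNReal.toReal_nonneg
  have hGM : ∫⁻ s in Ioo (-1 : ℝ) 0, ENNReal.ofReal (‖D s‖ ^ 2) = ENNReal.ofReal M := by
    rw [hM, ENNReal.ofReal_toReal hG.ne]
  -- the basic estimate
  have key : ∀ a : ℝ, 0 < a → ∀ s ∈ Ioo (-1 : ℝ) 0, ∀ s' ∈ Ioo (-1 : ℝ) 0, s ≤ s' →
      ‖g s' - g s‖ ≤ a * M + (s' - s) / (4 * a) := by
    intro a ha s hs s' hs' hle
    have hsub : uIcc s s' ⊆ Ioo (-1) 0 := by
      rw [uIcc_of_le hle]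
      exact fun t ht => ⟨lt_of_lt_of_le hs.1 ht.1, lt_of_le_of_lt ht.2 hs'.2⟩
    have hc' : ContinuousOn D (uIcc s s') := hc.mono hsub
    have h1 : ∫ t in s..s', D t = g s' - g s :=
      intervalIntegral.integral_eq_sub_of_hasDerivAt (fun t ht => hd t (hsub ht))
        hc'.intervalIntegrable
    rw [← h1]
    have h2 : ‖∫ t in s..s', D t‖ ≤ ∫ t in s..s', ‖D t‖ :=
      intervalIntegral.norm_integral_le_integral_norm hle
    have hi2 : IntervalIntegrable (fun t : ℝ => ‖D t‖ ^ 2) volume s s' :=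
      (hc'.norm.pow 2).intervalIntegrable
    have h3 : ∫ t in s..s', ‖D t‖ ≤ ∫ t in s..s', (a * ‖D t‖ ^ 2 + 1 / (4 * a)) := by
      refine intervalIntegral.integral_mono_on hle hc'.norm.intervalIntegrable
        ((hi2.const_mul _).add intervalIntegrable_const) fun t _ => ?_
      have h4 : a * ‖D t‖ ^ 2 + 1 / (4 * a) - ‖D t‖ = (2 * a * ‖D t‖ - 1) ^ 2 / (4 * a) := by
        field_simp
        ring
      have h5 : 0 ≤ (2 * a * ‖D t‖ - 1) ^ 2 / (4 * a) := by positivity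
      linarith
    have h4 : ∫ t in s..s', (a * ‖D t‖ ^ 2 + 1 / (4 * a)) =
        a * (∫ t in s..s', ‖D t‖ ^ 2) + (s' - s) * (1 / (4 * a)) := by
      rw [intervalIntegral.integral_add (hi2.const_mul _) intervalIntegrable_const,
        intervalIntegral.integral_const_mul, intervalIntegral.integral_const, smul_eq_mul]
    have h5 : ∫ t in s..s', ‖D t‖ ^ 2 ≤ M := by
      rw [intervalIntegral.integral_of_le hle]
      have h6 : ENNReal.ofReal (∫ t in Ioc s s', ‖D t‖ ^ 2) =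
          ∫⁻ t in Ioc s s', ENNReal.ofReal (‖D t‖ ^ 2) := by
        refine ofReal_integral_eq_lintegral_ofReal ?_ (Eventually.of_forall fun t => by positivity)
        exact (intervalIntegrable_iff_integrableOn_Ioc_of_le hle).mp hi2
      have h7 : ∫⁻ t in Ioc s s', ENNReal.ofReal (‖D t‖ ^ 2) ≤
          ∫⁻ t in Ioo (-1 : ℝ) 0, ENNReal.ofReal (‖D t‖ ^ 2) :=
        lintegral_mono_set fun t ht => ⟨lt_trans hs.1 ht.1, lt_of_le_of_lt ht.2 hs'.2⟩
      rw [← h6, hGM] at h7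
      exact (ENNReal.ofReal_le_ofReal_iff hM0).mp h7
    have h6 : a * (∫ t in s..s', ‖D t‖ ^ 2) ≤ a * M := mul_le_mul_of_nonneg_left h5 ha.le
    have h7 : (s' - s) * (1 / (4 * a)) = (s' - s) / (4 * a) := by ring
    linarith
  -- Cauchy
  have hne : (𝓝[<] (0 : ℝ)).NeBot := inferInstance
  rw [← cauchy_map_iff_exists_tendsto, Metric.cauchy_iff]
  refine ⟨hne.map g, fun ε hε => ?_⟩
  obtain ⟨a, ha, haM⟩ : ∃ a : ℝ, 0 < a ∧ a * M ≤ ε / 4 := by
    refine ⟨ε / (4 * (M + 1)), by positivity, ?_⟩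
    rw [div_mul_eq_mul_div, div_le_div_iff₀ (by positivity) (by positivity)]
    nlinarith
  obtain ⟨d, hd0, hd1, hd2⟩ : ∃ d : ℝ, 0 < d ∧ d < 1 ∧ d / (4 * a) ≤ ε / 4 := by
    refine ⟨min (1 / 2) (a * ε), lt_min (by norm_num) (by positivity),
      lt_of_le_of_lt (min_le_left _ _) (by norm_num), ?_⟩
    rw [div_le_div_iff₀ (by positivity) (by positivity)]
    have := min_le_right (1 / 2) (a * ε)
    nlinarith
  refine ⟨g '' Ioo (-d) 0, ?_, ?_⟩
  · exact image_mem_map (Ioo_mem_nhdsLT (by linarith))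
  · have hmain : ∀ s ∈ Ioo (-d) 0, ∀ s' ∈ Ioo (-d) 0, s ≤ s' → ‖g s' - g s‖ < ε := by
      intro s hs s' hs' hle
      have h1 := key a ha s ⟨by linarith [hs.1], hs.2⟩ s' ⟨by linarith [hs'.1], hs'.2⟩ hle
      have h2 : (s' - s) / (4 * a) ≤ d / (4 * a) :=
        div_le_div_of_nonneg_right (by linarith [hs.1, hs'.2]) (by positivity)
      linarith
    rintro _ ⟨s, hs, rfl⟩ _ ⟨s', hs', rfl⟩
    rcases le_total s s' with hle | hle
    · rw [dist_comm, dist_eq_norm]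
      exact hmain s hs s' hs' hle
    · rw [dist_eq_norm]
      exact hmain s' hs' s hs hle

theorem radial_limits_ae {φ : ℂ → ℂ} (h : Conf (ball 0 1) φ)
    (hb : Bornology.IsBounded (φ '' ball 0 1)) :
    ∀ᵐ θ : ℝ, θ ∈ Ioo 0 (2 * Real.pi) → ∃ x, RadLim φ θ x := by
  have hπ := Real.pi_pos
  obtain ⟨S, hS⟩ : ∃ S : Set ℂ, S = {ζ : ℂ | (-1 < ζ.re ∧ ζ.re < 0) ∧ 0 < ζ.im ∧
    ζ.im < 2 * Real.pi} := ⟨_, rfl⟩
  have hSmem : ∀ ζ, ζ ∈ S ↔ (-1 < ζ.re ∧ ζ.re < 0) ∧ 0 < ζ.im ∧ ζ.im < 2 * Real.pi := by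
    intro ζ
    rw [hS]
    rfl
  have hSo : IsOpen S := by
    rw [hS]
    exact ((isOpen_lt continuous_const Complex.continuous_re).inter
      (isOpen_lt Complex.continuous_re continuous_const)).inter
      ((isOpen_lt continuous_const Complex.continuous_im).inter
        (isOpen_lt Complex.continuous_im continuous_const))
  have hpt : ∀ ζ ∈ S, exp ζ ∈ ball (0 : ℂ) 1 := by
    intro ζ hζ
    rw [mem_ball_zero_iff, Complex.norm_exp, Real.exp_lt_one_iff]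
    exact ((hSmem ζ).mp hζ).1.2
  obtain ⟨Ψ, hΨ⟩ : ∃ Ψ : ℂ → ℂ, Ψ = fun ζ => φ (exp ζ) := ⟨_, rfl⟩
  have hΨd : DifferentiableOn ℂ Ψ S := by
    rw [hΨ]
    intro ζ hζ
    have h1 : DifferentiableAt ℂ φ (exp ζ) := h.diff.differentiableAt (h.opn.mem_nhds (hpt ζ hζ))
    have h2 : DifferentiableAt ℂ (fun ζ : ℂ => exp ζ) ζ := by fun_prop
    exact (h1.comp ζ h2).differentiableWithinAt
  have hΨi : InjOn Ψ S := by
    intro ζ hζ ζ' hζ' heq
    rw [hΨ] at heq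
    have h1 : exp ζ = exp ζ' := h.inj (hpt ζ hζ) (hpt ζ' hζ') heq
    obtain ⟨_, c2, c3⟩ := (hSmem ζ).mp hζ
    obtain ⟨_, d2, d3⟩ := (hSmem ζ').mp hζ'
    have h2 : exp (ζ - Real.pi * I) = exp (ζ' - Real.pi * I) := by
      rw [Complex.exp_sub, Complex.exp_sub, h1]
    have h3 : ζ - Real.pi * I = ζ' - Real.pi * I := by
      refine Complex.exp_inj_of_neg_pi_lt_of_le_pi ?_ ?_ ?_ ?_ h2
      · simp; linarith
      · simp; linarith
      · simp; linarith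
      · simp; linarith
    linear_combination h3
  have hΨD : ∀ ζ ∈ S, HasDerivAt Ψ (deriv Ψ ζ) ζ := fun ζ hζ =>
    (hΨd.differentiableAt (hSo.mem_nhds hζ)).hasDerivAt
  have harea : ∫⁻ ζ in S, ENNReal.ofReal (‖deriv Ψ ζ‖ ^ 2) = volume (Ψ '' S) := by
    rw [← lintegral_abs_det_fderiv_eq_addHaar_image volume hSo.measurableSet
      (f' := fun ζ => (ContinuousLinearMap.toSpanSingleton ℂ (deriv Ψ ζ)).restrictScalars ℝ)
      (fun ζ hζ => ((hΨD ζ hζ).hasFDerivAt.restrictScalars ℝ).hasFDerivWithinAt) hΨi]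
    refine lintegral_congr fun ζ => ?_
    rw [d1e_det]
  have hfin : ∫⁻ ζ in S, ENNReal.ofReal (‖deriv Ψ ζ‖ ^ 2) < ⊤ := by
    rw [harea]
    refine lt_of_le_of_lt (measure_mono ?_) hb.measure_lt_top
    rintro _ ⟨ζ, hζ, rfl⟩
    rw [hΨ]
    exact mem_image_of_mem φ (hpt ζ hζ)
  have hmeas : Measurable (fun ζ : ℂ => ENNReal.ofReal (‖deriv Ψ ζ‖ ^ 2)) :=
    ((measurable_deriv Ψ).norm.pow_const 2).ennreal_ofReal
  rw [hS, M2_fubini _ hmeas] at hfin
  have hmeas2 : Measurable fun θ : ℝ => ∫⁻ s in Ioo (-1 : ℝ) 0,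
      ENNReal.ofReal (‖deriv Ψ (s + θ * I)‖ ^ 2) := by
    have h1 : Measurable fun p : ℝ × ℝ => ENNReal.ofReal (‖deriv Ψ (p.1 + p.2 * I)‖ ^ 2) :=
      hmeas.comp (by fun_prop)
    exact h1.lintegral_prod_left'
  have hae := ae_lt_top hmeas2 hfin.ne
  rw [ae_restrict_iff' measurableSet_Ioo] at hae
  have hsub : ∀ θ : ℝ, θ ∈ Ioo 0 (2 * Real.pi) → (∫⁻ s in Ioo (-1 : ℝ) 0,
      ENNReal.ofReal (‖deriv Ψ (s + θ * I)‖ ^ 2) < ⊤) → ∃ x, RadLim φ θ x := by
    intro θ hθ hG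
    have hSline : ∀ s ∈ Ioo (-1 : ℝ) 0, (s + θ * I : ℂ) ∈ S := by
      intro s hs
      rw [hSmem]
      simp only [Complex.add_re, Complex.ofReal_re, Complex.mul_re, Complex.I_re, mul_zero,
        Complex.ofReal_im, Complex.I_im, mul_one, sub_self, add_zero, Complex.add_im,
        Complex.mul_im, zero_add]
      exact ⟨hs, hθ.1, hθ.2⟩
    have hline : ∀ t : ℝ, HasDerivAt (fun t : ℝ => (t : ℂ) + θ * I) 1 t := by
      intro t
      simpa using (Complex.ofRealCLM.hasDerivAt (x := t)).add_const ((θ : ℂ) * I)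
    obtain ⟨x, hx⟩ := M2_lim (g := fun s : ℝ => Ψ (s + θ * I))
      (D := fun s : ℝ => deriv Ψ (s + θ * I))
      (fun s hs => by
        have h1 := (hΨD _ (hSline s hs)).comp s (hline s)
        rw [mul_one] at h1
        exact h1)
      ((hΨd.deriv hSo).continuousOn.comp (by fun_prop) hSline) hG
    refine ⟨x, ?_⟩
    have hlog : Tendsto Real.log (𝓝[<] 1) (𝓝[<] 0) := by
      rw [← Real.log_one]
      refine tendsto_nhdsWithin_of_tendsto_nhds_of_eventually_within _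
        ((Real.continuousAt_log one_ne_zero).tendsto.mono_left nhdsWithin_le_nhds) ?_
      rw [Real.log_one]
      filter_upwards [Ioo_mem_nhdsLT (show (0 : ℝ) < 1 by norm_num)] with r hr
      exact Real.log_neg hr.1 hr.2
    refine (hx.comp hlog).congr' ?_
    filter_upwards [Ioo_mem_nhdsLT (show (0 : ℝ) < 1 by norm_num)] with r hr
    show Ψ (Real.log r + θ * I) = φ (pol r θ)
    rw [hΨ]
    show φ (exp (Real.log r + θ * I)) = φ (pol r θ)
    rw [Complex.exp_add, ← Complex.ofReal_exp, Real.exp_log hr.1]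
    rfl
  filter_upwards [hae] with θ hθ hmem
  exact hsub θ hmem (hθ hmem)

theorem radial_limits {φ : ℂ → ℂ} (h : Conf (ball 0 1) φ)
    (hb : Bornology.IsBounded (φ '' ball 0 1)) :
    ¬ {θ : ℝ | θ ∈ Ioo 0 (2 * Real.pi) ∧ ∃ x, RadLim φ θ x}.Countable := by
  intro hcount
  have hπ := Real.pi_pos
  have hnull : volume (Ioo (0 : ℝ) (2 * Real.pi)) = 0 := by
    have h1 : volume {θ : ℝ | θ ∈ Ioo 0 (2 * Real.pi) ∧ ∃ x, RadLim φ θ x} = 0 :=
      hcount.measure_zero volume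
    have h2 := radial_limits_ae h hb
    rw [ae_iff] at h2
    refine measure_mono_null (fun θ hθ => ?_) (measure_union_null h1 h2)
    by_cases hc : ∃ x, RadLim φ θ x
    · exact Or.inl ⟨hθ, hc⟩
    · refine Or.inr fun hcon => hc (hcon hθ)
  rw [Real.volume_Ioo, sub_zero, ENNReal.ofReal_eq_zero] at hnull
  linarith

end Pool.SiegelArc
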