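import Pool.Agent.Lib.MP_b59c01_an.Tools

/-!
# Area and length tools (from the module DE of `MP_cf6b16_an`)
-/

open Complex MeasureTheory Set Filter Topology Metric

namespace Pool.SiegelArc

theorem d1e_det (c : ℂ) :
    |((ContinuousLinearMap.toSpanSingleton ℂ c).restrictScalars ℝ : ℂ →L[ℝ] ℂ).det| = ‖c‖ ^ 2 := by
  have h1 : (((ContinuousLinearMap.toSpanSingleton ℂ c).restrictScalars ℝ : ℂ →L[ℝ] ℂ) :
      ℂ →ₗ[ℝ] ℂ) = Algebra.lmul ℝ ℂ c := by
    ext <;> simp [mul_comm]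
  have h2 : ((ContinuousLinearMap.toSpanSingleton ℂ c).restrictScalars ℝ : ℂ →L[ℝ] ℂ).det =
      normSq c := by
    rw [ContinuousLinearMap.det, h1, ← Algebra.norm_apply, Algebra.norm_complex_apply]
  rw [h2, abs_of_nonneg (normSq_nonneg _), normSq_eq_norm_sq]

theorem d1e_fubini (F : ℂ → ENNReal) (hF : Measurable F) (s1 : ℝ) :
    ∫⁻ ζ in {ζ : ℂ | ζ.re < s1 ∧ 0 < ζ.im ∧ ζ.im < Real.pi}, F ζ =
      ∫⁻ s in Iio s1, ∫⁻ θ in Ioo 0 Real.pi, F (s + θ * I) := by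
  have hmp := Complex.volume_preserving_equiv_real_prod.symm
  have h1 := hmp.setLIntegral_comp_preimage_emb (MeasurableEquiv.measurableEmbedding _) F
    {ζ : ℂ | ζ.re < s1 ∧ 0 < ζ.im ∧ ζ.im < Real.pi}
  have h2 : (Complex.measurableEquivRealProd.symm ⁻¹'
      {ζ : ℂ | ζ.re < s1 ∧ 0 < ζ.im ∧ ζ.im < Real.pi}) = Iio s1 ×ˢ Ioo 0 Real.pi := by
    ext ⟨a, b⟩
    rfl
  rw [← h1, h2, Measure.volume_eq_prod, ← Measure.prod_restrict, lintegral_prod]
  · refine lintegral_congr fun s => lintegral_congr fun θ => ?_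
    congr 1
    apply Complex.ext <;> simp [Complex.measurableEquivRealProd]
  · exact (hF.comp (MeasurableEquiv.measurable _)).aemeasurable

theorem d1e_small {G : ℝ → ENNReal} {s1 : ℝ} (hG : ∫⁻ s in Iio s1, G s < ⊤) {ε : ENNReal}
    (hε : ε ≠ 0) : ∃ s, s < s1 ∧ G s ≤ ε := by
  by_contra hcon
  push Not at hcon
  have h1 : ∫⁻ _ in Iio s1, ε ≤ ∫⁻ s in Iio s1, G s :=
    setLIntegral_mono' measurableSet_Iio fun s hs => (hcon s hs).le
  rw [setLIntegral_const, Real.volume_Iio, ENNReal.mul_top hε] at h1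
  exact absurd hG (not_lt.mpr h1)

theorem d1e_arc {D Ψ : ℂ → ℂ} {s δ θ θ' : ℝ} (hδ : 0 < δ)
    (hd : ∀ t ∈ Ioo (0 : ℝ) Real.pi, HasDerivAt Ψ (D (s + t * I)) (s + t * I))
    (hc : ContinuousOn (fun t : ℝ => D (s + t * I)) (Ioo 0 Real.pi))
    (hG : ∫⁻ t in Ioo 0 Real.pi, ENNReal.ofReal (‖D (s + t * I)‖ ^ 2) ≤
      ENNReal.ofReal (δ ^ 2 / Real.pi))
    (hθ : θ ∈ Ioo (0 : ℝ) Real.pi) (hθ' : θ' ∈ Ioo (0 : ℝ) Real.pi) (hle : θ ≤ θ') :
    ‖Ψ (s + θ' * I) - Ψ (s + θ * I)‖ ≤ δ := by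
  have hπ := Real.pi_pos
  have hsub : uIcc θ θ' ⊆ Ioo 0 Real.pi := by
    rw [uIcc_of_le hle]
    exact fun t ht => ⟨lt_of_lt_of_le hθ.1 ht.1, lt_of_le_of_lt ht.2 hθ'.2⟩
  have hc' : ContinuousOn (fun t : ℝ => D (s + t * I)) (uIcc θ θ') := hc.mono hsub
  have hline : ∀ t : ℝ, HasDerivAt (fun t : ℝ => (s : ℂ) + t * I) I t := by
    intro t
    have := ((Complex.ofRealCLM.hasDerivAt (x := t)).mul_const I).const_add (s : ℂ)
    simpa using this
  have h1 : ∫ t in θ..θ', D (s + t * I) * I = Ψ (s + θ' * I) - Ψ (s + θ * I) := by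
    refine intervalIntegral.integral_eq_sub_of_hasDerivAt
      (f := fun t : ℝ => Ψ (s + t * I)) ?_ (hc'.mul continuousOn_const).intervalIntegrable
    intro t ht
    exact (hd t (hsub ht)).comp t (hline t)
  rw [← h1]
  have h2 : ‖∫ t in θ..θ', D (s + t * I) * I‖ ≤ ∫ t in θ..θ', ‖D (s + t * I)‖ := by
    refine (intervalIntegral.norm_integral_le_integral_norm hle).trans (le_of_eq ?_)
    refine intervalIntegral.integral_congr fun t _ => ?_
    show ‖D (s + t * I) * I‖ = ‖D (s + t * I)‖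
    rw [norm_mul, Complex.norm_I, mul_one]
  have hi2 : IntervalIntegrable (fun t : ℝ => ‖D (s + t * I)‖ ^ 2) volume θ θ' :=
    (hc'.norm.pow 2).intervalIntegrable
  have h3 : ∫ t in θ..θ', ‖D (s + t * I)‖ ≤
      ∫ t in θ..θ', (Real.pi / (2 * δ) * ‖D (s + t * I)‖ ^ 2 + δ / (2 * Real.pi)) := by
    refine intervalIntegral.integral_mono_on hle hc'.norm.intervalIntegrable
      ((hi2.const_mul _).add intervalIntegrable_const) fun t _ => ?_
    have h4 : Real.pi / (2 * δ) * ‖D (s + t * I)‖ ^ 2 + δ / (2 * Real.pi) - ‖D (s + t * I)‖ =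
        (Real.pi * ‖D (s + t * I)‖ - δ) ^ 2 / (2 * δ * Real.pi) := by
      field_simp
      ring
    have h5 : 0 ≤ (Real.pi * ‖D (s + t * I)‖ - δ) ^ 2 / (2 * δ * Real.pi) := by positivity
    linarith
  have h4 : ∫ t in θ..θ', (Real.pi / (2 * δ) * ‖D (s + t * I)‖ ^ 2 + δ / (2 * Real.pi)) =
      Real.pi / (2 * δ) * (∫ t in θ..θ', ‖D (s + t * I)‖ ^ 2) +
        (θ' - θ) * (δ / (2 * Real.pi)) := by
    rw [intervalIntegral.integral_add (hi2.const_mul _) intervalIntegrable_const,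
      intervalIntegral.integral_const_mul, intervalIntegral.integral_const, smul_eq_mul]
  have h5 : ∫ t in θ..θ', ‖D (s + t * I)‖ ^ 2 ≤ δ ^ 2 / Real.pi := by
    rw [intervalIntegral.integral_of_le hle]
    have h6 : ENNReal.ofReal (∫ t in Ioc θ θ', ‖D (s + t * I)‖ ^ 2) =
        ∫⁻ t in Ioc θ θ', ENNReal.ofReal (‖D (s + t * I)‖ ^ 2) := by
      refine ofReal_integral_eq_lintegral_ofReal ?_ (Eventually.of_forall fun t => by positivity)
      exact (intervalIntegrable_iff_integrableOn_Ioc_of_le hle).mp hi2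
    have h7 : ∫⁻ t in Ioc θ θ', ENNReal.ofReal (‖D (s + t * I)‖ ^ 2) ≤
        ∫⁻ t in Ioo 0 Real.pi, ENNReal.ofReal (‖D (s + t * I)‖ ^ 2) :=
      lintegral_mono_set fun t ht => ⟨lt_trans hθ.1 ht.1, lt_of_le_of_lt ht.2 hθ'.2⟩
    rw [← h6] at h7
    exact (ENNReal.ofReal_le_ofReal_iff (by positivity)).mp (h7.trans hG)
  have h6 : Real.pi / (2 * δ) * (∫ t in θ..θ', ‖D (s + t * I)‖ ^ 2) ≤ δ / 2 := by
    calc Real.pi / (2 * δ) * (∫ t in θ..θ', ‖D (s + t * I)‖ ^ 2)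
        ≤ Real.pi / (2 * δ) * (δ ^ 2 / Real.pi) := mul_le_mul_of_nonneg_left h5 (by positivity)
      _ = δ / 2 := by field_simp
  have h7 : (θ' - θ) * (δ / (2 * Real.pi)) ≤ δ / 2 := by
    calc (θ' - θ) * (δ / (2 * Real.pi)) ≤ Real.pi * (δ / (2 * Real.pi)) :=
          mul_le_mul_of_nonneg_right (by linarith [hθ.1, hθ'.2]) (by positivity)
      _ = δ / 2 := by field_simp
  linarith

theorem d1e_log {v : ℂ} (hv : 0 < v.im) :
    exp (log v) = v ∧ (log v).re = Real.log ‖v‖ ∧ 0 < (log v).im ∧ (log v).im < Real.pi := by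
  have hv0 : v ≠ 0 := by
    rintro rfl
    simp at hv
  refine ⟨exp_log hv0, Complex.log_re v, ?_, ?_⟩
  · rw [Complex.log_im]
    refine lt_of_le_of_ne (Complex.arg_nonneg_iff.mpr hv.le) fun h => ?_
    exact hv.ne' (Complex.arg_eq_zero_iff.mp h.symm).2
  · rw [Complex.log_im, Complex.arg_lt_pi_iff]
    exact Or.inr hv.ne'

end Pool.SiegelArc
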