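import Pool.Agent.Lib.MP_b59c01_an.C3

/-!
# MP_b59c01_an, row N6a
-/

open Complex MeasureTheory Set Filter Topology Metric

namespace Pool.SiegelArc

theorem N6a_exp (a : ℝ) : Complex.exp (-(a : ℂ) * I) * Complex.exp ((a : ℂ) * I) = 1 := by
  rw [← Complex.exp_add]
  simp

/-- the polar form of `-(pol 1 θ) * exp (-a I)` -/
theorem N6a_val {θ a : ℝ} (h1 : a < θ) (h2 : θ < a + 2 * Real.pi) :
    -(pol 1 θ) * Complex.exp (-(a : ℂ) * I) = Complex.exp ((θ - a - Real.pi : ℝ) * I) ∧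
      Complex.arg (-(pol 1 θ) * Complex.exp (-(a : ℂ) * I)) = θ - a - Real.pi := by
  have h3 : -(pol 1 θ) * Complex.exp (-(a : ℂ) * I) =
      Complex.exp ((θ - a - Real.pi : ℝ) * I) := by
    unfold pol
    have h4 : ((θ - a - Real.pi : ℝ) : ℂ) * I = θ * I + (-(a : ℂ) * I) - Real.pi * I := by
      push_cast
      ring
    rw [h4, Complex.exp_sub, Complex.exp_add, Complex.exp_pi_mul_I, Complex.ofReal_one]
    ring
  refine ⟨h3, ?_⟩
  rw [h3, ← Complex.log_im, Complex.log_exp]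
  · simp
  · simp
    linarith
  · simp
    linarith

theorem sector_trap {δ : ℝ → ℂ} {t0 : ℝ} (ht0 : t0 < 1) (hδ : ContinuousOn δ (Ioo t0 1))
    (hne : ∀ t ∈ Ioo t0 1, δ t ≠ 0) {θ₁ θ₂ a b : ℝ} (h1 : θ₁ < a) (h2 : a < θ₂) (h3 : θ₂ < b)
    (h4 : b < θ₁ + 2 * Real.pi) (ha : ∀ t ∈ Ioo t0 1, ∀ ρ > 0, δ t ≠ pol ρ a)
    (hb : ∀ t ∈ Ioo t0 1, ∀ ρ > 0, δ t ≠ pol ρ b) (hc1 : MapClusterPt (pol 1 θ₁) (𝓝[<] 1) δ)
    (hc2 : MapClusterPt (pol 1 θ₂) (𝓝[<] 1) δ) : False := by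
  have hπ := Real.pi_pos
  obtain ⟨w, hw⟩ : ∃ w : ℂ → ℂ, w = fun z => -z * Complex.exp (-(a : ℂ) * I) := ⟨_, rfl⟩
  have hwc : Continuous w := by
    rw [hw]
    fun_prop
  have hinv : ∀ z, z = -(w z) * Complex.exp ((a : ℂ) * I) := by
    intro z
    rw [hw]
    show z = -(-z * Complex.exp (-(a : ℂ) * I)) * Complex.exp ((a : ℂ) * I)
    linear_combination (-z) * N6a_exp a
  obtain ⟨f, hf⟩ : ∃ f : ℝ → ℝ, f = fun t => Complex.arg (w (δ t)) := ⟨_, rfl⟩
  have hw0 : ∀ t ∈ Ioo t0 1, w (δ t) ≠ 0 := by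
    intro t ht h0
    have h5 := hinv (δ t)
    rw [h0] at h5
    apply hne t ht
    rw [h5]
    simp
  have hslit : ∀ t ∈ Ioo t0 1, w (δ t) ∈ slitPlane := by
    intro t ht
    by_contra hcon
    rw [Complex.mem_slitPlane_iff, not_or, not_lt, not_not] at hcon
    obtain ⟨c1, c2⟩ := hcon
    have c3 : w (δ t) = ((w (δ t)).re : ℂ) := by
      apply Complex.ext
      · simp
      · simp [c2]
    have c4 : (w (δ t)).re ≠ 0 := by
      intro h0
      apply hw0 t ht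
      rw [c3, h0, Complex.ofReal_zero]
    refine ha t ht (-(w (δ t)).re) (by
      rcases lt_or_eq_of_le c1 with c5 | c5
      · linarith
      · exact absurd c5 c4) ?_
    unfold pol
    rw [Complex.ofReal_neg, ← c3]
    exact hinv (δ t)
  have hfc : ContinuousOn f (Ioo t0 1) := by
    rw [hf]
    intro t ht
    have h5 : ContinuousAt Complex.arg (w (δ t)) := Complex.continuousAt_arg (hslit t ht)
    exact ContinuousAt.comp_continuousWithinAt (f := fun t => w (δ t)) h5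
      (hwc.continuousAt.comp_continuousWithinAt (hδ t ht))
  have hfne : ∀ t ∈ Ioo t0 1, f t ≠ b - a - Real.pi := by
    intro t ht h0
    refine hb t ht ‖w (δ t)‖ (norm_pos_iff.mpr (hw0 t ht)) ?_
    have h5 : (‖w (δ t)‖ : ℂ) * Complex.exp (((b - a - Real.pi : ℝ) : ℂ) * I) = w (δ t) := by
      rw [hf] at h0
      have h0' : Complex.arg (w (δ t)) = b - a - Real.pi := h0
      rw [← h0', Complex.norm_mul_exp_arg_mul_I]
    have h6 : ((b - a - Real.pi : ℝ) : ℂ) * I = b * I - (a : ℂ) * I - Real.pi * I := by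
      push_cast
      ring
    rw [h6, Complex.exp_sub, Complex.exp_sub, Complex.exp_pi_mul_I] at h5
    have h7 : Complex.exp ((a : ℂ) * I) ≠ 0 := Complex.exp_ne_zero _
    unfold pol
    calc δ t = -(w (δ t)) * Complex.exp ((a : ℂ) * I) := hinv (δ t)
      _ = -((‖w (δ t)‖ : ℂ) * (Complex.exp ((b : ℂ) * I) / Complex.exp ((a : ℂ) * I) / -1)) *
          Complex.exp ((a : ℂ) * I) := by rw [h5]
      _ = (‖w (δ t)‖ : ℂ) * Complex.exp ((b : ℂ) * I) := by
          field_simp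
  have hdich : (∀ t ∈ Ioo t0 1, f t < b - a - Real.pi) ∨ ∀ t ∈ Ioo t0 1, b - a - Real.pi < f t := by
    by_contra hcon
    push Not at hcon
    obtain ⟨⟨t, ht, ht'⟩, s, hs, hs'⟩ := hcon
    have h5 : IsPreconnected (f '' Ioo t0 1) := isPreconnected_Ioo.image f hfc
    have h6 := h5.ordConnected.out ⟨s, hs, rfl⟩ ⟨t, ht, rfl⟩ ⟨hs', ht'⟩
    obtain ⟨r, hr, hr'⟩ := h6
    exact hfne r hr hr'
  have hcl : ∀ θ : ℝ, a < θ → θ < a + 2 * Real.pi → MapClusterPt (pol 1 θ) (𝓝[<] 1) δ →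
      ∀ u : Set ℝ, IsOpen u → θ - a - Real.pi ∈ u → ∃ t ∈ Ioo t0 1, f t ∈ u := by
    intro θ hθ1 hθ2 hcl u hu hmem
    obtain ⟨v1, v2⟩ := N6a_val hθ1 hθ2
    have hval : Complex.arg (w (pol 1 θ)) = θ - a - Real.pi := by rw [hw]; exact v2
    have hs : w (pol 1 θ) ∈ slitPlane := by
      rw [Complex.mem_slitPlane_iff_arg]
      refine ⟨?_, ?_⟩
      · rw [hval]
        intro h0
        linarith
      · rw [hw]
        show -(pol 1 θ) * Complex.exp (-(a : ℂ) * I) ≠ 0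
        rw [v1]
        exact Complex.exp_ne_zero _
    have hcat : ContinuousAt (fun z => Complex.arg (w z)) (pol 1 θ) := by
      have h5 : ContinuousAt Complex.arg (w (pol 1 θ)) := Complex.continuousAt_arg hs
      exact ContinuousAt.comp (f := w) h5 hwc.continuousAt
    have h6 : ∀ᶠ z in 𝓝 (pol 1 θ), Complex.arg (w z) ∈ u := by
      refine hcat.eventually (hu.mem_nhds ?_)
      show Complex.arg (w (pol 1 θ)) ∈ u
      rw [hval]
      exact hmem
    have h7 : ∃ᶠ t in 𝓝[<] (1 : ℝ), Complex.arg (w (δ t)) ∈ u := hcl.frequently h6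
    have h8 : ∀ᶠ t in 𝓝[<] (1 : ℝ), t ∈ Ioo t0 1 := Ioo_mem_nhdsLT ht0
    obtain ⟨t, ht1, ht2⟩ := (h7.and_eventually h8).exists
    exact ⟨t, ht2, by rw [hf]; exact ht1⟩
  have hper : pol 1 θ₁ = pol 1 (θ₁ + 2 * Real.pi) := by
    unfold pol
    rw [Complex.ofReal_add, add_mul, Complex.exp_add]
    push_cast
    rw [Complex.exp_two_pi_mul_I, mul_one]
  rw [hper] at hc1
  obtain ⟨t, ht, ht'⟩ := hcl θ₂ h2 (by linarith) hc2 (Iio (b - a - Real.pi)) isOpen_Iio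
    (by show θ₂ - a - Real.pi < b - a - Real.pi; linarith)
  obtain ⟨s, hs, hs'⟩ := hcl (θ₁ + 2 * Real.pi) (by linarith) (by linarith) hc1
    (Ioi (b - a - Real.pi)) isOpen_Ioi
    (by show b - a - Real.pi < θ₁ + 2 * Real.pi - a - Real.pi; linarith)
  rcases hdich with h5 | h5
  · exact lt_asymm (h5 s hs) hs'
  · exact lt_asymm (h5 t ht) ht'

end Pool.SiegelArc
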