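import Pool.Agent.Lib.MP_b59c01_an.M2
import Pool.Agent.Lib.MP_b59c01_an.G2
import Pool.Agent.Lib.MP_b59c01_an.N6a

/-!
# MP_b59c01_an, row N6b
-/

open Complex MeasureTheory Set Filter Topology Metric

namespace Pool.SiegelArc

theorem N6b_pol_period (r θ : ℝ) (k : ℤ) : pol r (θ + k • (2 * Real.pi)) = pol r θ := by
  unfold pol
  have h1 : ((θ + k • (2 * Real.pi) : ℝ) : ℂ) * I = θ * I + k * (2 * Real.pi * I) := by
    push_cast [zsmul_eq_mul]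
    ring
  rw [h1, Complex.exp_add, Complex.exp_int_mul_two_pi_mul_I, mul_one]

theorem N6b_exists_pol {ζ : ℂ} (hζ : ‖ζ‖ = 1) (a : ℝ) :
    ∃ θ, a ≤ θ ∧ θ < a + 2 * Real.pi ∧ ζ = pol 1 θ := by
  obtain ⟨n, hn, -⟩ := existsUnique_add_zsmul_mem_Ico Real.two_pi_pos (Complex.arg ζ) a
  refine ⟨Complex.arg ζ + n • (2 * Real.pi), hn.1, hn.2, ?_⟩
  rw [N6b_pol_period]
  unfold pol
  have h2 := Complex.norm_mul_exp_arg_mul_I ζ
  rw [hζ] at h2
  exact h2.symm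

/-- PROOF: `radial_limits_ae` (the file `M2`: for almost every `θ ∈ Ioo 0 (2 π)` there is a radial limit) and periodicity
(`pol r (θ + k * (2 π)) = pol r θ` for `k : ℤ`): choose `k` with `a + k * (2 π) ∈ Ico 0 (2 π)`; the interval
`Ioo (a + 2 π k) (min (b + 2 π k) (2 π))` is nonempty, so it has positive measure. -/
theorem radial_dense {φ : ℂ → ℂ} (h : Conf (ball 0 1) φ)
    (hb : Bornology.IsBounded (φ '' ball 0 1)) {a b : ℝ} (hab : a < b) :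
    ∃ θ ∈ Ioo a b, ∃ x, RadLim φ θ x := by
  obtain ⟨k, hk, -⟩ := existsUnique_add_zsmul_mem_Ico Real.two_pi_pos a 0
  rw [zero_add] at hk
  have hae := radial_limits_ae h hb
  have hd := MeasureTheory.Measure.dense_of_ae hae
  have hne : (Ioo (a + k • (2 * Real.pi)) (min (b + k • (2 * Real.pi)) (2 * Real.pi))).Nonempty := by
    rw [nonempty_Ioo]
    exact lt_min (by linarith) hk.2
  obtain ⟨θ, hθ, hθI⟩ := hd.exists_mem_open isOpen_Ioo hne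
  have h1 : θ < b + k • (2 * Real.pi) := lt_of_lt_of_le hθI.2 (min_le_left _ _)
  have h2 : θ < 2 * Real.pi := lt_of_lt_of_le hθI.2 (min_le_right _ _)
  obtain ⟨x, hx⟩ := hθ ⟨lt_of_le_of_lt hk.1 hθI.1, h2⟩
  refine ⟨θ - k • (2 * Real.pi), ⟨by linarith [hθI.1], by linarith⟩, x, ?_⟩
  have h3 : ∀ r : ℝ, pol r (θ - k • (2 * Real.pi)) = pol r θ := by
    intro r
    have := N6b_pol_period r (θ - k • (2 * Real.pi)) k
    rw [sub_add_cancel] at this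
    exact this.symm
  unfold RadLim
  simp only [h3]
  exact hx

theorem N6b_pick {φ : ℂ → ℂ} {J Ω : Set ℂ} (h : Conf (ball 0 1) φ)
    (hb : Bornology.IsBounded (φ '' ball 0 1)) (hS : Surround (φ '' ball 0 1) J Ω) (x : ℂ)
    {u v : ℝ} (huv : u < v) (hvu : v ≤ u + 2 * Real.pi) :
    ∃ a ∈ Ioo u v, ∃ y, y ≠ x ∧ RadLim φ a y := by
  obtain ⟨a1, ha1, x1, h1⟩ := radial_dense h hb (show u < (u + v) / 2 by linarith)
  obtain ⟨a2, ha2, x2, h2⟩ := radial_dense h hb (show (u + v) / 2 < v by linarith)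
  by_cases e1 : x1 = x
  · by_cases e2 : x2 = x
    · exfalso
      rw [e1] at h1
      rw [e2] at h2
      exact radLim_injective h hb hS (ha1.2.trans ha2.1) (by linarith [ha1.1, ha2.2]) h1 h2
    · exact ⟨a2, ⟨by linarith [ha2.1], ha2.2⟩, x2, e2, h2⟩
  · exact ⟨a1, ⟨ha1.1, by linarith [ha1.2]⟩, x1, e1, h1⟩

theorem N6b_avoid {φ : ℂ → ℂ} {δ : ℝ → ℂ}
    (hU : ∀ t ∈ Ico (0 : ℝ) 1, δ t ∈ ball (0 : ℂ) 1)
    (h1 : Tendsto (fun t => ‖δ t‖) (𝓝[<] 1) (𝓝 1)) {x : ℂ}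
    (hx : Tendsto (fun t => φ (δ t)) (𝓝[<] 1) (𝓝 x)) {a : ℝ} {y : ℂ} (hy : y ≠ x)
    (ha : RadLim φ a y) : ∀ᶠ t in 𝓝[<] (1 : ℝ), ∀ ρ > 0, δ t ≠ pol ρ a := by
  by_contra hcon
  rw [not_eventually] at hcon
  have hIco : ∀ᶠ t in 𝓝[<] (1 : ℝ), t ∈ Ico (0 : ℝ) 1 := by
    filter_upwards [Ioo_mem_nhdsLT (show (0 : ℝ) < 1 by norm_num)] with t ht using
      ⟨ht.1.le, ht.2⟩
  have h2 : Tendsto (fun t => ‖δ t‖) (𝓝[<] 1) (𝓝[<] 1) := by
    rw [tendsto_nhdsWithin_iff]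
    refine ⟨h1, ?_⟩
    filter_upwards [hIco] with t ht
    have := hU t ht
    rwa [mem_ball_zero_iff] at this
  have h3 : Tendsto (fun t => φ (pol ‖δ t‖ a)) (𝓝[<] 1) (𝓝 y) := ha.comp h2
  apply hy
  refine tendsto_nhds_unique_of_frequently_eq h3 hx ?_
  refine hcon.mono fun t ht => ?_
  push Not at ht
  obtain ⟨ρ, hρ, hρe⟩ := ht
  have h4 : ‖δ t‖ = ρ := by rw [hρe, C3_norm_pol, abs_of_pos hρ]
  rw [h4, ← hρe]

/-- PROOF: the path has values in the compact set `closedBall 0 1`, so it has a cluster value, of norm `1` (`h1`), i.e.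
`pol 1 θ₁`. If `δ` does not tend to it, there is another cluster value (`IsCompact.tendsto_nhds_of_unique_mapClusterPt`), also
of norm `1`, `pol 1 θ₂` with `θ₁ < θ₂ < θ₁ + 2 π`. In each of the intervals `Ioo θ₁ θ₂` and `Ioo θ₂ (θ₁ + 2 π)` choose an angle with a
radial limit different from `x`: `radial_dense` in the two halves of the interval gives two angles with radial limits, which are
different by `radLim_injective`. Let `a`, `b` be these angles. If `δ t = pol ρ a` for `t` arbitrarily close to `1` (frequently in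
`𝓝[<] 1`), then there `ρ = ‖δ t‖ → 1`, so `φ (δ t) = φ (pol ‖δ t‖ a)` tends to the radial limit and to `x` along this filter: a
contradiction. So near `1` the path avoids the two rays, and `0` as `‖δ t‖ → 1`. `sector_trap`. -/
theorem path_end {φ : ℂ → ℂ} {J Ω : Set ℂ} (h : Conf (ball 0 1) φ)
    (hb : Bornology.IsBounded (φ '' ball 0 1)) (hS : Surround (φ '' ball 0 1) J Ω) {δ : ℝ → ℂ}
    (hδ : ContinuousOn δ (Ico 0 1)) (hU : ∀ t ∈ Ico (0 : ℝ) 1, δ t ∈ ball (0 : ℂ) 1)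
    (h1 : Tendsto (fun t => ‖δ t‖) (𝓝[<] 1) (𝓝 1)) {x : ℂ}
    (hx : Tendsto (fun t => φ (δ t)) (𝓝[<] 1) (𝓝 x)) :
    ∃ θ : ℝ, Tendsto δ (𝓝[<] 1) (𝓝 (pol 1 θ)) := by
  have hcomp : IsCompact (closedBall (0 : ℂ) 1) := isCompact_closedBall 0 1
  have hIco : ∀ᶠ t in 𝓝[<] (1 : ℝ), t ∈ Ico (0 : ℝ) 1 := by
    filter_upwards [Ioo_mem_nhdsLT (show (0 : ℝ) < 1 by norm_num)] with t ht using
      ⟨ht.1.le, ht.2⟩
  have hmem : ∀ᶠ t in 𝓝[<] (1 : ℝ), δ t ∈ closedBall (0 : ℂ) 1 := by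
    filter_upwards [hIco] with t ht using ball_subset_closedBall (hU t ht)
  have hnorm : ∀ y : ℂ, MapClusterPt y (𝓝[<] (1 : ℝ)) δ → ‖y‖ = 1 := by
    intro y hy
    have h2 : MapClusterPt ‖y‖ (𝓝[<] (1 : ℝ)) (norm ∘ δ) :=
      hy.continuousAt_comp continuous_norm.continuousAt
    have h3 : ClusterPt ‖y‖ (𝓝 (1 : ℝ)) := ClusterPt.mono h2 h1
    exact eq_of_nhds_neBot h3
  obtain ⟨y, hyB, hy⟩ := hcomp.exists_mapClusterPt_of_frequently hmem.frequently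
  obtain ⟨θ₁, -, -, hθ₁⟩ := N6b_exists_pol (hnorm y hy) 0
  refine ⟨θ₁, ?_⟩
  rw [← hθ₁]
  apply hcomp.tendsto_nhds_of_unique_mapClusterPt hmem
  intro z hzB hz
  by_contra hzy
  obtain ⟨θ₂, hθ2a, hθ2b, hθ₂⟩ := N6b_exists_pol (hnorm z hz) θ₁
  have hlt : θ₁ < θ₂ := by
    rcases hθ2a.lt_or_eq with h' | h'
    · exact h'
    · exfalso
      apply hzy
      rw [hθ₁, hθ₂, h']
  obtain ⟨a, ha, ya, hya, hRa⟩ := N6b_pick h hb hS x hlt hθ2b.le
  obtain ⟨b, hb', yb, hyb, hRb⟩ := N6b_pick h hb hS x (show θ₂ < θ₁ + 2 * Real.pi from hθ2b)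
    (by linarith)
  have e1 := N6b_avoid hU h1 hx hya hRa
  have e2 := N6b_avoid hU h1 hx hyb hRb
  have e3 : ∀ᶠ t in 𝓝[<] (1 : ℝ), δ t ≠ 0 := by
    have := h1.eventually (eventually_gt_nhds (show (0 : ℝ) < 1 by norm_num))
    filter_upwards [this] with t ht
    exact norm_pos_iff.mp ht
  have hall := (e1.and e2).and (e3.and hIco)
  obtain ⟨t0, ht0, hsub⟩ := mem_nhdsLT_iff_exists_Ioo_subset.mp hall
  refine sector_trap (δ := δ) ht0 (hδ.mono ?_) (fun t ht => (hsub ht).2.1) ha.1 ha.2 hb'.1 hb'.2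
    (fun t ht => (hsub ht).1.1) (fun t ht => (hsub ht).1.2) (hθ₁ ▸ hy) (hθ₂ ▸ hz)
  intro t ht
  exact (hsub ht).2.2

end Pool.SiegelArc
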