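import Pool.Agent.Lib.MP_b59c01_an.N5
import Pool.Agent.Lib.MP_b59c01_an.N6b

/-!
# MP_b59c01_an, row N7
-/

open Complex MeasureTheory Set Filter Topology Metric

namespace Pool.SiegelArc

/-- PROOF: let `γ` be the path of `Accessible` and `g` the inverse of `φ` (`univ_inverse`), `δ t = g (γ t)`, continuous on
`Ico 0 1` with values in the ball and `φ (δ t) = γ t → x` as `t → 1-`. `‖δ t‖ → 1`: otherwise `δ` has a cluster value `u` with
`‖u‖ < 1` (values in a compact set `closedBall 0 r`, `r < 1`, frequently), so `φ u = x` by continuity of `φ` at `u`, but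
`x` is in the frontier of the open set `φ '' ball 0 1` (`univ_open`), hence not in it. `path_end` and `lindelof`. -/
theorem accessible_radLim {φ : ℂ → ℂ} {J Ω : Set ℂ} (h : Conf (ball 0 1) φ)
    (hb : Bornology.IsBounded (φ '' ball 0 1)) (hS : Surround (φ '' ball 0 1) J Ω) {x : ℂ}
    (hx : Accessible (φ '' ball 0 1) x) : ∃ θ : ℝ, RadLim φ θ x := by
  obtain ⟨hxf, γ, hγ, hγ1, hγS⟩ := hx
  obtain ⟨g, hg, hgl, hgr⟩ := univ_inverse h.opn h.diff h.inj
  have hopen : IsOpen (φ '' ball 0 1) := univ_open h.opn Subset.rfl h.opn h.diff h.inj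
  have hδ : ContinuousOn (fun t => g (γ t)) (Ico 0 1) :=
    hg.continuousOn.comp (hγ.mono Ico_subset_Icc_self) hγS
  have hU : ∀ t ∈ Ico (0 : ℝ) 1, g (γ t) ∈ ball (0 : ℂ) 1 := fun t ht => (hgr _ (hγS t ht)).1
  have hev : ∀ᶠ t in 𝓝[<] (1 : ℝ), t ∈ Ico (0 : ℝ) 1 := Ico_mem_nhdsLT zero_lt_one
  have hγt : Tendsto γ (𝓝[<] 1) (𝓝 x) := by
    have h1 : ContinuousWithinAt γ (Icc 0 1) 1 := hγ 1 ⟨zero_le_one, le_rfl⟩
    have h2 : Tendsto γ (𝓝[Icc 0 1] 1) (𝓝 (γ 1)) := h1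
    rw [hγ1] at h2
    refine h2.mono_left (nhdsWithin_le_iff.mpr ?_)
    filter_upwards [hev] with t ht
    exact ⟨ht.1, ht.2.le⟩
  have hφt : Tendsto (fun t => φ (g (γ t))) (𝓝[<] 1) (𝓝 x) := by
    refine hγt.congr' ?_
    filter_upwards [hev] with t ht
    exact (hgr _ (hγS t ht)).2.symm
  have hnorm : Tendsto (fun t => ‖g (γ t)‖) (𝓝[<] 1) (𝓝 1) := by
    rw [Metric.tendsto_nhds]
    intro ε hε
    by_contra hcon
    have hfr : ∃ᶠ t in 𝓝[<] (1 : ℝ), g (γ t) ∈ closedBall (0 : ℂ) (1 - ε) := by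
      rw [Filter.not_eventually] at hcon
      refine (hcon.and_eventually hev).mono ?_
      rintro t ⟨h1, h2⟩
      have h3 : ‖g (γ t)‖ < 1 := mem_ball_zero_iff.mp (hU t h2)
      rw [Real.dist_eq, abs_of_neg (by linarith)] at h1
      rw [mem_closedBall_zero_iff]
      linarith
    obtain ⟨u, hu, hcl⟩ := (isCompact_closedBall (0 : ℂ) (1 - ε)).exists_mapClusterPt_of_frequently
      hfr
    have hu1 : u ∈ ball (0 : ℂ) 1 := by
      rw [mem_closedBall_zero_iff] at hu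
      rw [mem_ball_zero_iff]
      linarith
    have hc : ContinuousAt φ u := (h.diff.differentiableAt (h.opn.mem_nhds hu1)).continuousAt
    have hcl2 : MapClusterPt (φ u) (𝓝[<] 1) (φ ∘ fun t => g (γ t)) := hcl.continuousAt_comp hc
    have hφu : φ u = x := by
      have h3 : (𝓝 (φ u) ⊓ 𝓝 x).NeBot := by
        have h4 : (𝓝 (φ u) ⊓ map (φ ∘ fun t => g (γ t)) (𝓝[<] 1)).NeBot := hcl2
        exact h4.mono (inf_le_inf_left _ hφt)
      exact eq_of_nhds_neBot h3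
    rw [hopen.frontier_eq] at hxf
    exact hxf.2 ⟨u, hu1, hφu⟩
  obtain ⟨θ, hθ⟩ := path_end h hb hS hδ hU hnorm hφt
  exact ⟨θ, lindelof h hb hδ hU hθ hφt⟩

end Pool.SiegelArc
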