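import Pool.Agent.Lib.MP_b59c01_an.D3
import Pool.Agent.Lib.MP_b59c01_an.M2
import Pool.Agent.Lib.MP_b59c01_an.E4
import Pool.Agent.Lib.MP_b59c01_an.G2
import Pool.Agent.Lib.MP_b59c01_an.G3
import Pool.Agent.Lib.MP_b59c01_an.G4
import Pool.Agent.Lib.MP_b59c01_an.G5
import Pool.Agent.Lib.MP_b59c01_an.N7
import Pool.Agent.Lib.MP_b59c01_an.Local

/-!
# MP_b59c01_an: assembly
-/

open Complex MeasureTheory Set Filter Topology Metric

namespace Pool.SiegelArc

theorem pol_norm (θ : ℝ) : ‖pol 1 θ‖ = 1 := by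
  unfold pol
  rw [norm_mul, Complex.norm_exp_ofReal_mul_I]
  simp

/-- every unit vector is `pol 1 θ` with `θ` in a given half open interval of length `2 π` -/
theorem exists_pol {ζ : ℂ} (hζ : ‖ζ‖ = 1) (a : ℝ) :
    ∃ θ, a ≤ θ ∧ θ < a + 2 * Real.pi ∧ ζ = pol 1 θ := by
  obtain ⟨n, hn, -⟩ := existsUnique_add_zsmul_mem_Ico Real.two_pi_pos (Complex.arg ζ) a
  refine ⟨Complex.arg ζ + n • (2 * Real.pi), hn.1, hn.2, ?_⟩
  unfold pol
  have h1 : ((Complex.arg ζ + n • (2 * Real.pi) : ℝ) : ℂ) * I =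
      Complex.arg ζ * I + n * (2 * Real.pi * I) := by
    push_cast [zsmul_eq_mul]
    ring
  rw [h1, Complex.exp_add, Complex.exp_int_mul_two_pi_mul_I, mul_one]
  have h2 := Complex.norm_mul_exp_arg_mul_I ζ
  rw [hζ] at h2
  exact h2.symm

theorem conf_of_linearization {c : ℂ} {α : ℝ} {S : Set ℂ} {φ : ℂ → ℂ}
    (hL : IsLinearization c α S φ) : Conf (ball 0 1) φ :=
  ⟨isOpen_ball, hL.1, hL.2.1⟩

/-- two radial limits joined by an arc in the Julia set: Jordan curve -/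
theorem jordan_of_joined {c : ℂ} {α : ℝ} {S : Set ℂ} (h : IsSiegelDisk c α S) {φ : ℂ → ℂ}
    (hL : IsLinearization c α S φ) {θ₁ θ₂ : ℝ} (h12 : θ₁ < θ₂) (h21 : θ₂ < θ₁ + 2 * Real.pi)
    {x₁ x₂ : ℂ} (h₁ : RadLim φ θ₁ x₁) (h₂ : RadLim φ θ₂ x₂)
    (hj : ArcJoined (julia c) x₁ x₂) : IsJordanCurve (frontier S) := by
  obtain ⟨hS, hSo, hSb⟩ := surround_of_siegel h
  have hC := conf_of_linearization hL
  obtain ⟨A, hA, hAi, hA0, hA1, hAJ⟩ := hj
  have hSφ : φ '' ball 0 1 = S := hL.2.2.1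
  rw [← hSφ] at hS hSb ⊢
  have hlim : ∀ ζ : ℂ, ‖ζ‖ = 1 → ∃ p, Tendsto φ (𝓝[ball 0 1] ζ) (𝓝 p) := by
    have key : ∀ a b : ℝ, a < b → (∀ θ ∈ Ioo a b, ∀ p,
        MapClusterPt p (𝓝[ball 0 1] (pol 1 θ)) φ → p ∈ A '' Icc 0 1) →
        ∀ ζ : ℂ, ‖ζ‖ = 1 → ∃ p, Tendsto φ (𝓝[ball 0 1] ζ) (𝓝 p) := by
      intro a b hab hcl ζ hζ
      have hext := extend_disc hC hSb hA hAi
        (fun t ht hmem => (Set.disjoint_left.1 hS.js) (hAJ t ht) hmem) hcl
      obtain ⟨n, θ, hθ, rfl⟩ := rotation_dense h.1 hab hζ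
      obtain ⟨p, hp⟩ := hext θ hθ
      exact extend_rotate hL hp n
    rcases sector_alternative hC hS h12 h21 hA hAJ (by rw [hA0]; exact h₁)
      (by rw [hA1]; exact h₂) with h3 | h3
    · exact key _ _ h12 h3
    · exact key _ _ (by linarith) h3
  refine jordan_of_extension hC hlim ?_
  intro ζ₁ ζ₂ p hζ₁ hζ₂ hp₁ hp₂
  by_contra hne
  obtain ⟨a, -, -, rfl⟩ := exists_pol hζ₁ 0
  obtain ⟨b, hb1, hb2, rfl⟩ := exists_pol hζ₂ a
  rcases hb1.lt_or_eq with hb3 | hb3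
  · exact radLim_injective hC hSb hS hb3 hb2 (radLim_of_tendsto hp₁) (radLim_of_tendsto hp₂)
  · exact hne (by rw [hb3])

/-- two accessible points joined by an arc in the Julia set: Jordan curve -/
theorem jordan_of_accessible {c : ℂ} {α : ℝ} {S : Set ℂ} (h : IsSiegelDisk c α S) {x y : ℂ}
    (hx : Accessible S x) (hy : Accessible S y) (hxy : x ≠ y) (hj : ArcJoined (julia c) x y) :
    IsJordanCurve (frontier S) := by
  obtain ⟨φ, hL⟩ := h.2.2
  obtain ⟨hS, hSo, hSb⟩ := surround_of_siegel h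
  have hC := conf_of_linearization hL
  have hSφ : φ '' ball 0 1 = S := hL.2.2.1
  have hSb' : Bornology.IsBounded (φ '' ball 0 1) := by rw [hSφ]; exact hSb
  have hS' : Surround (φ '' ball 0 1) (julia c) (filled c)ᶜ := by rw [hSφ]; exact hS
  obtain ⟨θ₁, h₁⟩ := accessible_radLim hC hSb' hS' (x := x) (by rw [hSφ]; exact hx)
  obtain ⟨θ₂, h₂⟩ := accessible_radLim hC hSb' hS' (x := y) (by rw [hSφ]; exact hy)
  obtain ⟨n, hn, -⟩ := existsUnique_add_zsmul_mem_Ico Real.two_pi_pos θ₂ θ₁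
  have h₂' : RadLim φ (θ₂ + n • (2 * Real.pi)) y := by
    have hp : ∀ r : ℝ, pol r (θ₂ + n • (2 * Real.pi)) = pol r θ₂ := by
      intro r
      unfold pol
      have h1 : ((θ₂ + n • (2 * Real.pi) : ℝ) : ℂ) * I = θ₂ * I + n * (2 * Real.pi * I) := by
        push_cast [zsmul_eq_mul]
        ring
      rw [h1, Complex.exp_add, Complex.exp_int_mul_two_pi_mul_I, mul_one]
    unfold RadLim
    simp only [hp]
    exact h₂
  rcases hn.1.lt_or_eq with hlt | heq
  · exact jordan_of_joined h hL hlt hn.2 h₁ h₂' hj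
  · rw [← heq] at h₂'
    exact (hxy (tendsto_nhds_unique h₁ h₂')).elim

theorem accessible_uncountable {c : ℂ} {α : ℝ} {S : Set ℂ} (h : IsSiegelDisk c α S) :
    ¬ {x | Accessible S x}.Countable := by
  intro hcount
  obtain ⟨φ, hL⟩ := h.2.2
  obtain ⟨hS, hSo, hSb⟩ := surround_of_siegel h
  have hC := conf_of_linearization hL
  have hSφ : φ '' ball 0 1 = S := hL.2.2.1
  have hSb' : Bornology.IsBounded (φ '' ball 0 1) := by rw [hSφ]; exact hSb
  have hS' : Surround (φ '' ball 0 1) (julia c) (filled c)ᶜ := by rw [hSφ]; exact hS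
  apply radial_limits hC hSb'
  choose! g hg using fun θ (hθ : θ ∈ {θ : ℝ | θ ∈ Ioo 0 (2 * Real.pi) ∧ ∃ x, RadLim φ θ x}) => hθ.2
  have hmaps : MapsTo g {θ : ℝ | θ ∈ Ioo 0 (2 * Real.pi) ∧ ∃ x, RadLim φ θ x}
      {x | Accessible S x} := by
    intro θ hθ
    have := accessible_of_radLim hC (hg θ hθ)
    rwa [hSφ] at this
  refine hmaps.countable_of_injOn ?_ hcount
  intro θ hθ θ' hθ' hgg
  have e1 := hg θ hθ
  have e2 := hg θ' hθ'
  rcases lt_trichotomy θ θ' with hlt | heq | hlt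
  · exact (radLim_injective hC hSb' hS' hlt (by linarith [hθ.1.1, hθ'.1.2]) e1
      (by rw [hgg]; exact e2)).elim
  · exact heq
  · exact (radLim_injective hC hSb' hS' hlt (by linarith [hθ'.1.1, hθ.1.2]) e2
      (by rw [← hgg]; exact e1)).elim

/-- a nonempty relatively open part of the boundary in an arc of the Julia set: Jordan curve -/
theorem jordan_of_local {c : ℂ} {α : ℝ} {S : Set ℂ} (h : IsSiegelDisk c α S) {U A : Set ℂ}
    (hU : IsOpen U) (hne : (U ∩ frontier S).Nonempty) (hA : IsArc A) (hAJ : A ⊆ julia c)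
    (hsub : U ∩ frontier S ⊆ A) : IsJordanCurve (frontier S) := by
  obtain ⟨hS, hSo, hSb⟩ := surround_of_siegel h
  obtain ⟨x, hxU, y, hyU, hxy, hx, hy⟩ := two_accessible hS hSo hU hne
  obtain ⟨γ, h1, h2, rfl⟩ := hA
  obtain ⟨s, hs, hsx⟩ := hsub ⟨hxU, hx.1⟩
  obtain ⟨t, ht, hty⟩ := hsub ⟨hyU, hy.1⟩
  have hst : s ≠ t := by
    rintro rfl
    exact hxy (hsx.symm.trans hty)
  have hmem : ∀ u ∈ Icc (0 : ℝ) 1, s + u * (t - s) ∈ Icc (0 : ℝ) 1 := by
    intro u hu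
    constructor
    · nlinarith [hs.1, ht.1, hu.1, hu.2, mul_nonneg hu.1 ht.1, mul_nonneg (sub_nonneg.2 hu.2) hs.1]
    · nlinarith [hs.2, ht.2, hu.1, hu.2, mul_nonneg hu.1 (sub_nonneg.2 ht.2),
        mul_nonneg (sub_nonneg.2 hu.2) (sub_nonneg.2 hs.2)]
  refine jordan_of_accessible h hx hy hxy ⟨fun u => γ (s + u * (t - s)), ?_, ?_, ?_, ?_, ?_⟩
  · exact h1.comp (by fun_prop) hmem
  · intro u hu v hv huv
    have h3 := h2 (hmem u hu) (hmem v hv) huv
    have h4 : (u - v) * (t - s) = 0 := by linarith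
    rcases mul_eq_zero.1 h4 with h5 | h5
    · linarith
    · exact absurd (by linarith : s = t) hst
  · simpa using hsx
  · simpa using hty
  · intro u hu
    exact hAJ (mem_image_of_mem γ (hmem u hu))

theorem main {c : ℂ} {α : ℝ} {S : Set ℂ} (h : IsSiegelDisk c α S) :
    (IsJordanCurve (frontier S) ∨ (¬ {x | Accessible S x}.Countable ∧
      ∀ x y, Accessible S x → Accessible S y → x ≠ y → ¬ ArcJoined (julia c) x y)) ∧
    (ArcwiseConnected (julia c) → IsJordanCurve (frontier S)) ∧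
    (ArcwiseConnected (frontier S) ↔ IsJordanCurve (frontier S)) ∧
    (∀ U A : Set ℂ, IsOpen U → (U ∩ frontier S).Nonempty → IsArc A → A ⊆ julia c →
      U ∩ frontier S ⊆ A → IsJordanCurve (frontier S)) := by
  obtain ⟨hS, hSo, hSb⟩ := surround_of_siegel h
  have hfJ : frontier S ⊆ julia c := by
    intro x hx
    rw [hSo.frontier_eq] at hx
    exact (hS.cl hx.1).resolve_left hx.2
  have hunc := accessible_uncountable h
  obtain ⟨x, hx, y, hy, hxy⟩ : ∃ x, Accessible S x ∧ ∃ y, Accessible S y ∧ x ≠ y := by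
    by_contra hcon
    push Not at hcon
    exact hunc (Set.Subsingleton.countable fun x hx y hy => hcon x hx y hy)
  refine ⟨?_, ?_, ⟨?_, IsJordanCurve.arcwise⟩, ?_⟩
  · by_cases hJ : IsJordanCurve (frontier S)
    · exact Or.inl hJ
    · exact Or.inr ⟨hunc, fun x y hx hy hxy hj => hJ (jordan_of_accessible h hx hy hxy hj)⟩
  · intro hJ
    exact jordan_of_accessible h hx hy hxy (hJ x (hfJ hx.1) y (hfJ hy.1) hxy)
  · intro hJ
    obtain ⟨γ, g1, g2, g3, g4, g5⟩ := hJ x hx.1 y hy.1 hxy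
    exact jordan_of_accessible h hx hy hxy ⟨γ, g1, g2, g3, g4, fun t ht => hfJ (g5 t ht)⟩
  · intro U A hU hne hA hAJ hsub
    exact jordan_of_local h hU hne hA hAJ hsub

end Pool.SiegelArc
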