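import Pool.Agent.Lib.MP_b59c01_an.MTools

/-!
# MP_b59c01_an, row N1
-/

open Complex MeasureTheory Set Filter Topology Metric

namespace Pool.SiegelArc

/-- PROOF: the sets `ψ '' (UH ∩ ball 0 (1 / (n + 1)))` are open (`univ_open`), decreasing, of finite measure (`hb`), and their
intersection is empty (`InjOn.image_iInter_eq` or directly: by injectivity a common value would come from a point of `UH` of
norm `< 1 / (n + 1)` for all `n`, which would be `0 ∉ UH`). So the measures tend to `0` (`tendsto_measure_iInter_atTop`). -/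
theorem area_small {ψ : ℂ → ℂ} (h : Conf UH ψ) (hb : Bornology.IsBounded (ψ '' UH)) {η : ℝ}
    (hη : 0 < η) : ∃ ρ > 0, volume (ψ '' (UH ∩ ball 0 ρ)) ≤ ENNReal.ofReal η := by
  obtain ⟨s, hs⟩ : ∃ s : ℕ → Set ℂ, s = fun n : ℕ => ψ '' (UH ∩ ball 0 (1 / ((n : ℝ) + 1))) :=
    ⟨_, rfl⟩
  have hmeas : ∀ n, NullMeasurableSet (s n) volume := by
    intro n
    rw [hs]
    exact (univ_open (h.opn.inter isOpen_ball) inter_subset_left h.opn h.diff h.inj).measurableSet.nullMeasurableSet
  have hanti : Antitone s := by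
    intro m n hmn
    rw [hs]
    refine image_mono (inter_subset_inter_right _ (ball_subset_ball ?_))
    have h1 : (m : ℝ) ≤ n := Nat.cast_le.mpr hmn
    exact one_div_le_one_div_of_le (by positivity) (by linarith)
  have hfin : ∃ i, volume (s i) ≠ ⊤ := by
    refine ⟨0, ?_⟩
    rw [hs]
    exact (lt_of_le_of_lt (measure_mono (image_mono inter_subset_left)) hb.measure_lt_top).ne
  have hlim := tendsto_measure_iInter_atTop hmeas hanti hfin
  have hempty : ⋂ n, s n = ∅ := by
    rw [eq_empty_iff_forall_notMem]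
    intro y hy
    rw [mem_iInter] at hy
    have hy' : ∀ n : ℕ, ∃ x, x ∈ UH ∧ ‖x‖ < 1 / ((n : ℝ) + 1) ∧ ψ x = y := by
      intro n
      have h1 := hy n
      rw [hs] at h1
      obtain ⟨x, hx, hxy⟩ := h1
      exact ⟨x, hx.1, by simpa using hx.2, hxy⟩
    obtain ⟨x, hx, -, hxy⟩ := hy' 0
    have hx0 : 0 < ‖x‖ := by
      rw [norm_pos_iff]
      rintro rfl
      have h2 : (0 : ℝ) < (0 : ℂ).im := hx
      simp at h2
    obtain ⟨n, hn⟩ := exists_nat_one_div_lt hx0
    obtain ⟨x', hx', hlt, hxy'⟩ := hy' n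
    have h3 : x' = x := h.inj hx' hx (hxy'.trans hxy.symm)
    rw [h3] at hlt
    linarith
  rw [hempty, measure_empty] at hlim
  have hη' : (0 : ENNReal) < ENNReal.ofReal η := ENNReal.ofReal_pos.mpr hη
  obtain ⟨n, hn⟩ := ((hlim.eventually_le_const hη').exists)
  refine ⟨1 / ((n : ℝ) + 1), by positivity, ?_⟩
  have h4 : volume (s n) ≤ ENNReal.ofReal η := hn
  rw [hs] at h4
  exact h4

end Pool.SiegelArc
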