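import Pool.Agent.Lib.MP_b59c01_an.MTools

/-!
# MP_b59c01_an, row N2
-/

open Complex MeasureTheory Set Filter Topology Metric

namespace Pool.SiegelArc

/-- mean value inequality for the square of the norm of a holomorphic function -/
theorem N2_mean {g : ℂ → ℂ} {z : ℂ} {R s : ℝ} (hg : DifferentiableOn ℂ g (ball z R))
    (hs : 0 < s) (hsR : s < R) :
    ENNReal.ofReal (2 * Real.pi * ‖g z‖ ^ 2) ≤
      ∫⁻ θ in Ioo (-Real.pi) Real.pi,
        ENNReal.ofReal (‖g (z + s * (Real.cos θ + Real.sin θ * I))‖ ^ 2) := by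
  have hπ := Real.pi_pos
  have hmem : ∀ θ : ℝ, circleMap z s θ ∈ ball z R := by
    intro θ
    rw [mem_ball, dist_eq_norm]
    have : ‖circleMap z s θ - z‖ = s := by
      simp [circleMap, abs_of_pos hs]
    rw [this]
    exact hsR
  have hd2 : DifferentiableOn ℂ (fun w => g w ^ 2) (ball z R) := hg.pow 2
  have hdc : DiffContOnCl ℂ (fun w => g w ^ 2) (ball z |s|) := by
    rw [abs_of_pos hs]
    refine DifferentiableOn.diffContOnCl (hd2.mono ?_)
    refine closure_ball_subset_closedBall.trans ?_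
    exact closedBall_subset_ball hsR
  have hmv := hdc.circleAverage
  rw [Real.circleAverage_def] at hmv
  have hcont : Continuous fun θ : ℝ => g (circleMap z s θ) := by
    rw [← continuousOn_univ]
    exact hg.continuousOn.comp (continuous_circleMap z s).continuousOn fun θ _ => hmem θ
  have h1 : 2 * Real.pi * ‖g z‖ ^ 2 ≤ ∫ θ in (0 : ℝ)..2 * Real.pi, ‖g (circleMap z s θ)‖ ^ 2 := by
    have h2 : ‖g z‖ ^ 2 = (2 * Real.pi)⁻¹ * ‖∫ θ in (0 : ℝ)..2 * Real.pi, g (circleMap z s θ) ^ 2‖ := by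
      rw [← norm_pow, ← hmv, norm_smul, Real.norm_of_nonneg (by positivity)]
    have h3 : ‖∫ θ in (0 : ℝ)..2 * Real.pi, g (circleMap z s θ) ^ 2‖ ≤
        ∫ θ in (0 : ℝ)..2 * Real.pi, ‖g (circleMap z s θ)‖ ^ 2 := by
      refine (intervalIntegral.norm_integral_le_integral_norm (by positivity)).trans (le_of_eq ?_)
      refine intervalIntegral.integral_congr fun t _ => ?_
      exact norm_pow _ _
    rw [h2]
    calc 2 * Real.pi * ((2 * Real.pi)⁻¹ * ‖∫ θ in (0 : ℝ)..2 * Real.pi, g (circleMap z s θ) ^ 2‖)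
        = ‖∫ θ in (0 : ℝ)..2 * Real.pi, g (circleMap z s θ) ^ 2‖ := by field_simp
      _ ≤ _ := h3
  have hper : Function.Periodic (fun θ : ℝ => ‖g (circleMap z s θ)‖ ^ 2) (2 * Real.pi) := by
    intro θ
    show ‖g (circleMap z s (θ + 2 * Real.pi))‖ ^ 2 = ‖g (circleMap z s θ)‖ ^ 2
    rw [periodic_circleMap z s θ]
  have h4 : ∫ θ in (0 : ℝ)..2 * Real.pi, ‖g (circleMap z s θ)‖ ^ 2 =
      ∫ θ in (-Real.pi)..Real.pi, ‖g (circleMap z s θ)‖ ^ 2 := by
    have := hper.intervalIntegral_add_eq 0 (-Real.pi)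
    rw [zero_add] at this
    rw [this]
    congr 1
    ring
  rw [h4, intervalIntegral.integral_of_le (by linarith)] at h1
  have h5 : ENNReal.ofReal (∫ θ in Ioc (-Real.pi) Real.pi, ‖g (circleMap z s θ)‖ ^ 2) =
      ∫⁻ θ in Ioc (-Real.pi) Real.pi, ENNReal.ofReal (‖g (circleMap z s θ)‖ ^ 2) := by
    refine ofReal_integral_eq_lintegral_ofReal ?_ (Eventually.of_forall fun t => by positivity)
    exact ((hcont.norm.pow 2).integrableOn_Icc (a := -Real.pi) (b := Real.pi)).mono_set
      Ioc_subset_Icc_self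
  refine (ENNReal.ofReal_le_ofReal h1).trans ?_
  rw [h5, setLIntegral_congr Ioo_ae_eq_Ioc.symm]
  refine le_of_eq (lintegral_congr fun θ => ?_)
  have h6 : circleMap z s θ = z + s * (Real.cos θ + Real.sin θ * I) := by
    rw [circleMap, Complex.exp_mul_I, Complex.ofReal_cos, Complex.ofReal_sin]
  rw [h6]

/-- Area estimate for the derivative. PROOF: with `g = deriv ψ` (holomorphic on `U`), for `0 < s < R` the mean value property for
`g ^ 2` gives `‖g z‖ ^ 2 ≤ (1 / (2 π)) ∫ θ in 0..2π, ‖g (z + s e^{iθ})‖ ^ 2` (`DifferentiableOn.circleAverage...`,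
`Complex.circleIntegral_sub_inv_smul_of_differentiable_on_off_countable`, or any Mathlib form of the mean value property).
Multiply by `s` and integrate over `s ∈ Ioo 0 R`: in polar coordinates (`Complex.lintegral_comp_polarCoord_symm`, translated
by `z`; or write it with `Ψ ζ = ψ (z + exp ζ)` as in `M2`) `π R² ‖g z‖² ≤ ∫⁻ over ball z R of ‖g‖²`, which is
`volume (ψ '' ball z R)` (`lintegral_abs_det_fderiv_eq_addHaar_image` and `d1e_det`, see `harea` in the file `M2`).
Any other proof is fine, and a worse constant too: tell helper87 if you change the constant. -/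
theorem deriv_area {U : Set ℂ} {ψ : ℂ → ℂ} (h : Conf U ψ) {z : ℂ} {R : ℝ} (hR : 0 < R)
    (hz : ball z R ⊆ U) :
    ENNReal.ofReal (Real.pi * R ^ 2 * ‖deriv ψ z‖ ^ 2) ≤ volume (ψ '' ball z R) := by
  have hπ := Real.pi_pos
  have hd : DifferentiableOn ℂ ψ (ball z R) := h.diff.mono hz
  have hi : InjOn ψ (ball z R) := h.inj.mono hz
  have hD : ∀ ζ ∈ ball z R, HasDerivAt ψ (deriv ψ ζ) ζ := fun ζ hζ =>
    (hd.differentiableAt (isOpen_ball.mem_nhds hζ)).hasDerivAt
  have harea : ∫⁻ ζ in ball z R, ENNReal.ofReal (‖deriv ψ ζ‖ ^ 2) = volume (ψ '' ball z R) := by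
    rw [← lintegral_abs_det_fderiv_eq_addHaar_image volume isOpen_ball.measurableSet
      (f' := fun ζ => (ContinuousLinearMap.toSpanSingleton ℂ (deriv ψ ζ)).restrictScalars ℝ)
      (fun ζ hζ => ((hD ζ hζ).hasFDerivAt.restrictScalars ℝ).hasFDerivWithinAt) hi]
    refine lintegral_congr fun ζ => ?_
    rw [d1e_det]
  have hg : DifferentiableOn ℂ (deriv ψ) (ball z R) := hd.deriv isOpen_ball
  rw [← harea, ← lintegral_indicator isOpen_ball.measurableSet]
  rw [← lintegral_add_left_eq_self _ z, ← Complex.lintegral_comp_polarCoord_symm]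
  have htar : Complex.polarCoord.target = Ioi (0 : ℝ) ×ˢ Ioo (-Real.pi) Real.pi := rfl
  have htar' : polarCoord.target = Ioi (0 : ℝ) ×ˢ Ioo (-Real.pi) Real.pi := rfl
  rw [htar', Measure.volume_eq_prod, ← Measure.prod_restrict]
  have hmeas0 : Measurable ((ball z R).indicator fun ζ : ℂ => ENNReal.ofReal (‖deriv ψ ζ‖ ^ 2)) :=
    (((measurable_deriv ψ).norm.pow_const 2).ennreal_ofReal).indicator isOpen_ball.measurableSet
  have hmeas : Measurable fun p : ℝ × ℝ => ENNReal.ofReal p.1 •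
      (ball z R).indicator (fun ζ : ℂ => ENNReal.ofReal (‖deriv ψ ζ‖ ^ 2))
        (z + Complex.polarCoord.symm p) := by
    have h1 : Measurable fun p : ℝ × ℝ => z + Complex.polarCoord.symm p := by
      simp only [Complex.polarCoord_symm_apply]
      fun_prop
    exact (ENNReal.measurable_ofReal.comp measurable_fst).smul (hmeas0.comp h1)
  rw [lintegral_prod _ hmeas.aemeasurable]
  have hlow : ∫⁻ s in Ioo 0 R, ENNReal.ofReal (s * (2 * Real.pi * ‖deriv ψ z‖ ^ 2)) ≤
      ∫⁻ s in Ioo 0 R, ∫⁻ θ in Ioo (-Real.pi) Real.pi, ENNReal.ofReal s •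
      (ball z R).indicator (fun ζ : ℂ => ENNReal.ofReal (‖deriv ψ ζ‖ ^ 2))
        (z + Complex.polarCoord.symm (s, θ)) := by
    refine setLIntegral_mono' measurableSet_Ioo fun s hs => ?_
    have h1 := N2_mean hg hs.1 hs.2
    rw [ENNReal.ofReal_mul hs.1.le]
    simp only [smul_eq_mul]
    rw [lintegral_const_mul' _ _ ENNReal.ofReal_ne_top]
    refine mul_le_mul_right ?_ _
    refine h1.trans (le_of_eq (lintegral_congr fun θ => ?_))
    rw [indicator_of_mem, Complex.polarCoord_symm_apply]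
    rw [mem_ball, dist_eq_norm, add_sub_cancel_left, norm_polarCoord_symm, abs_of_pos hs.1]
    exact hs.2
  refine le_trans ?_ (hlow.trans (lintegral_mono_set Ioo_subset_Ioi_self))
  have h7 : ∫⁻ s in Ioo 0 R, ENNReal.ofReal (s * (2 * Real.pi * ‖deriv ψ z‖ ^ 2)) =
      ENNReal.ofReal (∫ s in Ioc 0 R, s * (2 * Real.pi * ‖deriv ψ z‖ ^ 2)) := by
    rw [setLIntegral_congr Ioo_ae_eq_Ioc]
    refine (ofReal_integral_eq_lintegral_ofReal ?_ ?_).symm
    · have : Continuous fun s : ℝ => s * (2 * Real.pi * ‖deriv ψ z‖ ^ 2) := by fun_prop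
      exact (this.integrableOn_Icc (a := 0) (b := R)).mono_set Ioc_subset_Icc_self
    · refine (ae_restrict_iff' measurableSet_Ioc).mpr (Eventually.of_forall fun s hs => ?_)
      have := hs.1
      show 0 ≤ s * (2 * Real.pi * ‖deriv ψ z‖ ^ 2)
      positivity
  rw [h7]
  refine ENNReal.ofReal_le_ofReal (le_of_eq ?_)
  rw [← intervalIntegral.integral_of_le hR.le, intervalIntegral.integral_mul_const, integral_id]
  ring

end Pool.SiegelArc
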