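import Pool.Agent.Lib.MP_b59c01_an.MTools

/-!
# MP_b59c01_an, row N3
-/

open Complex MeasureTheory Set Filter Topology Metric

namespace Pool.SiegelArc

theorem N3_small {G : ℝ → ENNReal} {s η : ℝ} (hs : 0 < s) (hη : 0 < η)
    (hG : ∫⁻ σ in Iio (Real.log (2 * s)), G σ ≤ ENNReal.ofReal η) :
    ∃ σ ∈ Ioo (Real.log s) (Real.log (2 * s)), G σ ≤ ENNReal.ofReal (5 * η / Real.pi) := by
  have hπ := Real.pi_pos
  by_contra hcon
  push Not at hcon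
  have h1 : ∫⁻ _ in Ioo (Real.log s) (Real.log (2 * s)), ENNReal.ofReal (5 * η / Real.pi) ≤
      ∫⁻ σ in Ioo (Real.log s) (Real.log (2 * s)), G σ :=
    setLIntegral_mono' measurableSet_Ioo fun σ hσ => (hcon σ hσ).le
  have h2 : ∫⁻ σ in Ioo (Real.log s) (Real.log (2 * s)), G σ ≤
      ∫⁻ σ in Iio (Real.log (2 * s)), G σ := lintegral_mono_set fun σ hσ => hσ.2
  have h3 := (h1.trans h2).trans hG
  have h4 : Real.log (2 * s) - Real.log s = Real.log 2 := by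
    rw [Real.log_mul two_ne_zero hs.ne']
    ring
  rw [setLIntegral_const, Real.volume_Ioo, h4, ← ENNReal.ofReal_mul (by positivity),
    ENNReal.ofReal_le_ofReal_iff hη.le] at h3
  have h5 := Real.log_two_gt_d9
  have h6 := Real.pi_lt_d2
  have h7 : 5 * η / Real.pi * Real.log 2 = η * (5 * Real.log 2 / Real.pi) := by ring
  rw [h7] at h3
  have h8 : 1 < 5 * Real.log 2 / Real.pi := by
    rw [lt_div_iff₀ hπ]
    linarith
  nlinarith

/-- PROOF: length-area as in `short_crosscut` (the file `M3`, or `/team-store/cf6de_D1e.lean`). Put `Ψ ζ = ψ (exp ζ)` on the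
rectangle `Q = {ζ | log s < ζ.re < log (2 s), 0 < ζ.im < π}`, injective and holomorphic, so
`∫⁻ ζ in Q, ‖Ψ'‖² = volume (Ψ '' Q) ≤ η`. By Tonelli (as in `d1e_fubini`) some `σ ∈ Ioo (log s) (log (2 s))` has
`∫⁻ θ in Ioo 0 π, ‖Ψ' (σ + θ I)‖² ≤ η / log 2` (the interval has length `log 2`). Then `d1e_arc` with `δ² = π η / log 2` gives
`‖Ψ (σ + θ' I) - Ψ (σ + θ I)‖ ≤ δ` for all `θ ≤ θ'`; take `r = exp σ`; and `π / log 2 ≤ 5`. -/
theorem short_dyadic {ψ : ℂ → ℂ} (h : Conf UH ψ) {s η : ℝ} (hs : 0 < s) (hη : 0 < η)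
    (hv : volume (ψ '' (UH ∩ ball 0 (2 * s))) ≤ ENNReal.ofReal η) :
    ∃ r ∈ Ioo s (2 * s), ∀ u ∈ UH, ∀ u' ∈ UH, ‖u‖ = r → ‖u'‖ = r →
      ‖ψ u - ψ u'‖ ^ 2 ≤ 5 * η := by
  have hπ := Real.pi_pos
  have h2s : 0 < 2 * s := by linarith
  obtain ⟨S, hS⟩ : ∃ S : Set ℂ, S = {ζ : ℂ | ζ.re < Real.log (2 * s) ∧ 0 < ζ.im ∧
    ζ.im < Real.pi} := ⟨_, rfl⟩
  have hSmem : ∀ ζ, ζ ∈ S ↔ ζ.re < Real.log (2 * s) ∧ 0 < ζ.im ∧ ζ.im < Real.pi := by
    intro ζ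
    rw [hS]
    rfl
  have hSo : IsOpen S := by
    rw [hS]
    exact (isOpen_lt Complex.continuous_re continuous_const).inter
      ((isOpen_lt continuous_const Complex.continuous_im).inter
        (isOpen_lt Complex.continuous_im continuous_const))
  have hpt : ∀ ζ ∈ S, exp ζ ∈ UH := by
    intro ζ hζ
    obtain ⟨h1, h2, h3⟩ := (hSmem ζ).mp hζ
    show 0 < (exp ζ).im
    rw [Complex.exp_im]
    exact mul_pos (Real.exp_pos _) (Real.sin_pos_of_pos_of_lt_pi h2 h3)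
  have hptb : ∀ ζ ∈ S, exp ζ ∈ ball (0 : ℂ) (2 * s) := by
    intro ζ hζ
    obtain ⟨h1, h2, h3⟩ := (hSmem ζ).mp hζ
    rw [mem_ball_zero_iff, Complex.norm_exp]
    rwa [Real.lt_log_iff_exp_lt h2s] at h1
  obtain ⟨Ψ, hΨ⟩ : ∃ Ψ : ℂ → ℂ, Ψ = fun ζ => ψ (exp ζ) := ⟨_, rfl⟩
  have hΨd : DifferentiableOn ℂ Ψ S := by
    rw [hΨ]
    intro ζ hζ
    have h1 : DifferentiableAt ℂ ψ (exp ζ) :=
      h.diff.differentiableAt (h.opn.mem_nhds (hpt ζ hζ))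
    exact (h1.comp ζ Complex.differentiableAt_exp).differentiableWithinAt
  have hΨi : InjOn Ψ S := by
    intro ζ hζ ζ' hζ' he
    rw [hΨ] at he
    have h1 : exp ζ = exp ζ' := h.inj (hpt ζ hζ) (hpt ζ' hζ') he
    obtain ⟨_, c2, c3⟩ := (hSmem ζ).mp hζ
    obtain ⟨_, d2, d3⟩ := (hSmem ζ').mp hζ'
    exact Complex.exp_inj_of_neg_pi_lt_of_le_pi (by linarith) c3.le (by linarith) d3.le h1
  have hΨD : ∀ ζ ∈ S, HasDerivAt Ψ (deriv Ψ ζ) ζ := fun ζ hζ =>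
    (hΨd.differentiableAt (hSo.mem_nhds hζ)).hasDerivAt
  have harea : ∫⁻ ζ in S, ENNReal.ofReal (‖deriv Ψ ζ‖ ^ 2) = volume (Ψ '' S) := by
    rw [← lintegral_abs_det_fderiv_eq_addHaar_image volume hSo.measurableSet
      (f' := fun ζ => (ContinuousLinearMap.toSpanSingleton ℂ (deriv Ψ ζ)).restrictScalars ℝ)
      (fun ζ hζ => ((hΨD ζ hζ).hasFDerivAt.restrictScalars ℝ).hasFDerivWithinAt) hΨi]
    refine lintegral_congr fun ζ => ?_
    rw [d1e_det]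
  have hfin : ∫⁻ ζ in S, ENNReal.ofReal (‖deriv Ψ ζ‖ ^ 2) ≤ ENNReal.ofReal η := by
    rw [harea]
    refine (measure_mono ?_).trans hv
    rintro _ ⟨ζ, hζ, rfl⟩
    rw [hΨ]
    exact mem_image_of_mem ψ ⟨hpt ζ hζ, hptb ζ hζ⟩
  have hmeas : Measurable (fun ζ : ℂ => ENNReal.ofReal (‖deriv Ψ ζ‖ ^ 2)) :=
    ((measurable_deriv Ψ).norm.pow_const 2).ennreal_ofReal
  rw [hS, d1e_fubini _ hmeas] at hfin
  obtain ⟨σ, hσ, hG⟩ := N3_small hs hη hfin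
  obtain ⟨δ, hδ⟩ : ∃ δ : ℝ, δ = √(5 * η) := ⟨_, rfl⟩
  have hδ0 : 0 < δ := by
    rw [hδ]
    exact Real.sqrt_pos.mpr (by linarith)
  have hδ2 : δ ^ 2 = 5 * η := by
    rw [hδ]
    exact Real.sq_sqrt (by linarith)
  rw [← hδ2] at hG
  have hSline : ∀ t ∈ Ioo (0 : ℝ) Real.pi, (σ + t * I : ℂ) ∈ S := by
    intro t ht
    rw [hSmem]
    simp only [Complex.add_re, Complex.ofReal_re, Complex.mul_re, Complex.I_re, mul_zero,
      Complex.ofReal_im, Complex.I_im, mul_one, sub_self, add_zero, Complex.add_im,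
      Complex.mul_im, zero_add]
    exact ⟨hσ.2, ht.1, ht.2⟩
  have hcD : ContinuousOn (fun t : ℝ => deriv Ψ (σ + t * I)) (Ioo 0 Real.pi) :=
    (hΨd.deriv hSo).continuousOn.comp (by fun_prop) hSline
  have hd' : ∀ t ∈ Ioo (0 : ℝ) Real.pi, HasDerivAt Ψ (deriv Ψ (σ + t * I)) (σ + t * I) :=
    fun t ht => hΨD _ (hSline t ht)
  have hrep : ∀ u ∈ UH, ‖u‖ = Real.exp σ → ∃ θ ∈ Ioo (0 : ℝ) Real.pi, ψ u = Ψ (σ + θ * I) := by
    intro u hu hn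
    obtain ⟨h1, h2, h3, h4⟩ := d1e_log (v := u) hu
    refine ⟨(log u).im, ⟨h3, h4⟩, ?_⟩
    have h5 : (σ : ℂ) + (log u).im * I = log u := by
      apply Complex.ext
      · simp only [Complex.add_re, Complex.ofReal_re, Complex.mul_re, Complex.I_re, mul_zero,
          Complex.ofReal_im, Complex.I_im, mul_one, sub_self, add_zero]
        rw [h2, hn, Real.log_exp]
      · simp
    rw [h5, hΨ]
    show ψ u = ψ (exp (log u))
    rw [h1]
  have hlog1 : s < Real.exp σ := by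
    have h1 := hσ.1
    rwa [Real.log_lt_iff_lt_exp hs] at h1
  have hlog2 : Real.exp σ < 2 * s := by
    have h1 := hσ.2
    rwa [Real.lt_log_iff_exp_lt h2s] at h1
  refine ⟨Real.exp σ, ⟨hlog1, hlog2⟩, ?_⟩
  intro u hu u' hu' hn hn'
  obtain ⟨θ, hθ, h1⟩ := hrep u hu hn
  obtain ⟨θ', hθ', h2⟩ := hrep u' hu' hn'
  rw [h1, h2, ← hδ2]
  refine pow_le_pow_left₀ (norm_nonneg _) ?_ 2
  rcases le_total θ θ' with hle | hle
  · rw [norm_sub_rev]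
    exact d1e_arc hδ0 hd' hcD hG hθ hθ' hle
  · exact d1e_arc hδ0 hd' hcD hG hθ' hθ hle

end Pool.SiegelArc
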