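import Pool.Agent.Lib.MP_b59c01_an.N1
import Pool.Agent.Lib.MP_b59c01_an.N2
import Pool.Agent.Lib.MP_b59c01_an.N3

/-!
# MP_b59c01_an, row N4
-/

open Complex MeasureTheory Set Filter Topology Metric

namespace Pool.SiegelArc

theorem N4_deriv_bound {ψ : ℂ → ℂ} (h : Conf UH ψ) {ε ρ s y : ℝ} (hε : 0 < ε) (hs : 0 < s)
    (hv : volume (ψ '' (UH ∩ ball 0 ρ)) ≤ ENNReal.ofReal (ε ^ 2 / 100)) (hy : s ≤ y)
    (hyρ : y + y / 2 < ρ) : ‖deriv ψ (y * I)‖ ≤ ε / (8 * s) := by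
  have hy0 : 0 < y := hs.trans_le hy
  have hsub : ball ((y : ℂ) * I) (y / 2) ⊆ UH ∩ ball 0 ρ := by
    intro z hz
    rw [mem_ball, dist_eq_norm] at hz
    refine ⟨?_, ?_⟩
    · have h1 := Complex.abs_im_le_norm (z - (y : ℂ) * I)
      have h2 : (z - (y : ℂ) * I).im = z.im - y := by simp
      rw [h2] at h1
      have h3 := (abs_le.1 (h1.trans hz.le)).1
      show 0 < z.im
      linarith
    · rw [mem_ball, dist_zero_right]
      have h1 : ‖z‖ ≤ ‖z - (y : ℂ) * I‖ + ‖(y : ℂ) * I‖ := by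
        simpa using norm_add_le (z - (y : ℂ) * I) ((y : ℂ) * I)
      have h2 : ‖(y : ℂ) * I‖ = y := by
        rw [norm_mul, Complex.norm_I, mul_one, Complex.norm_real, Real.norm_of_nonneg hy0.le]
      rw [h2] at h1
      linarith
  have h1 := deriv_area h (half_pos hy0) (hsub.trans inter_subset_left)
  have h2 : ENNReal.ofReal (Real.pi * (y / 2) ^ 2 * ‖deriv ψ (y * I)‖ ^ 2)
      ≤ ENNReal.ofReal (ε ^ 2 / 100) :=
    h1.trans ((measure_mono (image_mono hsub)).trans hv)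
  have h3 : Real.pi * (y / 2) ^ 2 * ‖deriv ψ (y * I)‖ ^ 2 ≤ ε ^ 2 / 100 :=
    (ENNReal.ofReal_le_ofReal_iff (by positivity)).1 h2
  set D := ‖deriv ψ (y * I)‖ with hD
  have hD0 : 0 ≤ D := norm_nonneg _
  have h4 : 3 * (s / 2) ^ 2 * D ^ 2 ≤ ε ^ 2 / 100 := by
    refine le_trans ?_ h3
    gcongr
    exact Real.pi_gt_three.le
  rw [le_div_iff₀ (by positivity)]
  have h5 : (D * (8 * s)) ^ 2 ≤ ε ^ 2 := by nlinarith [sq_nonneg (D * s), sq_nonneg ε]
  exact (abs_le_of_sq_le_sq' h5 hε.le).2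

/-- Lindelöf's theorem for injective functions, in the upper half plane.
PROOF: let `ε > 0`, `η > 0` small and `ρ` as in `area_small`. Let `0 < s < ρ / 3`. `short_dyadic` gives `r ∈ Ioo s (2 s)` with
`‖ψ u - ψ u'‖² ≤ 5 η` for `u, u' ∈ UH` of norm `r`. If `s` is so small that `‖δ t‖ > 2 s` for some `t` beyond which
`‖ψ (δ t) - x‖ < ε / 3` (choose first `t0 < 1` with this estimate on `Ico t0 1`, then `2 s < ‖δ t0‖`), by the intermediate value
theorem for `‖δ t‖` on `Ico t0 1` (it tends to `0`) there is `t ∈ Ico t0 1` with `‖δ t‖ = r`. So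
`‖ψ (r I) - x‖ ≤ ε / 3 + √(5 η)`. On the segment from `s I` to `r I` (`r < 2 s`), `deriv_area` for the ball of centre `y I`,
radius `y / 2` (contained in `UH ∩ ball 0 (3 s)`, as `y + y / 2 < 3 s`) gives `‖deriv ψ (y I)‖ ≤ 2 √(η / π) / y ≤ 2 √η / s`, so
`‖ψ (s I) - ψ (r I)‖ ≤ 2 √η` (mean value inequality, `Convex.norm_image_sub_le_of_norm_deriv_le` or
`norm_image_sub_le_of_norm_deriv_le_segment'`). -/
theorem imag_limit {ψ : ℂ → ℂ} (h : Conf UH ψ) (hb : Bornology.IsBounded (ψ '' UH)) {δ : ℝ → ℂ}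
    (hδ : ContinuousOn δ (Ico 0 1)) (hU : ∀ t ∈ Ico (0 : ℝ) 1, δ t ∈ UH)
    (h0 : Tendsto δ (𝓝[<] 1) (𝓝 0)) {x : ℂ} (hx : Tendsto (fun t => ψ (δ t)) (𝓝[<] 1) (𝓝 x)) :
    Tendsto (fun y : ℝ => ψ (y * I)) (𝓝[>] 0) (𝓝 x) := by
  rw [Metric.tendsto_nhds]
  intro ε hε
  obtain ⟨ρ, hρ, hv⟩ := area_small h hb (show 0 < ε ^ 2 / 100 by positivity)
  obtain ⟨t0', ht0', hsub⟩ := mem_nhdsLT_iff_exists_Ico_subset.1
    (hx.eventually (Metric.ball_mem_nhds x (show 0 < ε / 3 by positivity)))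
  have ht0'1 : t0' < 1 := ht0'
  set t0 : ℝ := max t0' 0 with ht0
  have ht01 : t0 < 1 := max_lt ht0'1 one_pos
  have ht00 : 0 ≤ t0 := le_max_right _ _
  have hclose : ∀ t ∈ Ico t0 1, ‖ψ (δ t) - x‖ < ε / 3 := by
    intro t ht
    have h1 := hsub ⟨(le_max_left _ _).trans ht.1, ht.2⟩
    have h2 : ψ (δ t) ∈ ball x (ε / 3) := h1
    rwa [mem_ball, dist_eq_norm] at h2
  have hδ0 : 0 < ‖δ t0‖ := by
    rw [norm_pos_iff]
    intro h1
    have h2 : 0 < (δ t0).im := hU t0 ⟨ht00, ht01⟩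
    rw [h1] at h2
    simp at h2
  have hev : Ioo 0 (min (‖δ t0‖ / 2) (ρ / 3)) ∈ 𝓝[>] (0 : ℝ) :=
    Ioo_mem_nhdsGT (lt_min (half_pos hδ0) (by positivity))
  filter_upwards [hev] with s hs
  obtain ⟨hs0, hs1⟩ := hs
  have hsδ : 2 * s < ‖δ t0‖ := by
    have := hs1.trans_le (min_le_left _ _)
    linarith
  have hsρ : 3 * s < ρ := by
    have := hs1.trans_le (min_le_right _ _)
    linarith
  obtain ⟨r, hr, hcirc⟩ := short_dyadic h hs0 (show 0 < ε ^ 2 / 100 by positivity)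
    ((measure_mono (image_mono (inter_subset_inter_right _
      (ball_subset_ball (by linarith))))).trans hv)
  have hr0 : 0 < r := hs0.trans hr.1
  -- a point of the path on the circle
  obtain ⟨t1, ht1, ht1s⟩ : ∃ t1 ∈ Ioo t0 1, ‖δ t1‖ < s := by
    have h1 : ∀ᶠ t in 𝓝[<] (1 : ℝ), ‖δ t‖ < s := by
      have := h0.eventually (Metric.ball_mem_nhds 0 hs0)
      filter_upwards [this] with t ht
      rwa [dist_zero_right] at ht
    have h2 : ∀ᶠ t in 𝓝[<] (1 : ℝ), t ∈ Ioo t0 1 := Ioo_mem_nhdsLT ht01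
    obtain ⟨t, ht⟩ := (h1.and h2).exists
    exact ⟨t, ht.2, ht.1⟩
  have hcont : ContinuousOn (fun t => ‖δ t‖) (Icc t0 t1) :=
    (hδ.mono fun t ht => ⟨ht00.trans ht.1, ht.2.trans_lt ht1.2⟩).norm
  obtain ⟨t, ht, htr⟩ := intermediate_value_Icc' ht1.1.le hcont
    (show r ∈ Icc ‖δ t1‖ ‖δ t0‖ from ⟨(ht1s.trans hr.1).le, (hr.2.trans hsδ).le⟩)
  have ht' : t ∈ Ico t0 1 := ⟨ht.1, ht.2.trans_lt ht1.2⟩
  have hnI : ‖(r : ℂ) * I‖ = r := by
    rw [norm_mul, Complex.norm_I, mul_one, Complex.norm_real, Real.norm_of_nonneg hr0.le]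
  have hrU : (r : ℂ) * I ∈ UH := by
    show 0 < ((r : ℂ) * I).im
    simpa using hr0
  have e1 : ‖ψ (r * I) - ψ (δ t)‖ ≤ ε / 4 := by
    have h1 := hcirc _ hrU _ (hU t ⟨ht00.trans ht'.1, ht'.2⟩) hnI htr
    refine abs_le_of_sq_le_sq' ?_ (by positivity) |>.2
    nlinarith [sq_nonneg ε]
  have e2 : ‖ψ (r * I) - ψ (s * I)‖ ≤ ε / (8 * s) * (r - s) := by
    have hd : ∀ y ∈ Icc s r, HasDerivWithinAt (fun y : ℝ => ψ (y * I)) (deriv ψ (y * I) * I)
        (Icc s r) y := by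
      intro y hy
      have hy0 : 0 < y := hs0.trans_le hy.1
      have hyU : (y : ℂ) * I ∈ UH := by
        show 0 < ((y : ℂ) * I).im
        simpa using hy0
      have h1 : HasDerivAt ψ (deriv ψ (y * I)) ((y : ℂ) * I) :=
        (h.diff.differentiableAt (h.opn.mem_nhds hyU)).hasDerivAt
      have h2 : HasDerivAt (fun y : ℝ => (y : ℂ) * I) (1 * I) y :=
        (Complex.ofRealCLM.hasDerivAt (x := y)).mul_const I
      rw [one_mul] at h2
      exact (h1.comp_of_eq y h2 rfl).hasDerivWithinAt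
    have hb' : ∀ y ∈ Ico s r, ‖deriv ψ (y * I) * I‖ ≤ ε / (8 * s) := by
      intro y hy
      rw [norm_mul, Complex.norm_I, mul_one]
      refine N4_deriv_bound h hε hs0 hv hy.1 ?_
      have := hy.2
      have := hr.2
      linarith
    exact norm_image_sub_le_of_norm_deriv_le_segment' hd hb' r ⟨hr.1.le, le_rfl⟩
  have e3 : ε / (8 * s) * (r - s) ≤ ε / 8 := by
    have h1 : r - s ≤ s := by linarith [hr.2]
    calc ε / (8 * s) * (r - s) ≤ ε / (8 * s) * s := by gcongr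
      _ = ε / 8 := by field_simp
  have e4 := hclose t ht'
  rw [dist_eq_norm]
  have e5 : ψ (s * I) - x = -(ψ (r * I) - ψ (s * I)) + (ψ (r * I) - ψ (δ t)) + (ψ (δ t) - x) := by
    ring
  rw [e5]
  refine (norm_add₃_le).trans_lt ?_
  rw [norm_neg]
  linarith

end Pool.SiegelArc
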