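import Pool.Agent.Lib.MP_b59c01_an.N4
import Pool.Agent.Lib.MP_b59c01_an.E4

/-!
# MP_b59c01_an, row N5
-/

open Complex MeasureTheory Set Filter Topology Metric

namespace Pool.SiegelArc

/-- Lindelöf's theorem for injective functions in the disk.
PROOF: let `ζ0 = pol 1 θ`, `m w = ζ0 * (I - w) / (I + w)` and `ψ = φ ∘ m`, as in the proof of `extend_disc` (the file `E4`, see
`E4_norm`, `E4_ne`). The inverse of `m` is `u ↦ I * (ζ0 - u) / (ζ0 + u)`; apply `imag_limit` to `ψ` and the path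
`t ↦ I * (ζ0 - δ t) / (ζ0 + δ t)`, which tends to `0`. Since `m (y I) = ζ0 * (1 - y) / (1 + y) = pol ((1 - y) / (1 + y)) θ`,
with `y = (1 - r) / (1 + r)` (tends to `0+` as `r → 1-`): `ψ (y I) = φ (pol r θ)`. -/
theorem lindelof {φ : ℂ → ℂ} (h : Conf (ball 0 1) φ) (hb : Bornology.IsBounded (φ '' ball 0 1))
    {δ : ℝ → ℂ} (hδ : ContinuousOn δ (Ico 0 1)) (hU : ∀ t ∈ Ico (0 : ℝ) 1, δ t ∈ ball (0 : ℂ) 1)
    {θ : ℝ} (h0 : Tendsto δ (𝓝[<] 1) (𝓝 (pol 1 θ))) {x : ℂ}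
    (hx : Tendsto (fun t => φ (δ t)) (𝓝[<] 1) (𝓝 x)) : RadLim φ θ x := by
  obtain ⟨ζ0, hζ0⟩ : ∃ ζ0 : ℂ, ζ0 = pol 1 θ := ⟨_, rfl⟩
  have hn0 : ‖ζ0‖ = 1 := by
    rw [hζ0, pol, Complex.ofReal_one, one_mul, Complex.norm_exp_ofReal_mul_I]
  have h00 : ζ0 ≠ 0 := by
    intro h0
    rw [h0, norm_zero] at hn0
    exact zero_ne_one hn0
  obtain ⟨m, hm⟩ : ∃ m : ℂ → ℂ, ∀ w, m w = ζ0 * ((I - w) / (I + w)) := ⟨_, fun _ => rfl⟩
  have hUo : IsOpen UH := isOpen_lt continuous_const Complex.continuous_im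
  have hmU : ∀ w ∈ UH, m w ∈ ball (0 : ℂ) 1 := by
    intro w hw
    have hw' : 0 < w.im := hw
    rw [mem_ball_zero_iff, hm, norm_mul, hn0, one_mul, norm_div,
      div_lt_one (norm_pos_iff.mpr (E4_ne hw'.le))]
    exact (E4_norm w).mpr hw'
  have hmd : ∀ w : ℂ, I + w ≠ 0 → DifferentiableAt ℂ m w := by
    intro w hw
    have h1 : m = fun w => ζ0 * ((I - w) / (I + w)) := funext hm
    rw [h1]
    exact (((differentiableAt_const I).sub differentiableAt_id).div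
      ((differentiableAt_const I).add differentiableAt_id) hw).const_mul ζ0
  have hconf : Conf UH (φ ∘ m) := by
    refine ⟨hUo, ?_, ?_⟩
    · intro w hw
      have hw' : 0 < w.im := hw
      have h1 : DifferentiableAt ℂ φ (m w) :=
        h.diff.differentiableAt (h.opn.mem_nhds (hmU w hw))
      exact (h1.comp w (hmd w (E4_ne hw'.le))).differentiableWithinAt
    · intro w hw w' hw' heq
      have h1 : m w = m w' := h.inj (hmU w hw) (hmU w' hw') heq
      rw [hm, hm] at h1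
      have h2 := mul_left_cancel₀ h00 h1
      have hw1 : 0 < w.im := hw
      have hw2 : 0 < w'.im := hw'
      rw [div_eq_div_iff (E4_ne hw1.le) (E4_ne hw2.le)] at h2
      have h3 : 2 * I * (w - w') = 0 := by linear_combination -h2
      have h4 : (2 * I : ℂ) ≠ 0 := mul_ne_zero two_ne_zero Complex.I_ne_zero
      exact sub_eq_zero.mp ((mul_eq_zero.mp h3).resolve_left h4)
  have himg : (φ ∘ m) '' UH ⊆ φ '' ball 0 1 := by
    rintro _ ⟨w, hw, rfl⟩
    exact ⟨m w, hmU w hw, rfl⟩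
  obtain ⟨n, hn⟩ : ∃ n : ℂ → ℂ, ∀ u, n u = I * ((ζ0 - u) / (ζ0 + u)) := ⟨_, fun _ => rfl⟩
  have hne : ∀ u ∈ ball (0 : ℂ) 1, ζ0 + u ≠ 0 := by
    intro u hu h0
    rw [mem_ball_zero_iff] at hu
    have h1 : ζ0 = -u := eq_neg_of_add_eq_zero_left h0
    rw [h1, norm_neg] at hn0
    linarith
  have hplus : ∀ u ∈ ball (0 : ℂ) 1, I + n u = 2 * I * ζ0 / (ζ0 + u) := by
    intro u hu
    rw [hn, eq_div_iff (hne u hu)]
    have h1 : (ζ0 - u) / (ζ0 + u) * (ζ0 + u) = ζ0 - u := div_mul_cancel₀ _ (hne u hu)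
    linear_combination I * h1
  have hminus : ∀ u ∈ ball (0 : ℂ) 1, I - n u = 2 * I * u / (ζ0 + u) := by
    intro u hu
    rw [hn, eq_div_iff (hne u hu)]
    have h1 : (ζ0 - u) / (ζ0 + u) * (ζ0 + u) = ζ0 - u := div_mul_cancel₀ _ (hne u hu)
    linear_combination -I * h1
  have hnU : ∀ u ∈ ball (0 : ℂ) 1, n u ∈ UH := by
    intro u hu
    have h0 := hne u hu
    have hu' := mem_ball_zero_iff.mp hu
    refine (E4_norm _).mp ?_
    rw [hplus u hu, hminus u hu, norm_div, norm_div]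
    refine div_lt_div_of_pos_right ?_ (norm_pos_iff.mpr h0)
    rw [norm_mul, norm_mul _ ζ0, hn0]
    have h2 : (0 : ℝ) < ‖(2 * I : ℂ)‖ :=
      norm_pos_iff.mpr (mul_ne_zero two_ne_zero Complex.I_ne_zero)
    exact mul_lt_mul_of_pos_left hu' h2
  have hmn : ∀ u ∈ ball (0 : ℂ) 1, m (n u) = u := by
    intro u hu
    have h0 := hne u hu
    have h2 : (2 * I : ℂ) ≠ 0 := mul_ne_zero two_ne_zero Complex.I_ne_zero
    rw [hm, hplus u hu, hminus u hu, div_div_div_cancel_right₀ h0, mul_div_mul_left _ _ h2]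
    field_simp
  have hzz : ζ0 + ζ0 ≠ 0 := by
    rw [← two_mul]
    exact mul_ne_zero two_ne_zero h00
  have hnc : ∀ u : ℂ, ζ0 + u ≠ 0 → ContinuousAt n u := by
    intro u hu
    have h1 : n = fun u => I * ((ζ0 - u) / (ζ0 + u)) := funext hn
    rw [h1]
    exact continuousAt_const.mul ((continuousAt_const.sub continuousAt_id).div
      (continuousAt_const.add continuousAt_id) hu)
  have hn00 : n ζ0 = 0 := by rw [hn]; simp
  have hlim : Tendsto (fun y : ℝ => (φ ∘ m) (y * I)) (𝓝[>] 0) (𝓝 x) := by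
    refine imag_limit hconf (hb.subset himg) (δ := fun t => n (δ t)) ?_ ?_ ?_ ?_
    · intro t ht
      exact (hnc (δ t) (hne _ (hU t ht))).comp_continuousWithinAt (hδ t ht)
    · intro t ht
      exact hnU _ (hU t ht)
    · have h1 := (hnc ζ0 hzz).tendsto
      rw [hn00] at h1
      rw [← hζ0] at h0
      exact h1.comp h0
    · refine hx.congr' ?_
      have h1 : Ico (0 : ℝ) 1 ∈ 𝓝[<] (1 : ℝ) := Ico_mem_nhdsLT zero_lt_one
      filter_upwards [h1] with t ht
      show φ (δ t) = φ (m (n (δ t)))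
      rw [hmn _ (hU t ht)]
  have hr : Tendsto (fun r : ℝ => (1 - r) / (1 + r)) (𝓝[<] 1) (𝓝[>] 0) := by
    refine tendsto_nhdsWithin_of_tendsto_nhds_of_eventually_within _ ?_ ?_
    · have h1 : ContinuousAt (fun r : ℝ => (1 - r) / (1 + r)) 1 :=
        (continuousAt_const.sub continuousAt_id).div (continuousAt_const.add continuousAt_id)
          (by norm_num)
      have h2 := h1.tendsto.mono_left (nhdsWithin_le_nhds (s := Iio 1))
      simpa using h2
    · have h1 : Ico (0 : ℝ) 1 ∈ 𝓝[<] (1 : ℝ) := Ico_mem_nhdsLT zero_lt_one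
      filter_upwards [h1] with r hr
      exact div_pos (sub_pos.mpr hr.2) (add_pos_of_pos_of_nonneg one_pos hr.1)
  unfold RadLim
  refine (hlim.comp hr).congr' ?_
  have h1 : Ico (0 : ℝ) 1 ∈ 𝓝[<] (1 : ℝ) := Ico_mem_nhdsLT zero_lt_one
  filter_upwards [h1] with r hr
  show φ (m (((1 - r) / (1 + r) : ℝ) * I)) = φ (pol r θ)
  have h2 : (1 + r : ℝ) ≠ 0 := (add_pos_of_pos_of_nonneg one_pos hr.1).ne'
  have h2' : (1 + r : ℂ) ≠ 0 := by exact_mod_cast h2
  have h3 : m (((1 - r) / (1 + r) : ℝ) * I) = pol r θ := by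
    have h4 : (I : ℂ) + (((1 - r) / (1 + r) : ℝ) : ℂ) * I = 2 * I / (1 + r) := by
      push_cast
      field_simp
      ring
    have h5 : (I : ℂ) - (((1 - r) / (1 + r) : ℝ) : ℂ) * I = 2 * I * r / (1 + r) := by
      push_cast
      field_simp
      ring
    have h6 : (2 * I : ℂ) ≠ 0 := mul_ne_zero two_ne_zero Complex.I_ne_zero
    rw [hm, h4, h5, div_div_div_cancel_right₀ h2', mul_div_cancel_left₀ _ h6, hζ0]
    unfold pol
    push_cast
    ring
  rw [h3]

end Pool.SiegelArc
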