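import Pool.Agent.Lib.MP_b59c01_an.Base

/-!
# Winding numbers and injective holomorphic maps (from the modules A and DE of `MP_cf6b16_an`)
-/

open Complex MeasureTheory Set Filter Topology Metric

namespace Pool.SiegelArc

theorem SameWind.equiv (c : ℝ → ℂ) :
    (∀ a, (∀ t ∈ Icc (0 : ℝ) 1, c t ≠ a) → SameWind c a a) ∧
    (∀ a b, SameWind c a b → SameWind c b a) ∧
    (∀ a b d, SameWind c a b → SameWind c b d → SameWind c a d) := by
  refine ⟨?_, ?_, ?_⟩
  · intro a ha
    refine ⟨fun t ht => ⟨ha t ht, ha t ht⟩, fun _ => 0, continuousOn_const, rfl, fun t _ => ?_⟩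
    rw [Complex.exp_zero, one_mul]
  · rintro a b ⟨h1, l, hl, h01, hexp⟩
    refine ⟨fun t ht => ⟨(h1 t ht).2, (h1 t ht).1⟩, fun t => -l t, hl.neg, by simp only; rw [h01],
      fun t ht => ?_⟩
    rw [← hexp t ht, Complex.exp_neg, inv_mul_cancel_left₀ (Complex.exp_ne_zero _)]
  · rintro a b d ⟨h1, l, hl, h01, hexp⟩ ⟨h1', l', hl', h01', hexp'⟩
    refine ⟨fun t ht => ⟨(h1 t ht).1, (h1' t ht).2⟩, fun t => l t + l' t, hl.add hl',
      by simp only; rw [h01, h01'], fun t ht => ?_⟩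
    rw [Complex.exp_add, mul_assoc, hexp' t ht, hexp t ht]

theorem d1b_near {c : ℝ → ℂ} (hc : ContinuousOn c (Icc 0 1)) (h01 : c 0 = c 1) {x : ℂ}
    (hx : ∀ t ∈ Icc (0 : ℝ) 1, c t ≠ x) : ∀ᶠ y in 𝓝 x, SameWind c x y := by
  have hcn : ContinuousOn (fun t => ‖c t - x‖) (Icc 0 1) := (hc.sub continuousOn_const).norm
  obtain ⟨t0, ht0, hmin⟩ := isCompact_Icc.exists_isMinOn (nonempty_Icc.2 (zero_le_one (α := ℝ))) hcn
  have hδ : 0 < ‖c t0 - x‖ := norm_pos_iff.2 (sub_ne_zero.2 (hx t0 ht0))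
  filter_upwards [ball_mem_nhds x hδ] with y hy
  rw [mem_ball, dist_eq_norm] at hy
  have hlt : ∀ t ∈ Icc (0 : ℝ) 1, ‖y - x‖ < ‖c t - x‖ := fun t ht =>
    lt_of_lt_of_le hy (hmin ht)
  have hne0 : ∀ t ∈ Icc (0 : ℝ) 1, c t - x ≠ 0 := fun t ht => sub_ne_zero.2 (hx t ht)
  have hney : ∀ t ∈ Icc (0 : ℝ) 1, c t ≠ y := by
    intro t ht h
    have := hlt t ht
    rw [h] at this
    exact lt_irrefl _ this
  have heq : ∀ t ∈ Icc (0 : ℝ) 1, (c t - y) / (c t - x) = 1 + -((y - x) / (c t - x)) := by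
    intro t ht
    have := hne0 t ht
    field_simp
    ring
  have hslit : ∀ t ∈ Icc (0 : ℝ) 1, (c t - y) / (c t - x) ∈ slitPlane := by
    intro t ht
    rw [heq t ht]
    apply mem_slitPlane_of_norm_lt_one
    rw [norm_neg, norm_div, div_lt_one (norm_pos_iff.2 (hne0 t ht))]
    exact hlt t ht
  refine ⟨fun t ht => ⟨hx t ht, hney t ht⟩, fun t => -log ((c t - y) / (c t - x)), ?_, ?_, ?_⟩
  · exact (((hc.sub continuousOn_const).div (hc.sub continuousOn_const) hne0).clog hslit).neg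
  · simp only [h01]
  · intro t ht
    have h1 : (c t - y) / (c t - x) ≠ 0 :=
      div_ne_zero (sub_ne_zero.2 (hney t ht)) (hne0 t ht)
    rw [exp_neg, exp_log h1, inv_div, div_mul_cancel₀ _ (sub_ne_zero.2 (hney t ht))]

/--  for `b` close to `a` (closer than the curve) use the principal logarithm of `(c-a)/(c-b)`; then
`IsPreconnected` via the open equivalence classes. -/
theorem sameWind_of_preconnected {c : ℝ → ℂ} (hc : ContinuousOn c (Icc 0 1)) (h01 : c 0 = c 1)
    {X : Set ℂ} (hX : IsPreconnected X) (hav : ∀ t ∈ Icc (0 : ℝ) 1, c t ∉ X) {a b : ℂ}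
    (ha : a ∈ X) (hb : b ∈ X) : SameWind c a b := by
  obtain ⟨_, hsymm, htrans⟩ := SameWind.equiv c
  refine hX.induction₂ (SameWind c) (fun x hx => ?_) (fun x y z _ _ _ h1 h2 => htrans x y z h1 h2)
    (fun x y _ _ h => hsymm x y h) ha hb
  exact (d1b_near hc h01 (fun t ht h => hav t ht (h ▸ hx))).filter_mono nhdsWithin_le_nhds

theorem d1c_const {l L : ℝ → ℂ} {a b : ℝ} (hab : a ≤ b) (hl : ContinuousOn l (Icc a b))
    (hL : ContinuousOn L (Icc a b)) (he : ∀ t ∈ Icc a b, exp (l t) = exp (L t)) :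
    l a - L a = l b - L b := by
  have hn : ∀ t ∈ Icc a b, ∃ n : ℤ, l t - L t = n * (2 * Real.pi * I) := by
    intro t ht
    obtain ⟨n, hn⟩ := exp_eq_exp_iff_exists_int.1 (he t ht)
    exact ⟨n, by rw [hn]; ring⟩
  have hcont : ContinuousOn (fun t => (l t - L t).im) (Icc a b) :=
    continuous_im.comp_continuousOn (hl.sub hL)
  have him : ∀ t, ∀ n : ℤ, l t - L t = n * (2 * Real.pi * I) → (l t - L t).im = n * (2 * Real.pi) := by
    intro t n h
    rw [h]
    simp
  obtain ⟨n, hn1⟩ := hn a (left_mem_Icc.2 hab)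
  obtain ⟨m, hm1⟩ := hn b (right_mem_Icc.2 hab)
  have hpi := Real.pi_pos
  have key : ∀ k j : ℤ, ¬ ((j : ℝ) * (2 * Real.pi) = (k + 1 / 2) * (2 * Real.pi)) := by
    intro k j h
    have h1 : (j : ℝ) = k + 1 / 2 := mul_right_cancel₀ (by positivity) h
    have h2 : (2 * j : ℝ) = 2 * k + 1 := by rw [h1]; ring
    have h3 : 2 * j = 2 * k + 1 := by exact_mod_cast h2
    omega
  have hnm : n = m := by
    rcases lt_trichotomy n m with h | h | h
    · exfalso
      have h1 : (n : ℝ) + 1 ≤ m := by exact_mod_cast h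
      have h2 := intermediate_value_Icc hab hcont
      have h3 : ((n : ℝ) + 1 / 2) * (2 * Real.pi) ∈ Icc ((l a - L a).im) ((l b - L b).im) := by
        rw [him a n hn1, him b m hm1]
        constructor
        · exact mul_le_mul_of_nonneg_right (by linarith) (by positivity)
        · exact mul_le_mul_of_nonneg_right (by linarith) (by positivity)
      obtain ⟨t, ht, hte⟩ := h2 h3
      obtain ⟨j, hj⟩ := hn t ht
      have h4 : (l t - L t).im = ((n : ℝ) + 1 / 2) * (2 * Real.pi) := hte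
      rw [him t j hj] at h4
      exact key n j h4
    · exact h
    · exfalso
      have h1 : (m : ℝ) + 1 ≤ n := by exact_mod_cast h
      have h2 := intermediate_value_Icc' hab hcont
      have h3 : ((m : ℝ) + 1 / 2) * (2 * Real.pi) ∈ Icc ((l b - L b).im) ((l a - L a).im) := by
        rw [him a n hn1, him b m hm1]
        constructor
        · exact mul_le_mul_of_nonneg_right (by linarith) (by positivity)
        · exact mul_le_mul_of_nonneg_right (by linarith) (by positivity)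
      obtain ⟨t, ht, hte⟩ := h2 h3
      obtain ⟨j, hj⟩ := hn t ht
      have h4 : (l t - L t).im = ((m : ℝ) + 1 / 2) * (2 * Real.pi) := hte
      rw [him t j hj] at h4
      exact key m j h4
  rw [hn1, hm1, hnm]

theorem d1c_diff {u v : ℂ} (h : exp u = exp v) (k : ℤ) (h1 : (2 * k - 2 : ℝ) * Real.pi < (u - v).im)
    (h2 : (u - v).im < (2 * k + 2 : ℝ) * Real.pi) : u - v = k * (2 * Real.pi * I) := by
  obtain ⟨n, hn⟩ := exp_eq_exp_iff_exists_int.1 h
  have h3 : u - v = n * (2 * Real.pi * I) := by rw [hn]; ring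
  have h4 : (u - v).im = n * (2 * Real.pi) := by rw [h3]; simp
  have hpi := Real.pi_pos
  rw [h4] at h1 h2
  have h5 : (2 * k - 2 : ℝ) < 2 * n := by
    have : (2 * k - 2 : ℝ) * Real.pi < (2 * n : ℝ) * Real.pi := by linarith
    exact lt_of_mul_lt_mul_right this hpi.le
  have h6 : (2 * n : ℝ) < 2 * k + 2 := by
    have : (2 * n : ℝ) * Real.pi < (2 * k + 2 : ℝ) * Real.pi := by linarith
    exact lt_of_mul_lt_mul_right this hpi.le
  have h7 : 2 * k - 2 < 2 * n := by exact_mod_cast h5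
  have h8 : 2 * n < 2 * k + 2 := by exact_mod_cast h6
  have h9 : n = k := by omega
  rw [h3, h9]

/-- . `F = (c - iy)/(c + iy)`: off `[ta,tb]` use `log F` (`|F - 1| < 1`), on `[ta,tb]` use
`log(c - iy) - log(c + iy)` (principal logarithms in the lower / upper half plane); at `tb` they agree, at `ta` they differ by `2 π i`. -/
theorem not_sameWind_of_crossing {c : ℝ → ℂ} (hc : ContinuousOn c (Icc 0 1)) (h01 : c 0 = c 1)
    {y ta tb : ℝ} (hy : 0 < y) (h0 : 0 ≤ ta) (hab : ta < tb) (h1 : tb ≤ 1)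
    (hout : ∀ t ∈ Icc (0 : ℝ) 1, t ≤ ta ∨ tb ≤ t → 3 * y < ‖c t‖)
    (hin : ∀ t ∈ Icc ta tb, |(c t).im| < y) (hta : (c ta).re < 0) (htb : 0 < (c tb).re) :
    ¬ SameWind c (I * y) (-(I * y)) := by
  rintro ⟨hne, l, hl, hl01, hle⟩
  have hpi := Real.pi_pos
  have hp : ∀ t ∈ Icc (0 : ℝ) 1, c t + I * y ≠ 0 := by
    intro t ht h
    exact (hne t ht).2 (eq_neg_of_add_eq_zero_left h)
  have hm : ∀ t ∈ Icc (0 : ℝ) 1, c t - I * y ≠ 0 := by
    intro t ht h
    exact (hne t ht).1 (sub_eq_zero.1 h)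
  have hF : ∀ t ∈ Icc (0 : ℝ) 1, exp (l t) = (c t - I * y) / (c t + I * y) := by
    intro t ht
    rw [eq_div_iff (hp t ht)]
    have := hle t ht
    rwa [sub_neg_eq_add] at this
  have hF0 : ∀ t ∈ Icc (0 : ℝ) 1, (c t - I * y) / (c t + I * y) ≠ 0 := fun t ht =>
    div_ne_zero (hm t ht) (hp t ht)
  have hre : ∀ t ∈ Icc (0 : ℝ) 1, t ≤ ta ∨ tb ≤ t → 0 < ((c t - I * y) / (c t + I * y)).re := by
    intro t ht h
    have h2 := hout t ht h
    have h3 : 2 * y < ‖c t + I * y‖ := by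
      have h4 : ‖c t‖ ≤ ‖c t + I * y‖ + ‖I * (y : ℂ)‖ := by
        have h5 := norm_sub_le (c t + I * y) (I * y)
        rwa [add_sub_cancel_right] at h5
      have h5 : ‖I * (y : ℂ)‖ = y := by
        rw [norm_mul, norm_I, one_mul, norm_real, Real.norm_of_nonneg hy.le]
      linarith
    have h6 : (c t - I * y) / (c t + I * y) = 1 + (-(2 * (I * y)) / (c t + I * y)) := by
      rw [eq_comm, ← div_self (hp t ht), ← add_div]
      congr 1
      ring
    have h7 : ‖-(2 * (I * (y : ℂ))) / (c t + I * y)‖ < 1 := by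
      rw [norm_div, norm_neg, norm_mul, norm_mul, norm_I, norm_real, Real.norm_of_nonneg hy.le,
        div_lt_one (by linarith)]
      simpa using h3
    have h8 := abs_re_le_norm (-(2 * (I * (y : ℂ))) / (c t + I * y))
    have h9 := (abs_lt.1 (lt_of_le_of_lt h8 h7)).1
    rw [h6, add_re, one_re]
    linarith
  have hslit : ∀ t ∈ Icc (0 : ℝ) 1, t ≤ ta ∨ tb ≤ t →
      (c t - I * y) / (c t + I * y) ∈ slitPlane := fun t ht h =>
    mem_slitPlane_iff.2 (Or.inl (hre t ht h))
  have hcF : ContinuousOn (fun t => (c t - I * y) / (c t + I * y)) (Icc 0 1) :=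
    (hc.sub continuousOn_const).div (hc.add continuousOn_const) hp
  -- the two logarithms
  set L1 : ℝ → ℂ := fun t => log ((c t - I * y) / (c t + I * y)) with hL1
  set L2 : ℝ → ℂ := fun t => log (c t - I * y) - log (c t + I * y) with hL2
  have hsub1 : Icc 0 ta ⊆ Icc (0 : ℝ) 1 := Icc_subset_Icc le_rfl (hab.le.trans h1)
  have hsub2 : Icc tb 1 ⊆ Icc (0 : ℝ) 1 := Icc_subset_Icc (h0.trans hab.le) le_rfl
  have hsub3 : Icc ta tb ⊆ Icc (0 : ℝ) 1 := Icc_subset_Icc h0 h1
  have hA := d1c_const (l := l) (L := L1) h0 (hl.mono hsub1)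
    ((hcF.mono hsub1).clog (fun t ht => hslit t (hsub1 ht) (Or.inl ht.2)))
    (fun t ht => by rw [hF t (hsub1 ht), hL1, exp_log (hF0 t (hsub1 ht))])
  have hB := d1c_const (l := l) (L := L1) h1 (hl.mono hsub2)
    ((hcF.mono hsub2).clog (fun t ht => hslit t (hsub2 ht) (Or.inr ht.1)))
    (fun t ht => by rw [hF t (hsub2 ht), hL1, exp_log (hF0 t (hsub2 ht))])
  have himm : ∀ t ∈ Icc ta tb, (c t - I * y).im < 0 := by
    intro t ht
    have h2 := abs_lt.1 (hin t ht)
    simp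
    linarith [h2.2]
  have himp : ∀ t ∈ Icc ta tb, 0 < (c t + I * y).im := by
    intro t ht
    have h2 := abs_lt.1 (hin t ht)
    simp
    linarith [h2.1]
  have heL2 : ∀ t ∈ Icc ta tb, exp (L2 t) = (c t - I * y) / (c t + I * y) := by
    intro t ht
    rw [hL2]
    simp only
    rw [exp_sub, exp_log (hm t (hsub3 ht)), exp_log (hp t (hsub3 ht))]
  have hC := d1c_const (l := l) (L := L2) hab.le (hl.mono hsub3)
    ((((hc.mono hsub3).sub continuousOn_const).clog
      (fun t ht => mem_slitPlane_iff.2 (Or.inr (himm t ht).ne))).sub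
      (((hc.mono hsub3).add continuousOn_const).clog
      (fun t ht => mem_slitPlane_iff.2 (Or.inr (himp t ht).ne'))))
    (fun t ht => by rw [hF t (hsub3 ht), heL2 t ht])
  have hta' : ta ∈ Icc ta tb := left_mem_Icc.2 hab.le
  have htb' : tb ∈ Icc ta tb := right_mem_Icc.2 hab.le
  have hL1im : ∀ t ∈ Icc (0 : ℝ) 1, t ≤ ta ∨ tb ≤ t → |(L1 t).im| < Real.pi / 2 := by
    intro t ht h
    rw [hL1]
    simp only
    rw [log_im, abs_arg_lt_pi_div_two_iff]
    exact Or.inl (hre t ht h)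
  have hL2im : ∀ t, (L2 t).im = arg (c t - I * y) - arg (c t + I * y) := by
    intro t
    rw [hL2]
    simp only
    rw [sub_im, log_im, log_im]
  -- at tb
  have hb0 : L2 tb - L1 tb = ((0 : ℤ) : ℂ) * (2 * Real.pi * I) := by
    have h2 := abs_lt.1 (hL1im tb (hsub3 htb') (Or.inr le_rfl))
    have h3 : |arg (c tb - I * y)| < Real.pi / 2 := by
      rw [abs_arg_lt_pi_div_two_iff]
      left
      simpa using htb
    have h4 : |arg (c tb + I * y)| < Real.pi / 2 := by
      rw [abs_arg_lt_pi_div_two_iff]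
      left
      simpa using htb
    have h5 : arg (c tb - I * y) < 0 := arg_neg_iff.2 (himm tb htb')
    have h6 : 0 ≤ arg (c tb + I * y) := arg_nonneg_iff.2 (himp tb htb').le
    have h3' := abs_lt.1 h3
    have h4' := abs_lt.1 h4
    apply d1c_diff
    · rw [heL2 tb htb', hL1]
      simp only
      rw [exp_log (hF0 tb (hsub3 htb'))]
    · rw [sub_im, hL2im]
      push_cast
      linarith [h2.1, h2.2, h3'.1, h4'.2]
    · rw [sub_im, hL2im]
      push_cast
      linarith [h2.1, h2.2, h3'.1, h4'.2]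
  -- at ta
  have ha0 : L2 ta - L1 ta = ((-1 : ℤ) : ℂ) * (2 * Real.pi * I) := by
    have h2 := abs_lt.1 (hL1im ta (hsub3 hta') (Or.inl le_rfl))
    have h3 : arg (c ta - I * y) < -(Real.pi / 2) := by
      rw [← not_le, neg_pi_div_two_le_arg_iff]
      rintro (h | h)
      · have : 0 ≤ (c ta).re := by simpa using h
        linarith
      · linarith [himm ta hta']
    have h4 : Real.pi / 2 < arg (c ta + I * y) := by
      rw [← not_le, arg_le_pi_div_two_iff]
      rintro (h | h)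
      · have : 0 ≤ (c ta).re := by simpa using h
        linarith
      · linarith [himp ta hta']
    have h5 := neg_pi_lt_arg (c ta - I * y)
    have h6 := arg_le_pi (c ta + I * y)
    apply d1c_diff
    · rw [heL2 ta hta', hL1]
      simp only
      rw [exp_log (hF0 ta (hsub3 hta'))]
    · rw [sub_im, hL2im]
      push_cast
      linarith [h2.1, h2.2]
    · rw [sub_im, hL2im]
      push_cast
      linarith [h2.1, h2.2]
  have hL01 : L1 0 = L1 1 := by
    rw [hL1]
    simp only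
    rw [h01]
  have hzero : (2 * Real.pi * I : ℂ) = 0 := by
    have e1 : L2 tb = L1 tb := by
      rw [Int.cast_zero, zero_mul] at hb0
      exact sub_eq_zero.1 hb0
    have e2 : L2 ta = L1 ta - 2 * Real.pi * I := by
      have := ha0
      push_cast at this
      linear_combination this
    rw [hl01, hL01] at hA
    rw [e2, e1] at hC
    linear_combination hC + hB + hA
  exact two_pi_I_ne_zero hzero

theorem a15b_an {U : Set ℂ} (hU : IsOpen U) {f : ℂ → ℂ} (hd : DifferentiableOn ℂ f U) {z : ℂ}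
    (hz : z ∈ U) : AnalyticAt ℂ f z :=
  hd.analyticAt (hU.mem_nhds hz)

theorem a15b_not_const {U : Set ℂ} (hU : IsOpen U) {f : ℂ → ℂ} (hi : InjOn f U) {z : ℂ}
    (hz : z ∈ U) : ¬ ∀ᶠ z' in 𝓝 z, f z' = f z := by
  intro h
  have h1 : ∀ᶠ z' in 𝓝[≠] z, f z' = f z ∧ z' ∈ U ∧ z' ≠ z := by
    filter_upwards [h.filter_mono nhdsWithin_le_nhds,
      mem_nhdsWithin_of_mem_nhds (hU.mem_nhds hz),
      (self_mem_nhdsWithin : {z}ᶜ ∈ 𝓝[≠] z)] with z' a b c
    exact ⟨a, b, c⟩
  obtain ⟨z', h2, h3, h4⟩ := h1.exists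
  exact h4 (hi h3 hz h2)

theorem univ_open {U V : Set ℂ} (hV : IsOpen V) (hs : V ⊆ U) (hU : IsOpen U) {f : ℂ → ℂ}
    (hd : DifferentiableOn ℂ f U) (hi : InjOn f U) : IsOpen (f '' V) := by
  rw [isOpen_iff_mem_nhds]
  rintro _ ⟨z, hz, rfl⟩
  rcases (a15b_an hU hd (hs hz)).eventually_constant_or_nhds_le_map_nhds with h | h
  · exact absurd h (a15b_not_const hU hi (hs hz))
  · exact h (image_mem_map (hV.mem_nhds hz))

theorem a15b_deriv_ne {U : Set ℂ} (hU : IsOpen U) {f : ℂ → ℂ} (hd : DifferentiableOn ℂ f U)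
    (hi : InjOn f U) {z : ℂ} (hz : z ∈ U) : ∀ᶠ z' in 𝓝[≠] z, deriv f z' ≠ 0 := by
  rcases (a15b_an hU hd hz).deriv.eventually_eq_zero_or_eventually_ne_zero with h | h
  · exfalso
    apply a15b_not_const hU hi hz
    obtain ⟨r, hr, hball⟩ := Metric.eventually_nhds_iff_ball.1
      (h.and (hU.mem_nhds hz : ∀ᶠ z' in 𝓝 z, z' ∈ U))
    filter_upwards [ball_mem_nhds z hr] with z' hz'
    have hdb : DifferentiableOn ℂ f (ball z r) := hd.mono fun y hy => (hball y hy).2
    exact isOpen_ball.is_const_of_deriv_eq_zero (convex_ball z r).isPreconnected hdb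
      (fun y hy => (hball y hy).1) hz' (mem_ball_self hr)
  · exact h

theorem univ_inverse {U : Set ℂ} (hU : IsOpen U) {f : ℂ → ℂ} (hd : DifferentiableOn ℂ f U)
    (hi : InjOn f U) :
    ∃ g : ℂ → ℂ, DifferentiableOn ℂ g (f '' U) ∧ (∀ z ∈ U, g (f z) = z) ∧
      (∀ w ∈ f '' U, g w ∈ U ∧ f (g w) = w) := by
  let g := Function.invFunOn f U
  have hl : ∀ z ∈ U, g (f z) = z := fun z hz => hi.leftInvOn_invFunOn hz
  have hr : ∀ w ∈ f '' U, g w ∈ U ∧ f (g w) = w := fun w hw =>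
    ⟨Function.invFunOn_mem hw, Function.invFunOn_eq hw⟩
  have hopen : IsOpen (f '' U) := univ_open hU Subset.rfl hU hd hi
  have hcont : ∀ w ∈ f '' U, ContinuousAt g w := by
    rintro _ ⟨z, hz, rfl⟩
    intro N hN
    rw [hl z hz] at hN
    have h1 : f '' (interior N ∩ U) ∈ 𝓝 (f z) :=
      (univ_open (isOpen_interior.inter hU) inter_subset_right hU hd hi).mem_nhds
        ⟨z, ⟨mem_interior_iff_mem_nhds.2 hN, hz⟩, rfl⟩
    rw [mem_map]
    filter_upwards [h1]
    rintro _ ⟨y, ⟨hy1, hy2⟩, rfl⟩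
    rw [mem_preimage, hl y hy2]
    exact interior_subset hy1
  refine ⟨g, ?_, hl, hr⟩
  intro w hw
  have hz0 := (hr w hw).1
  have htend : Tendsto g (𝓝[≠] w) (𝓝[≠] (g w)) := by
    apply tendsto_nhdsWithin_of_tendsto_nhds_of_eventually_within
    · exact (hcont w hw).tendsto.mono_left nhdsWithin_le_nhds
    · filter_upwards [mem_nhdsWithin_of_mem_nhds (hopen.mem_nhds hw),
        (self_mem_nhdsWithin : {w}ᶜ ∈ 𝓝[≠] w)] with w' h1 h2 h3
      apply h2
      rw [mem_singleton_iff] at h3 ⊢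
      rw [← (hr w' h1).2, h3, (hr w hw).2]
  have hpd : ∀ᶠ w' in 𝓝[≠] w, DifferentiableAt ℂ g w' := by
    filter_upwards [htend.eventually (a15b_deriv_ne hU hd hi hz0),
      mem_nhdsWithin_of_mem_nhds (hopen.mem_nhds hw)]
      with w' h1 h2
    have h3 : HasDerivAt f (deriv f (g w')) (g w') :=
      (a15b_an hU hd (hr w' h2).1).differentiableAt.hasDerivAt
    refine (h3.of_local_left_inverse (hcont w' h2) h1 ?_).differentiableAt
    filter_upwards [hopen.mem_nhds h2] with y hy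
    exact (hr y hy).2
  exact (Complex.analyticAt_of_differentiable_on_punctured_nhds_of_continuousAt hpd
    (hcont w hw)).differentiableAt.differentiableWithinAt

theorem univ_deriv {U : Set ℂ} (hU : IsOpen U) {f : ℂ → ℂ} (hd : DifferentiableOn ℂ f U)
    (hi : InjOn f U) {z : ℂ} (hz : z ∈ U) : deriv f z ≠ 0 := by
  obtain ⟨g, hg, hl, hr⟩ := univ_inverse hU hd hi
  have hopen : IsOpen (f '' U) := univ_open hU Subset.rfl hU hd hi
  have h1 : HasDerivAt g (deriv g (f z)) (f z) :=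
    (hg.differentiableAt (hopen.mem_nhds ⟨z, hz, rfl⟩)).hasDerivAt
  have h2 : HasDerivAt f (deriv f z) z := (hd.differentiableAt (hU.mem_nhds hz)).hasDerivAt
  have h3 : HasDerivAt (g ∘ f) (deriv g (f z) * deriv f z) z := h1.comp z h2
  have h4 : HasDerivAt (g ∘ f) 1 z := by
    refine (hasDerivAt_id z).congr_of_eventuallyEq ?_
    filter_upwards [hU.mem_nhds hz] with y hy
    exact hl y hy
  have h5 := h3.unique h4
  intro h0
  rw [h0, mul_zero] at h5
  exact zero_ne_one h5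

end Pool.SiegelArc
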