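import Pool.Agent.Lib.MP_b59c01_an.Tools

/-!
# MP_b59c01_an, row W5
-/

open Complex MeasureTheory Set Filter Topology Metric

namespace Pool.SiegelArc

/-- the normalised curve -/
theorem W5_sameWind {C : ℝ → ℂ} {a v p q : ℂ} (hv : v ≠ 0)
    (h : SameWind C (a + p * v) (a + q * v)) :
    SameWind (fun t => (C t - a) / v) p q := by
  obtain ⟨h1, l, hl, h2, h3⟩ := h
  refine ⟨fun t ht => ⟨fun h => (h1 t ht).1 ?_, fun h => (h1 t ht).2 ?_⟩, l, hl, h2,
    fun t ht => ?_⟩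
  · have h5 : (C t - a) / v = p := h
    rw [div_eq_iff hv] at h5
    linear_combination h5
  · have h5 : (C t - a) / v = q := h
    rw [div_eq_iff hv] at h5
    linear_combination h5
  · have h4 := h3 t ht
    have h5 : (C t - a) / v - q = (C t - (a + q * v)) / v := by
      field_simp
      ring
    have h6 : (C t - a) / v - p = (C t - (a + p * v)) / v := by
      field_simp
      ring
    simp only
    rw [h5, h6, ← h4]
    ring

/-- PROOF: apply `not_sameWind_of_crossing` to the curve `c t = (C t - C t0) / v` (a `SameWind` for `C` and the points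
`C t0 ± I y v` gives one for `c` and `± I y`, dividing by `v`). `c t = (t - t0) + o(t - t0)`: choose `δ` with
`‖c t - (t - t0)‖ ≤ |t - t0| / 10` for `|t - t0| ≤ δ` (and `[t0 - δ, t0 + δ] ⊆ [0, 1]`), and `m > 0` a lower bound of `‖c t‖`
for `t ∈ [0, 1]`, `|t - t0| ≥ δ` (compactness, `hinj`). For `0 < y < min (δ / 5) (m / 3)` take `η = 5 y`, `ta = t0 - η`,
`tb = t0 + η`: on `[ta, tb]` `|(c t).im| ≤ η / 10 < y`; for `η ≤ |t - t0| ≤ δ`, `‖c t‖ ≥ 0.9 η = 4.5 y > 3 y`; for
`|t - t0| ≥ δ`, `‖c t‖ ≥ m > 3 y`; `(c ta).re ≤ - η + η / 10 < 0 < (c tb).re`. -/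
theorem jump {C : ℝ → ℂ} (hC : ContinuousOn C (Icc 0 1)) (h01 : C 0 = C 1) {t0 : ℝ}
    (ht0 : t0 ∈ Ioo (0 : ℝ) 1) {v : ℂ} (hv : v ≠ 0) (hd : HasDerivAt C v t0)
    (hinj : ∀ t ∈ Icc (0 : ℝ) 1, t ≠ t0 → C t ≠ C t0) :
    ∀ᶠ y : ℝ in 𝓝[>] 0, ¬ SameWind C (C t0 + I * y * v) (C t0 - I * y * v) := by
  set c : ℝ → ℂ := fun t => (C t - C t0) / v with hc
  have hcc : ContinuousOn c (Icc 0 1) := (hC.sub continuousOn_const).div_const v
  have hcd : HasDerivAt c 1 t0 := by
    have h1 := (hd.sub_const (C t0)).div_const v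
    rwa [div_self hv] at h1
  have hc0 : c t0 = 0 := by simp [hc]
  have hlit := (hasDerivAt_iff_isLittleO.1 hcd).def (show (0 : ℝ) < 1 / 10 by norm_num)
  obtain ⟨δ1, hδ1, hb⟩ := Metric.eventually_nhds_iff.1 hlit
  have hbd : ∀ t : ℝ, |t - t0| < δ1 → ‖c t - ((t - t0 : ℝ) : ℂ)‖ ≤ 1 / 10 * |t - t0| := by
    intro t ht
    have h1 := hb (y := t) (by rw [Real.dist_eq]; exact ht)
    rw [hc0, sub_zero, Real.norm_eq_abs] at h1
    have h2 : (t - t0) • (1 : ℂ) = ((t - t0 : ℝ) : ℂ) := by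
      rw [Complex.real_smul, mul_one]
    rwa [h2] at h1
  obtain ⟨ht0a, ht0b⟩ := ht0
  set δ : ℝ := min (δ1 / 2) (min t0 (1 - t0)) with hδdef
  have hδ : 0 < δ := lt_min (by positivity) (lt_min ht0a (by linarith))
  have hδ1' : δ < δ1 := lt_of_le_of_lt (min_le_left _ _) (by linarith)
  have hδ2 : δ ≤ t0 := (min_le_right _ _).trans (min_le_left _ _)
  have hδ3 : δ ≤ 1 - t0 := (min_le_right _ _).trans (min_le_right _ _)
  -- the lower bound
  have hm : ∃ m : ℝ, 0 < m ∧ ∀ t ∈ Icc (0 : ℝ) 1, δ ≤ |t - t0| → m ≤ ‖c t‖ := by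
    have hK : IsCompact (Icc (0 : ℝ) 1 ∩ {t | δ ≤ |t - t0|}) :=
      isCompact_Icc.inter_right (isClosed_le continuous_const (by fun_prop))
    rcases (Icc (0 : ℝ) 1 ∩ {t | δ ≤ |t - t0|}).eq_empty_or_nonempty with h | h
    · refine ⟨1, one_pos, fun t ht h1 => ?_⟩
      exact absurd (show t ∈ Icc (0 : ℝ) 1 ∩ {t | δ ≤ |t - t0|} from ⟨ht, h1⟩) (by rw [h]; simp)
    · obtain ⟨t1, ht1, hmin⟩ := hK.exists_isMinOn h ((hcc.mono inter_subset_left).norm)
      refine ⟨‖c t1‖, ?_, fun t ht h1 => hmin ⟨ht, h1⟩⟩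
      rw [norm_pos_iff]
      intro h2
      have h3 : t1 ≠ t0 := by
        rintro rfl
        have h4 : δ ≤ |t1 - t1| := ht1.2
        rw [sub_self, abs_zero] at h4
        linarith
      have h4 : (C t1 - C t0) / v = 0 := h2
      rw [div_eq_zero_iff] at h4
      rcases h4 with h4 | h4
      · exact hinj t1 ht1.1 h3 (sub_eq_zero.1 h4)
      · exact hv h4
  obtain ⟨m, hm0, hm⟩ := hm
  have hev : ∀ᶠ y : ℝ in 𝓝[>] 0, y < min (δ / 5) (m / 3) :=
    (gt_mem_nhds (lt_min (by positivity) (by positivity))).filter_mono nhdsWithin_le_nhds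
  filter_upwards [hev, self_mem_nhdsWithin] with y hy hy0
  rw [mem_Ioi] at hy0
  have hy1 : 5 * y < δ := by
    have := lt_of_lt_of_le hy (min_le_left _ _)
    linarith
  have hy2 : 3 * y < m := by
    have := lt_of_lt_of_le hy (min_le_right _ _)
    linarith
  intro hS
  have hS' : SameWind c (I * y) (-(I * y)) := by
    apply W5_sameWind hv
    have e1 : C t0 + -(I * y) * v = C t0 - I * y * v := by ring
    rw [e1]
    exact hS
  refine not_sameWind_of_crossing (ta := t0 - 5 * y) (tb := t0 + 5 * y) hcc ?_ hy0 (by linarith)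
    (by linarith) (by linarith) ?_ ?_ ?_ ?_ hS'
  · simp only [hc, h01]
  · intro t ht h
    have h1 : 5 * y ≤ |t - t0| := by
      rcases h with h | h
      · rw [abs_sub_comm]
        exact le_trans (by linarith) (le_abs_self _)
      · exact le_trans (by linarith) (le_abs_self _)
    rcases le_or_gt δ |t - t0| with h2 | h2
    · exact lt_of_lt_of_le hy2 (hm t ht h2)
    · have h3 := hbd t (h2.trans hδ1')
      have h4 : |t - t0| ≤ ‖c t‖ + ‖c t - ((t - t0 : ℝ) : ℂ)‖ := by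
        have h5 : ((t - t0 : ℝ) : ℂ) = c t - (c t - ((t - t0 : ℝ) : ℂ)) := by ring
        have h6 : |t - t0| = ‖((t - t0 : ℝ) : ℂ)‖ := by
          rw [Complex.norm_real, Real.norm_eq_abs]
        rw [h6]
        conv_lhs => rw [h5]
        exact norm_sub_le _ _
      linarith
  · intro t ht
    have h1 : |t - t0| ≤ 5 * y := abs_le.2 ⟨by linarith [ht.1], by linarith [ht.2]⟩
    have h2 := hbd t (by linarith)
    have h3 : |(c t).im| ≤ ‖c t - ((t - t0 : ℝ) : ℂ)‖ := by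
      have h4 := abs_im_le_norm (c t - ((t - t0 : ℝ) : ℂ))
      rwa [sub_im, ofReal_im, sub_zero] at h4
    linarith
  · have h0 : |t0 - 5 * y - t0| = 5 * y := by
      rw [show t0 - 5 * y - t0 = -(5 * y) by ring, abs_neg, abs_of_pos (by linarith)]
    have h1 := hbd (t0 - 5 * y) (by rw [h0]; linarith)
    have h4 := (abs_le.1 ((abs_re_le_norm _).trans h1)).2
    rw [h0, sub_re, ofReal_re] at h4
    linarith
  · have h0 : |t0 + 5 * y - t0| = 5 * y := by
      rw [show t0 + 5 * y - t0 = 5 * y by ring, abs_of_pos (by linarith)]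
    have h1 := hbd (t0 + 5 * y) (by rw [h0]; linarith)
    have h4 := (abs_le.1 ((abs_re_le_norm _).trans h1)).1
    rw [h0, sub_re, ofReal_re] at h4
    linarith

end Pool.SiegelArc
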